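import Pool.Agent.Lib.V5.Base
import Pool.Agent.Lib.V3Q.B_FINAL2

/-! Row FINAL5: a rare fast route beats the uniform lower tail, general laws. -/

namespace Pool.Agent.Lib.V5

open MeasureTheory ProbabilityTheory Filter Topology Finset SimpleGraph Pool.Agent.Lib.V3
open scoped NNReal ENNReal

namespace FINAL5

lemma half_Lo (p : Sys) (d : Dat) {σ C Y : ℝ} {M : ℕ} (hH : p.Half d σ C M Y) (y : V)
    (hy : 1 ≤ y 0) (hM : y 0 ≤ M) (hY : n1 y ≤ Y) {k : ℝ} (hk : C * (p.g d y + σ) ≤ k) :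
    1 / 2 ≤ p.pr {τ | A d (y 0) τ y ≤ k} := by
  refine (hH y hy hM hY).trans ?_
  rw [← p.pr_rf y]
  refine p.pr_mono fun τ hτ => ?_
  have h : TA (Up 0) (rf y τ) 0 y - d.ρ y ≤ C * (p.g d y + σ) := hτ
  rw [TA_rf_Up y τ (j := 0) (u := 0) (v := y) (le_refl _) (by omega), sub_zero, sub_zero, sub_self,
    TA_comm (conn_Lo le_rfl (by show (0 : ℤ) ≤ y 0; omega))] at h
  exact h.trans hk

lemma core (hF : St_FAST) (hS : St_SEP2) (p : Sys) (d : Dat) (M : ℕ) (σ a₁ a k Y : ℝ)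
    (g : p.Good M d) (c1 : 0 ≤ a₁) (c0 : 0 ≤ a) (z : V) (K m n : ℕ) (z0 : 0 ≤ z 0)
    (hzK : n1 z ≤ K) (k0 : 0 ≤ k) (kn : k ≤ n) (hn : 1 ≤ n) (hM : 2 * n ≤ M) (nz : K + 1 ≤ n)
    (S : Finset V) (hSv : ∀ v ∈ S, (n : ℤ) ≤ 2 * v 0 ∧ v 0 ≤ 2 * n ∧ p.g d v ≤ k)
    (hcard : p.cS σ * n ^ 2 ≤ S.card) (hH : p.Half d σ a₁ M Y)
    (hY : (2 + 2 / p.c * (2 * p.b + 1)) * n ≤ Y) (hLow : p.LowB d σ a n)
    (hfast : a₁ * (k + σ) + p.lo + a * (k + σ ^ 4) + p.lo * n1 z ≤ d.ρ z)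
    (hm : (1 - p.q ^ (K + 1)) ^ m ≤ 1 / 2)
    (hbig : 3 * (2 * K + 1) ^ 2 * (4 * m + 1 : ℝ) ≤ p.cS σ * n) : False := by
  classical
  have n1' : (1 : ℝ) ≤ n := by exact_mod_cast hn
  have l0 : 0 ≤ a * (k + σ ^ 4) := by positivity
  have hSY : ∀ v ∈ S, n1 v ≤ (2 + 2 / p.c * (2 * p.b + 1)) * n := fun v hv => by
    have v0 : 0 ≤ v 0 := by have := (hSv v hv).1; omega
    have v0' : (0 : ℝ) ≤ v 0 := by exact_mod_cast v0
    have h1 : (v 0 : ℝ) ≤ 2 * n := by exact_mod_cast (hSv v hv).2.1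
    have h5 := g.perp_le v0 h1 ((hSv v hv).2.2.trans kn)
    unfold n1
    rw [abs_of_nonneg v0']
    linarith
  have zK : z 0 ≤ K := by
    have : (z 0 : ℝ) ≤ K := by
      unfold n1 at hzK
      linarith [le_abs_self (z 0 : ℝ), abs_nonneg (z 1 : ℝ), abs_nonneg (z 2 : ℝ)]
    exact_mod_cast this
  obtain ⟨j, Y', E, hYS, hYc, j0, j2, hYj, hdis, hK, hE⟩ := hS z K z0 hzK n S hn
    fun v hv => ⟨by have := (hSv v hv).1; omega, (hSv v hv).2.1⟩
  have hYm : 4 * m + 1 ≤ Y'.card := by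
    have h1 := mul_le_mul_of_nonneg_right hbig (Nat.cast_nonneg (α := ℝ) n)
    have h3 : 3 * (2 * K + 1 : ℝ) ^ 2 * n * (4 * m + 1) ≤ 3 * (2 * K + 1) ^ 2 * n * Y'.card := by
      nlinarith
    have h4 := le_of_mul_le_mul_left h3 (by positivity)
    exact_mod_cast h4
  have hup : ∀ y ∈ Y', ed y ∉ Up (j + 1) := fun y hy h => by
    have := h y (Sym2.mem_mk_left _ _)
    rw [hYj y hy] at this
    omega
  have h8 := FINAL.some_fast hF p.toPar j Y' (fun y => {τ | A d j τ y ≤ a₁ * (k + σ)})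
    (fun y => insert (ed y) (E y)) (K + 1) m
    (fun y => measurableSet_le (A_meas d j y) measurable_const)
    (fun y τ τ' h hτ => by
      have : A d j τ y ≤ a₁ * (k + σ) := hτ
      show A d j τ' y ≤ a₁ * (k + σ)
      rwa [← A_congr d h])
    (fun y hy => by
      have h0 := hSv y (hYS hy)
      have := half_Lo p d hH y (by omega) (by omega) ((hSY y (hYS hy)).trans hY)
        (k := a₁ * (k + σ)) (mul_le_mul_of_nonneg_left (by linarith [h0.2.2]) c1)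
      rwa [hYj y hy] at this)
    hYm
    (fun y hy y' hy' hne => by
      rw [disjoint_insert_left, disjoint_insert_right, mem_insert, not_or]
      exact ⟨⟨fun h => hne (ed_inj h), fun h => hup y hy ((hE y' hy').1 _ h).1⟩,
        fun h => hup y' hy' ((hE y hy).1 _ h).1, hdis y hy y' hy' hne⟩)
    (fun y hy => (card_insert_le _ _).trans (Nat.succ_le_succ (hK y hy)))
    (fun y hy e he => by
      rcases mem_insert.1 he with rfl | he
      · exact ed_notMem_Lo (hYj y hy).ge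
      · exact notMem_Lo_of_Up ((hE y hy).1 e he).1) hm
  have h9 := hLow n k S (j + 1 + z 0) hn le_rfl k0 kn hSv hcard (by omega) (by omega)
  have h10 : p.pr {τ | ∃ y ∈ Y', τ ∈ {τ | A d j τ y ≤ a₁ * (k + σ)} ∧
      ∀ e ∈ insert (ed y) (E y), τ e ≤ p.lo} ≤
      p.pr (p.Low d n (j + 1 + z 0) (a * (k + σ ^ 4))) := p.pr_mono fun τ ⟨y, hy, hA, hτ⟩ => by
    obtain ⟨hin, q, hq, hqE⟩ := hE y hy
    have y0 := hYj y hy
    have a1 : TA (Lo j) τ 0 y - d.ρ y ≤ a₁ * (k + σ) := hA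
    have a2 := TA_anti (Lo_mono (show j ≤ j + 1 + z 0 by omega))
      (conn_Lo (u := 0) (v := y) j0 y0.le) τ
    have a4 := TA_le_SW (A := Lo (j + 1 + z 0)) τ (Walk.cons (adj_e0 y) q) fun e he => by
      rw [Walk.edges_cons, List.mem_cons] at he
      rcases he with rfl | he
      · intro x hx
        rcases Sym2.mem_iff.1 hx with rfl | rfl
        · omega
        · simp only [Pi.add_apply, e0_zero]; omega
      · exact (hin e (hqE e he)).2
    have a5 := SW_le_mul (τ := τ) (l := (Walk.cons (adj_e0 y) q).edges) (c := p.lo) fun e he => by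
      rw [Walk.edges_cons, List.mem_cons] at he
      rcases he with rfl | he
      · exact hτ _ (mem_insert_self _ _)
      · exact hτ e (mem_insert_of_mem (hqE e he))
    rw [Walk.length_edges, Walk.length_cons] at a5
    push_cast at a5
    rw [hq] at a5
    have e1 : (y + e0 + z) 0 = j + 1 + z 0 := by simp [y0]
    have a7 := TA_tri (A := Lo (j + 1 + z 0)) (u := 0) (v := y) (w := y + e0 + z)
      (conn_Lo (by show (0 : ℤ) ≤ _; omega) (by omega)) (conn_Lo (by omega) e1.le) τ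
    have a8 : A d (j + 1 + z 0) τ (y + e0 + z) ≤ -(a * (k + σ ^ 4)) := by
      unfold A
      rw [d.ρ_add, d.ρ_add, d.ρ_e0]
      linarith [g.ρ0_nonneg]
    have a9 : 0 ≤ d.ε / 36 * d.eta (y + e0 + z) / n := by
      have := g.ε_pos
      have := d.eta_nonneg (y + e0 + z)
      positivity
    refine ⟨y + e0 + z, e1, ?_, by linarith⟩
    have b1 := n1_add_le (y + e0) z
    have b2 := n1_add_le y e0
    rw [n1_e0] at b2
    have b3 : (K + 1 : ℝ) ≤ n := by exact_mod_cast nz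
    have b4 := mul_le_mul_of_nonneg_right p.D_ge (Nat.cast_nonneg (α := ℝ) n)
    linarith [hSY y (hYS hy)]
  linarith

/-- a site in the direction of the slope -/
lemma site (p : Sys) {d : Dat} {M : ℕ} (g : p.Good M d) (t : ℕ) :
    ∃ z : V, 0 ≤ z 0 ∧ n1 z ≤ t * (1 + 2 * p.R) + 2 ∧
      (p.c - p.lo) * t - 3 * p.b + p.lo * n1 z ≤ d.ρ z := by
  have t0 : (0 : ℝ) ≤ t := Nat.cast_nonneg _
  have f : ∀ x : ℝ, |((⌊x⌋ : ℤ) : ℝ) - x| ≤ 1 := fun x =>
    abs_le.2 ⟨by linarith [Int.lt_floor_add_one x], by linarith [Int.floor_le x]⟩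
  have f1 := f (t * d.θ1)
  have f2 := f (t * d.θ2)
  set u : ℝ := ((⌊t * d.θ1⌋ : ℤ) : ℝ) with hu
  set v : ℝ := ((⌊t * d.θ2⌋ : ℤ) : ℝ) with hv
  have n1z : n1 (pt t ⌊t * d.θ1⌋ ⌊t * d.θ2⌋) = t + |u| + |v| := by simp [n1, hu, hv]
  have ρz : d.ρ (pt t ⌊t * d.θ1⌋ ⌊t * d.θ2⌋) = d.ρ0 * t + d.l1 * u + d.l2 * v := by
    simp [Dat.ρ, hu, hv]
  have u1 : |u| ≤ t * |d.θ1| + 1 := by
    have := abs_add_le (t * d.θ1) (u - t * d.θ1)
    rw [add_sub_cancel, abs_mul, abs_of_nonneg t0] at this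
    linarith
  have v1 : |v| ≤ t * |d.θ2| + 1 := by
    have := abs_add_le (t * d.θ2) (v - t * d.θ2)
    rw [add_sub_cancel, abs_mul, abs_of_nonneg t0] at this
    linarith
  have k : ∀ l x : ℝ, |l| ≤ p.hi / 2 → |x| ≤ 1 → -(p.hi / 2 : ℝ) ≤ l * x := fun l x hl hx => by
    have := mul_le_mul hl hx (abs_nonneg _) ((abs_nonneg _).trans hl)
    rw [← abs_mul] at this
    linarith [neg_abs_le (l * x)]
  have k1 := k _ _ g.l1_le f1
  have k2 := k _ _ g.l2_le f2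
  have g4 := mul_le_mul_of_nonneg_left g.G4 t0
  have r1 := mul_le_mul_of_nonneg_left g.θ1_le t0
  have r2 := mul_le_mul_of_nonneg_left g.θ2_le t0
  refine ⟨pt t ⌊t * d.θ1⌋ ⌊t * d.θ2⌋, Int.natCast_nonneg t, by rw [n1z]; linarith, ?_⟩
  rw [n1z, ρz]
  have w1 := mul_le_mul_of_nonneg_left u1 p.lo_pos.le
  have w2 := mul_le_mul_of_nonneg_left v1 p.lo_pos.le
  have w3 := mul_nonneg (sub_pos.2 p.lo_lt_c).le (mul_nonneg t0 (abs_nonneg d.θ1))
  have w4 := mul_nonneg (sub_pos.2 p.lo_lt_c).le (mul_nonneg t0 (abs_nonneg d.θ2))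
  linarith [p.hi_le, p.lo_lt_hi]

end FINAL5

open FINAL5 in
theorem bFINAL5 (hF : St_FAST) (hS : St_SEP2) : St_FINAL5 := by
  intro p a₁ a M' c1 c0
  have hδ : 0 < p.c - p.lo := sub_pos.2 p.lo_lt_c
  set δ := p.c - p.lo with hδ'
  have hb := p.b_pos
  have hr := p.c_pos
  have hR := p.R_pos
  have hc := half_pos p.c1_pos
  have L0 : 0 ≤ -Real.log p.q := neg_nonneg.2 (Real.log_nonpos p.q_pos'.le p.q_le_one)
  set L := -Real.log p.q with hLq
  have A0 : 0 ≤ (a₁ + a) * (2 * M' ^ 2 + 1) + 4 * p.b := by positivity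
  set A' := (a₁ + a) * (2 * M' ^ 2 + 1) + 4 * p.b with hA
  have B0 : 0 ≤ (A' / δ + 1) * (1 + 2 * p.R) + 4 := by positivity
  set B := (A' / δ + 1) * (1 + 2 * p.R) + 4 with hB
  refine ⟨2 * M' ^ 2 + (B * (4 + L) + 1 + 10800 / (p.c1 / 2) ^ 2), 2 + 2 / p.c * (2 * p.b + 1),
    by positivity, by positivity, fun d M σ n g h hM hH hLow ⟨_, S, hSv, hcard⟩ => ?_⟩
  by_contra hn
  rw [not_le] at hn
  set c := 2 * M' ^ 2 + (B * (4 + L) + 1 + 10800 / (p.c1 / 2) ^ 2) with hcc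
  have s4 : 1 ≤ σ ^ 4 := one_le_pow₀ h
  have s1 : σ ≤ σ ^ 4 := le_self_pow₀ h (by norm_num)
  have c2 : 0 < 10800 / (p.c1 / 2) ^ 2 := by positivity
  have c3 : B ≤ B * (4 + L) := le_mul_of_one_le_right B0 (by linarith)
  have hcn : c * σ ^ 4 + 1 ≤ n := (Real.add_one_le_exp _).trans hn.le
  have M0 : 0 ≤ 2 * M' ^ 2 := by positivity
  have kn : 2 * M' ^ 2 * σ ^ 4 ≤ n := by
    have := mul_le_mul_of_nonneg_right (show 2 * M' ^ 2 ≤ c by linarith) (zero_le_one.trans s4)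
    linarith
  have k0 : 0 ≤ 2 * M' ^ 2 * σ ^ 4 := by positivity
  have n1' : (1 : ℝ) ≤ n := by
    have : 0 ≤ c * σ ^ 4 := mul_nonneg (by linarith) (by linarith)
    linarith
  have t0 : 0 ≤ A' * σ ^ 4 / δ := by positivity
  have t1 := Nat.le_ceil (A' * σ ^ 4 / δ)
  have t2 := (Nat.ceil_lt_add_one t0).le
  set t := ⌈A' * σ ^ 4 / δ⌉₊ with ht
  obtain ⟨z, z0, hz, hgain⟩ := site p g t
  obtain ⟨K, hK₁⟩ : ∃ K : ℕ, n1 z = K := ⟨_, n1_nat z⟩
  have hK : ((K + 1 : ℕ) : ℝ) ≤ B * σ ^ 4 := by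
    have h1 : (t : ℝ) ≤ (A' / δ + 1) * σ ^ 4 := by
      rw [add_mul, div_mul_eq_mul_div]; linarith
    have h2 := mul_le_mul_of_nonneg_right h1 (show 0 ≤ 1 + 2 * p.R by linarith)
    push_cast
    rw [hB, ← hK₁]
    linarith
  have hgk : ∀ v ∈ S, p.g d v ≤ 2 * M' ^ 2 * σ ^ 4 := fun v hv => by
    refine (hSv v hv).2.2.trans ?_
    have h1 : (v 0 : ℝ) ≤ 2 * n := by exact_mod_cast (hSv v hv).2.1
    rw [div_pow, Real.sq_sqrt (by linarith), div_mul_eq_mul_div, div_le_iff₀ (by linarith)]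
    have := mul_le_mul_of_nonneg_left h1 (sq_nonneg (M' * σ ^ 2))
    linarith
  obtain ⟨m, hm, hm2⟩ := FINAL2.trials (pow_pos p.q_pos' (K + 1))
    (pow_le_one₀ p.q_pos'.le p.q_le_one)
  have hq : (p.q ^ (K + 1))⁻¹ = Real.exp (((K + 1 : ℕ) : ℝ) * L) := by
    rw [hLq, mul_neg, Real.exp_neg, Real.exp_nat_mul, Real.exp_log p.q_pos']
  rw [hq] at hm2
  have hsz := FINAL2.size (Nat.cast_nonneg _) L0 h hc hK hm2 (show _ ≤ c by linarith) hn.le
  refine core hF hS p d M σ a₁ a (2 * M' ^ 2 * σ ^ 4) _ g c1 c0 z K m n z0 hK₁.le k0 kn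
    (by exact_mod_cast n1') hM ?_ S (fun v hv => ⟨(hSv v hv).1, (hSv v hv).2.1, hgk v hv⟩) hcard
    hH le_rfl hLow ?_ hm ?_
  · have h2 := mul_le_mul_of_nonneg_right (show B ≤ c by linarith) (zero_le_one.trans s4)
    have : ((K + 1 : ℕ) : ℝ) ≤ n := by linarith
    exact_mod_cast this
  · rw [div_le_iff₀ hδ] at t1
    have h2 := mul_le_mul_of_nonneg_left s1 c1
    have h3 := le_mul_of_one_le_right hb.le s4
    rw [hA] at t1
    linarith [p.hi_le, p.lo_lt_hi]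
  · have e : p.cS σ = (p.c1 / 2) ^ 2 / (400 * σ ^ 2) := by
      unfold Sys.cS
      field_simp
      ring
    rw [e]
    refine le_trans ?_ hsz
    push_cast
    gcongr
    linarith

end Pool.Agent.Lib.V5
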