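import Pool.Agent.Lib.V5.Base

/-! Row OUT5: back to the definitions of the hand-in, general laws. -/

namespace Pool.Agent.Lib.V5

open MeasureTheory ProbabilityTheory Filter Topology SimpleGraph Pool.Agent.Lib.V3
open Pool.Agent.Lib.MP_eba68f_pr (lattice passage)
open scoped NNReal ENNReal

namespace OUT5

lemma ident (p : Par) (z : V) :
    IdentDistrib (fun τ => passage τ 0 z) (fun τ => T τ 0 z)
      (Measure.infinitePi fun _ : (lattice 3).edgeSet => p.F) p.P := by
  have hm : Measurable fun τ : (lattice 3).edgeSet → ℝ≥0 => passage τ 0 z := by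
    refine Measurable.iInf fun q => ?_
    induction q.darts with
    | nil => simp
    | cons a l ih =>
      simp only [List.map_cons, List.sum_cons]
      exact ((measurable_pi_apply
        (⟨a.edge, a.edge_mem⟩ : (lattice 3).edgeSet)).coe_nnreal_real).add ih
  have h1 := Measure.map_infinitePi_infinitePi_of_inj (P := fun _ : Sym2 V => p.F)
    (f := fun e : (lattice 3).edgeSet => (e : Sym2 V)) Subtype.val_injective
  refine ⟨hm.aemeasurable, (T_meas 0 z).aemeasurable, ?_⟩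
  rw [← h1, Measure.map_map hm (by fun_prop)]
  refine Measure.map_congr (ae_of_all _ fun τ => ?_)
  show passage (fun e : (lattice 3).edgeSet => τ e) 0 z = T τ 0 z
  unfold passage T SW
  simp only [Walk.edges, List.map_map]
  rfl

/-- a level above the bottom of the support that carries little mass -/
lemma level (F : Measure ℝ≥0) [IsProbabilityMeasure F] (r b : ℝ≥0) (hF : F (Set.Iio r) = 0)
    (hrb : r < b) (c : ℝ≥0∞) (hc : F {r} < c) : ∃ a : ℝ≥0, r < a ∧ a ≤ b ∧ F (Set.Iic a) < c := by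
  have h2 : F (Set.Iic r) ≤ F {r} := by
    rw [← Set.Iio_union_right]
    refine (measure_union_le _ _).trans ?_
    rw [hF, zero_add]
  have h3 := tendsto_measure_biInter_gt (μ := F) (s := fun a : ℝ≥0 => Set.Iic a) (a := r)
    (fun a _ => measurableSet_Iic.nullMeasurableSet) (fun i j _ h => Set.Iic_subset_Iic.2 h)
    ⟨b, hrb, measure_ne_top _ _⟩
  have h4 : (⋂ a > r, Set.Iic a) = Set.Iic r := by
    ext t
    simp only [Set.mem_iInter, Set.mem_Iic]
    exact ⟨fun h => le_of_forall_gt_imp_ge_of_dense h, fun h a ha => h.trans ha.le⟩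
  rw [h4] at h3
  have h6 : ∀ᶠ a in 𝓝[>] r, r < a := self_mem_nhdsWithin
  have h7 : ∀ᶠ a in 𝓝[>] r, a ≤ b := mem_nhdsWithin_of_mem_nhds (Iic_mem_nhds hrb)
  have : (𝓝[>] r).NeBot := nhdsGT_neBot_of_exists_gt ⟨b, hrb⟩
  obtain ⟨a, ha, hb, hc⟩ := ((h3.eventually (gt_mem_nhds (h2.trans_lt hc))).and (h6.and h7)).exists
  exact ⟨a, hb, hc, ha⟩

lemma DD_anti {c c' b : ℝ} (hc : 0 < c) (h : c ≤ c') (hb : 0 ≤ b) : DD c' b ≤ DD c b := by
  have : 0 < c' := hc.trans_le h
  unfold DD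
  gcongr

lemma Light_mono (a : ℝ≥0) {l l' : ℝ} (h : l ≤ l') (m : ℝ) : Light a l m ⊆ Light a l' m :=
  fun _ ⟨v, q, hq, hs⟩ => ⟨v, q, hq.trans h, hs⟩

/-- the parent structure for two given levels -/
noncomputable def par (F : Measure ℝ≥0) [IsProbabilityMeasure F] (lo hi : ℝ≥0) (b : ℝ)
    (h0 : 0 < lo) (h1 : lo < hi) (h2 : (hi : ℝ) ≤ b) (h3 : 0 < F (Set.Iic lo)) : Par where
  F := F
  prob := inferInstance
  r := lo
  b := b
  lo := lo
  hi := hi
  σ := 1
  r_pos := h0
  r_le_lo := le_rfl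
  lo_lt := by have : (lo : ℝ) < hi := h1
              linarith
  hi_le := h2
  q_pos := ENNReal.toReal_pos h3.ne' (measure_ne_top _ _)
  one_le := le_rfl

end OUT5

open OUT5 in
theorem bFIN5 (hP : St_PC) (hK : St_KP) (hE : St_PRE) (hR : St_RATE5) : St_FIN5 := by
  intro a m ha
  obtain ⟨L, hL⟩ := hK
  obtain ⟨p₀, hp, H⟩ := hP (DD (a / 8) m)
  refine ⟨min (1 / 1000) (ENNReal.ofReal p₀), lt_min (by norm_num) (ENNReal.ofReal_pos.2 hp),
    fun F _ r h2 hm hFa hFr hs h0 => ?_⟩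
  obtain ⟨a', ra, aa, ha'⟩ : ∃ a' : ℝ≥0, r < a' ∧ (a : ℝ) / 2 ≤ a' ∧ F (Set.Iic a') ≤ 1 / 1000 := by
    rcases lt_or_ge r a with h | h
    · have h' : (r : ℝ) < a := h
      refine ⟨(r + a) / 2, ?_, ?_, (measure_mono fun t ht => ?_).trans hFa⟩
      · rw [← NNReal.coe_lt_coe]; push_cast; linarith
      · push_cast; linarith [r.coe_nonneg]
      · refine lt_of_le_of_lt (Set.mem_Iic.1 ht) ?_
        rw [← NNReal.coe_lt_coe]; push_cast; linarith
    · obtain ⟨a', h1, -, h3⟩ := level F r (r + 1) hFr (lt_add_one r) _ (h0.trans_le (min_le_left _ _))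
      have h4 : (a : ℝ) ≤ a' := h.trans h1.le
      exact ⟨a', h1, by linarith [a.coe_nonneg], h3.le⟩
  have ra' : (r : ℝ) < a' := ra
  have r0 := r.coe_nonneg
  have a0 : (0 : ℝ) < a := ha
  have hc : r < (3 * r + a') / 4 := by rw [← NNReal.coe_lt_coe]; push_cast; linarith
  obtain ⟨hi, rh, hc', hh⟩ := level F r _ hFr hc _ h0
  have rh' : (r : ℝ) < hi := rh
  have hc'' : (hi : ℝ) ≤ r + (a' - r : ℝ) / 4 := by
    have : (hi : ℝ) ≤ ((3 * r + a') / 4 : ℝ≥0) := hc'
    push_cast at this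
    linarith
  have l1 : r < (r + hi) / 2 := by rw [← NNReal.coe_lt_coe]; push_cast; linarith
  have l2 : (r + hi) / 2 < hi := by rw [← NNReal.coe_lt_coe]; push_cast; linarith
  have l0 : 0 < (r + hi) / 2 := lt_of_le_of_lt bot_le l1
  have hq : F.real (Set.Iic a') ≤ 1 / 1000 :=
    ENNReal.toReal_le_of_le_ofReal (by norm_num) (ha'.trans_eq (by
      rw [ENNReal.ofReal_div_of_pos (by norm_num)]; simp))
  obtain ⟨k1, k2⟩ := hE (par F _ hi hi l0 l2 le_rfl (hs _ l1)) r a' L h2 hFr ra (hL _ a' hq)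
  have cm : r + (a' - r : ℝ) / 4 ≤ m := by
    have e1 := k2 e0
    have e2 := integral_mono (T_int (par F _ hi hi l0 l2 le_rfl (hs _ l1)) h2 0 e0)
      ((SW_memLp (par F _ hi hi l0 l2 le_rfl (hs _ l1)) h2 [ed 0]).integrable one_le_two)
      fun τ => by simpa using T_ed τ 0
    rw [int_SW _ h2] at e2
    rw [n1_e0, mul_one] at e1
    have e3 : ((([ed 0] : List (Sym2 V)).length : ℕ) : ℝ) = 1 := by simp
    rw [e3, one_mul] at e2
    exact e1.trans (e2.trans hm)
  let p : Sys :=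
    { par F _ hi m l0 l2 (hc''.trans cm) (hs _ l1) with
      c := r + (a' - r : ℝ) / 4
      L := L
      mem2 := h2
      mean := hm
      hi_le_c := hc''
      c_le := cm
      kes := k1
      hl := k2
      rare := fun n hn => by
        refine le_trans (Par.pr_mono _ (Light_mono _ (mul_le_mul_of_nonneg_right
          (DD_anti (c := a / 8) (by linarith) (by linarith) m.coe_nonneg) (Nat.cast_nonneg _)) _))
          (H (par F _ hi m l0 l2 (hc''.trans cm) (hs _ l1)) ?_ n hn)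
        exact ENNReal.toReal_le_of_le_ofReal hp.le (hh.le.trans (min_le_right _ _)) }
  obtain ⟨c, c0, h⟩ := hR p
  refine ⟨c, c0, h.mono fun N ⟨v, h1, h3⟩ => ⟨v, fun i => ?_, ?_⟩⟩
  · have : |(v i : ℝ)| ≤ N := by
      unfold n1 at h1
      have b0 := abs_nonneg (v 0 : ℝ)
      have b1 := abs_nonneg (v 1 : ℝ)
      have b2 := abs_nonneg (v 2 : ℝ)
      fin_cases i
      · show |(v 0 : ℝ)| ≤ N; linarith
      · show |(v 1 : ℝ)| ≤ N; linarith
      · show |(v 2 : ℝ)| ≤ N; linarith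
    exact_mod_cast this
  · have e := (ident p.toPar v).evariance_eq
    refine le_trans ?_ e.ge
    rw [← ofReal_variance (p.T_memLp 0 v)]
    exact ENNReal.ofReal_le_ofReal h3

end Pool.Agent.Lib.V5
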