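import Pool.Agent.Lib.V5.Base

/-! Block GEO5: a supporting functional with a curvature bound on a finite range. -/

namespace Pool.Agent.Lib.V5

open Pool.Agent.Lib.V3

namespace GEO5

lemma sq_le_mul {ε R r s : ℝ} (hε : 0 ≤ ε) (hεR : ε * R ≤ r / 4) (hs : |s| ≤ R) :
    ε * s ^ 2 ≤ r / 4 * |s| := by
  have h1 : s ^ 2 ≤ R * |s| := by
    rw [← sq_abs, sq]
    exact mul_le_mul_of_nonneg_right hs (abs_nonneg _)
  calc ε * s ^ 2 ≤ ε * (R * |s|) := mul_le_mul_of_nonneg_left h1 hε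
    _ = ε * R * |s| := by ring
    _ ≤ r / 4 * |s| := mul_le_mul_of_nonneg_right hεR (abs_nonneg _)

lemma fin_cone (R : ℝ) (hR : 0 ≤ R) (M : ℕ) :
    {z : V | 0 < z 0 ∧ z 0 ≤ M ∧ |(z 1 : ℝ)| ≤ R * z 0 ∧ |(z 2 : ℝ)| ≤ R * z 0}.Finite := by
  obtain ⟨B, hB⟩ := exists_nat_ge ((R + 1) * M)
  have hM : (0 : ℝ) ≤ M := Nat.cast_nonneg M
  have hRM : 0 ≤ R * M := mul_nonneg hR hM
  refine (Set.finite_Icc (fun _ : Fin 3 => -(B : ℤ)) (fun _ => (B : ℤ))).subset ?_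
  rintro z ⟨h0, h1, h2, h3⟩
  have a0 : (0 : ℝ) < z 0 := by exact_mod_cast h0
  have a1 : (z 0 : ℝ) ≤ M := by exact_mod_cast h1
  have a2 := mul_le_mul_of_nonneg_left a1 hR
  have b0 : |(z 0 : ℝ)| ≤ B := by rw [abs_of_pos a0]; linarith
  have b1 : |(z 1 : ℝ)| ≤ B := by linarith
  have b2 : |(z 2 : ℝ)| ≤ B := by linarith
  have c0 : |z 0| ≤ (B : ℤ) := by exact_mod_cast b0
  have c1 : |z 1| ≤ (B : ℤ) := by exact_mod_cast b1
  have c2 : |z 2| ≤ (B : ℤ) := by exact_mod_cast b2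
  have key : ∀ i : Fin 3, |z i| ≤ (B : ℤ) := fun i => by
    fin_cases i
    · exact c0
    · exact c1
    · exact c2
  exact ⟨fun i => (abs_le.1 (key i)).1, fun i => (abs_le.1 (key i)).2⟩

lemma exists_mult (m : ℤ) (M : ℕ) (h0 : 0 < m) (h1 : m ≤ M) :
    ∃ k : ℕ, (M : ℤ) < 2 * (k * m) ∧ k * m ≤ M := by
  obtain ⟨n, rfl⟩ := Int.eq_ofNat_of_zero_le h0.le
  have a0 : 0 < n := by exact_mod_cast h0
  have a1 : n ≤ M := by exact_mod_cast h1
  have a2 : 1 ≤ M / n := (Nat.one_le_div_iff a0).2 a1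
  have a3 : M / n * n ≤ M := Nat.div_mul_le_self M n
  have a4 : M < M / n * n + n := Nat.lt_div_mul_add a0
  have a5 : n ≤ M / n * n := Nat.le_mul_of_pos_left n a2
  refine ⟨M / n, ?_, ?_⟩
  · have : M < 2 * (M / n * n) := by omega
    exact_mod_cast this
  · exact_mod_cast a3

end GEO5

theorem bGEO5 : St_GEO5 := by
  intro p M hM
  have hr := p.hi_pos
  have hc := p.c_pos
  have hrc := p.hi_le_c
  have hb := p.b_pos
  have hR := p.R_pos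
  have hcR : 4 * (2 * p.b + 1) ≤ p.c * p.R := by
    have a1 : p.c * (4 / p.c * (2 * p.b + 1)) = 4 * (2 * p.b + 1) := by field_simp
    have a2 : 0 ≤ p.c * (2 * p.D) := mul_nonneg hc.le (by linarith [p.D_pos])
    unfold Sys.R
    rw [mul_add p.c, a1]
    linarith
  obtain ⟨ε, hεe, hε0, hεR⟩ : ∃ ε : ℝ, ε = p.eps ∧ 0 < ε ∧ ε * p.R ≤ p.hi / 4 := by
    refine ⟨p.eps, rfl, p.eps_pos, ?_⟩
    calc p.eps * p.R ≤ p.hi / (4 * p.R) * p.R :=
          mul_le_mul_of_nonneg_right (min_le_right _ _) hR.le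
      _ = p.hi / 4 := by field_simp
  set K : Set V :=
    {z | 0 < z 0 ∧ z 0 ≤ M ∧ |(z 1 : ℝ)| ≤ p.R * z 0 ∧ |(z 2 : ℝ)| ≤ p.R * z 0} with hK
  set s1 : V → ℝ := fun z => (z 1 : ℝ) / z 0 with hs1
  set s2 : V → ℝ := fun z => (z 2 : ℝ) / z 0 with hs2
  set φ : V → ℝ := fun z => p.h z / z 0 - ε * (s1 z ^ 2 + s2 z ^ 2) with hφ
  have hpos : ∀ z ∈ K, (0 : ℝ) < z 0 := fun z hz => by exact_mod_cast hz.1
  have h1 : ∀ z ∈ K, |s1 z| ≤ p.R := fun z hz => by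
    simp only [hs1]
    rw [abs_div, abs_of_pos (hpos z hz), div_le_iff₀ (hpos z hz)]
    exact hz.2.2.1
  have h2 : ∀ z ∈ K, |s2 z| ≤ p.R := fun z hz => by
    simp only [hs2]
    rw [abs_div, abs_of_pos (hpos z hz), div_le_iff₀ (hpos z hz)]
    exact hz.2.2.2
  have hlow : ∀ z ∈ K, p.c * (1 + |s1 z| + |s2 z|) ≤ φ z + ε * (s1 z ^ 2 + s2 z ^ 2) :=
    fun z hz => by
      have hz0 := hpos z hz
      have a3 : p.c * (1 + |s1 z| + |s2 z|) ≤ p.h z / z 0 := by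
        rw [le_div_iff₀ hz0]
        refine le_trans (le_of_eq ?_) (p.h_ge z)
        simp only [hs1, hs2, n1, abs_div, abs_of_pos hz0]
        field_simp
      simp only [hφ]
      linarith
  have he00 : e0 0 = 1 := by simp
  have he0 : e0 ∈ K := by
    refine ⟨by simp, by rw [he00]; exact_mod_cast hM, ?_, ?_⟩ <;> simp [hR.le]
  obtain ⟨y, hy, hI⟩ := Set.exists_min_image K φ (GEO5.fin_cone p.R hR.le M) ⟨e0, he0⟩
  have hθ1 := h1 y hy
  have hθ2 := h2 y hy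
  have hy4 := hlow y hy
  obtain ⟨I, hIe⟩ : ∃ I, I = φ y := ⟨_, rfl⟩
  obtain ⟨θ1, hθ1e⟩ : ∃ θ, θ = s1 y := ⟨_, rfl⟩
  obtain ⟨θ2, hθ2e⟩ : ∃ θ, θ = s2 y := ⟨_, rfl⟩
  rw [← hIe] at hI hy4
  rw [← hθ1e] at hθ1 hy4
  rw [← hθ2e] at hθ2 hy4
  set d : Dat := ⟨I - ε * (θ1 ^ 2 + θ2 ^ 2), 2 * ε * θ1, 2 * ε * θ2, θ1, θ2, ε⟩ with hd
  have hid : ∀ z ∈ K, p.g d z =
      z 0 * (φ z - I + ε * ((s1 z - θ1) ^ 2 + (s2 z - θ2) ^ 2)) := fun z hz => by
    have hz0 := (hpos z hz).ne'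
    simp only [Sys.g, Dat.ρ, hd, hφ, hs1, hs2]
    field_simp
    ring
  have heta : ∀ z ∈ K, d.eta z = (z 0 : ℝ) ^ 2 * ((s1 z - θ1) ^ 2 + (s2 z - θ2) ^ 2) :=
    fun z hz => by
      have hz0 := (hpos z hz).ne'
      simp only [Dat.eta, hd, hs1, hs2]
      field_simp
  have hl : ∀ θ : ℝ, |θ| ≤ p.R → |2 * ε * θ| ≤ p.hi / 2 := fun θ hθ => by
    rw [abs_mul, abs_of_pos (by positivity : (0 : ℝ) < 2 * ε)]
    have := mul_le_mul_of_nonneg_left hθ hε0.le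
    linarith
  have hIb : I ≤ p.b := by
    have a1 := hI e0 he0
    have a2 := p.h_le e0
    simp [hφ, hs1, hs2] at a1 a2
    linarith
  have hρb : I - ε * (θ1 ^ 2 + θ2 ^ 2) ≤ p.b := by
    have : 0 ≤ ε * (θ1 ^ 2 + θ2 ^ 2) := by positivity
    linarith
  have hρ0 : 0 ≤ I - ε * (θ1 ^ 2 + θ2 ^ 2) := by
    have a5 := GEO5.sq_le_mul hε0.le hεR hθ1
    have a6 := GEO5.sq_le_mul hε0.le hεR hθ2
    have a7 := mul_le_mul_of_nonneg_right hrc (add_nonneg (abs_nonneg θ1) (abs_nonneg θ2))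
    have a8 : 0 ≤ p.c * (|θ1| + |θ2|) := by positivity
    linarith
  have hG2 : ∀ z ∈ K, ε * d.eta z ≤ z 0 * p.g d z := fun z hz => by
    rw [hid z hz, heta z hz]
    have a1 : 0 ≤ (z 0 : ℝ) ^ 2 * (φ z - I) := mul_nonneg (sq_nonneg _) (sub_nonneg.2 (hI z hz))
    linarith
  refine ⟨d, hρ0, hρb, hl θ1 hθ1, hl θ2 hθ2, hεe, hθ1, hθ2, fun z hz hzM => ?_,
    fun z a b c e => hG2 z ⟨a, b, c, e⟩, ?_, ?_⟩
  · by_cases hzK : z ∈ K
    · have a1 := hG2 z hzK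
      have a2 : 0 ≤ ε * d.eta z := mul_nonneg hε0.le (d.eta_nonneg z)
      exact nonneg_of_mul_nonneg_right (a2.trans a1) (hpos z hzK)
    · have hz0 : (0 : ℝ) ≤ z 0 := by exact_mod_cast hz
      have a0 : p.R * z 0 ≤ |(z 1 : ℝ)| + |(z 2 : ℝ)| := by
        by_contra hcon
        have hcon' := not_le.1 hcon
        refine hzK ⟨?_, hzM, by linarith [abs_nonneg (z 2 : ℝ)],
          by linarith [abs_nonneg (z 1 : ℝ)]⟩
        rcases hz.eq_or_lt with h | h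
        · rw [← h] at hcon'
          simp only [Int.cast_zero, mul_zero] at hcon'
          linarith [abs_nonneg (z 1 : ℝ), abs_nonneg (z 2 : ℝ)]
        · exact h
      have a1 := p.h_ge z
      have a2 : 2 * ε * θ1 * z 1 ≤ p.hi / 2 * |(z 1 : ℝ)| :=
        (le_abs_self _).trans (by
          rw [abs_mul]; exact mul_le_mul_of_nonneg_right (hl θ1 hθ1) (abs_nonneg _))
      have a3 : 2 * ε * θ2 * z 2 ≤ p.hi / 2 * |(z 2 : ℝ)| :=
        (le_abs_self _).trans (by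
          rw [abs_mul]; exact mul_le_mul_of_nonneg_right (hl θ2 hθ2) (abs_nonneg _))
      have a4 := mul_le_mul_of_nonneg_right hρb hz0
      have a5 := mul_le_mul_of_nonneg_left a0 hc.le
      have a6 := mul_le_mul_of_nonneg_right hcR hz0
      have a7 : 0 ≤ p.b * z 0 := mul_nonneg hb.le hz0
      have a8 : 0 ≤ p.c * |(z 0 : ℝ)| := by positivity
      have a9 := mul_le_mul_of_nonneg_right hrc
        (add_nonneg (abs_nonneg (z 1 : ℝ)) (abs_nonneg (z 2 : ℝ)))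
      simp only [Sys.g, Dat.ρ, hd]
      simp only [n1] at a1
      linarith
  · obtain ⟨k, hk1, hk2⟩ := GEO5.exists_mult (y 0) M hy.1 hy.2.1
    have a0 : (k • y) 0 = k * y 0 := by simp only [Pi.smul_apply, nsmul_eq_mul]
    have a1 : p.g d y = 0 := by
      rw [hid y hy, ← hIe, ← hθ1e, ← hθ2e]
      ring
    refine ⟨k • y, by rw [a0]; exact hk1, by rw [a0]; exact hk2, ?_⟩
    have a2 := Sys.g_nsmul (p := p) d k y
    rw [a1, mul_zero] at a2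
    exact a2
  · simp only [hd]
    linarith

end Pool.Agent.Lib.V5
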