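import Pool.Agent.Lib.V5.Base

/-! Long paths are slow with high probability, and the mean passage time is at least linear. -/

namespace Pool.Agent.Lib.V5

open MeasureTheory ProbabilityTheory Filter Topology Pool.Agent.Lib.V3
open scoped NNReal ENNReal

namespace PRE

/-- almost surely all weights are at least `r` -/
lemma ae_ge (p : Par) {r : ℝ≥0} (h : p.F (Set.Iio r) = 0) : ∀ᵐ τ ∂p.P, ∀ e, r ≤ τ e := by
  refine ae_all_iff.2 fun e => ?_
  have := (measurePreserving_eval_infinitePi (fun _ : Sym2 V => p.F) e).measure_preimage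
    (s := Set.Iio r) measurableSet_Iio.nullMeasurableSet
  rw [h] at this
  refine measure_mono_null (fun τ hτ => ?_) this
  exact not_le.1 (show ¬r ≤ τ e from hτ)

lemma SW_ge {τ : Cfg} {r a : ℝ≥0} (h : ∀ e, r ≤ τ e) (l : List (Sym2 V)) :
    (a : ℝ) * l.length - (a - r : ℝ) * (l.filter fun e => decide (τ e ≤ a)).length ≤ SW τ l := by
  induction l with
  | nil => simp
  | cons e l ih =>
    have h1 : (r : ℝ) ≤ τ e := h e
    rw [SW_cons, List.length_cons]
    by_cases he : τ e ≤ a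
    · rw [List.filter_cons_of_pos (by simpa using he), List.length_cons]
      push_cast
      linarith
    · have h2 : (a : ℝ) ≤ τ e := (not_le.1 he).le
      rw [List.filter_cons_of_neg (by simpa using he)]
      push_cast
      linarith

lemma many_of_kes {τ : Cfg} {r a : ℝ≥0} (hra : r < a) (h : ∀ e, r ≤ τ e) {L : ℕ}
    (hK : τ ∈ Kes (r + (a - r : ℝ) / 2) L) : τ ∈ Many a L := by
  obtain ⟨v, q, hq, hL, hs⟩ := hK
  have hn : (q.edges.filter fun e => decide (τ e ≤ a)).Nodup := hq.isTrail.edges_nodup.filter _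
  refine ⟨v, q, hq, hL, (q.edges.filter fun e => decide (τ e ≤ a)).toFinset, fun e he => ?_, ?_⟩
  · simpa using he
  · rw [List.toFinset_card_of_nodup hn]
    have h1 := SW_ge (a := a) h q.edges
    rw [SimpleGraph.Walk.length_edges] at h1
    have h2 : (0 : ℝ) < a - r := sub_pos.2 hra
    by_contra h3
    nlinarith [mul_lt_mul_of_pos_left (not_le.1 h3) h2]

lemma kes_le (p : Par) {r a : ℝ≥0} {L : ℕ} (h : p.F (Set.Iio r) = 0) (hra : r < a)
    (hM : p.pr (Many a L) ≤ 1 / 100) : p.pr (Kes (r + (a - r : ℝ) / 2) L) ≤ 1 / 100 := by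
  refine le_trans (ENNReal.toReal_mono (measure_ne_top _ _) (measure_mono_ae ?_)) hM
  filter_upwards [ae_ge p h] with τ hτ hK
  exact many_of_kes hra hτ hK

lemma kes_mono {c c' : ℝ} (h : c ≤ c') (L : ℕ) : Kes c L ⊆ Kes c' L := by
  rintro τ ⟨v, q, hq, hL, hs⟩
  exact ⟨v, q, hq, hL, hs.trans_le (mul_le_mul_of_nonneg_right h (Nat.cast_nonneg _))⟩

lemma far (p : Par) {r a : ℝ≥0} {L : ℕ} (h2 : MemLp (fun t : ℝ≥0 => (t : ℝ)) 2 p.F)
    (h : p.F (Set.Iio r) = 0) (hra : r < a) (hM : p.pr (Many a L) ≤ 1 / 100) {v : V}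
    (hv : (L : ℝ) ≤ n1 v) : (r + (a - r : ℝ) / 4) * n1 v ≤ ∫ τ, T τ 0 v ∂p.P := by
  have d0 : (0 : ℝ) < a - r := sub_pos.2 hra
  have n0 := n1_nonneg v
  have r0 : (0 : ℝ) ≤ r := r.coe_nonneg
  have hi : Integrable (fun τ => T τ 0 v - r * n1 v) p.P :=
    (T_int p h2 0 v).sub (integrable_const _)
  have h0 : 0 ≤ᵐ[p.P] fun τ => T τ 0 v - r * n1 v := by
    filter_upwards [ae_ge p h] with τ hτ
    refine sub_nonneg.2 (le_T fun q => ?_)
    have h1 := n1_le_length q
    rw [sub_zero] at h1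
    have h3 := mul_le_SW (τ := τ) (l := q.edges) (c := r) fun e _ => hτ e
    rw [SimpleGraph.Walk.length_edges] at h3
    exact (mul_le_mul_of_nonneg_left h1 r0).trans h3
  have h4 := mul_meas_ge_le_integral_of_nonneg h0 hi ((a - r : ℝ) / 2 * n1 v)
  rw [integral_sub (T_int p h2 0 v) (integrable_const _), integral_const, probReal_univ,
    one_smul] at h4
  have h5 := p.one_le_pr_add (Kes (r + (a - r : ℝ) / 2) L)
  have h6 : p.pr (Kes (r + (a - r : ℝ) / 2) L)ᶜ ≤
      p.pr {τ | (a - r : ℝ) / 2 * n1 v ≤ T τ 0 v - r * n1 v} := p.pr_mono fun τ hτ => by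
    have := T_ge_of_notKes (by positivity) hτ hv
    show (a - r : ℝ) / 2 * n1 v ≤ T τ 0 v - r * n1 v
    linarith
  have h7 := kes_le p h hra hM
  have h8 : (1 / 2 : ℝ) ≤ p.P.real {τ | (a - r : ℝ) / 2 * n1 v ≤ T τ 0 v - r * n1 v} := by
    have : p.pr {τ | (a - r : ℝ) / 2 * n1 v ≤ T τ 0 v - r * n1 v} =
      p.P.real {τ | (a - r : ℝ) / 2 * n1 v ≤ T τ 0 v - r * n1 v} := rfl
    linarith
  have h9 := mul_le_mul_of_nonneg_left h8 (show 0 ≤ (a - r : ℝ) / 2 * n1 v by positivity)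
  linarith

end PRE

theorem bPRE : St_PRE := by
  intro p r a L h2 h hra hM
  have d0 : (0 : ℝ) < a - r := sub_pos.2 hra
  refine ⟨(p.pr_mono (PRE.kes_mono (by linarith) L)).trans (PRE.kes_le p h hra hM), fun v => ?_⟩
  rcases Nat.eq_zero_or_pos ((v 0).natAbs + (v 1).natAbs + (v 2).natAbs) with h0 | h0
  · rw [n1_nat, h0, Nat.cast_zero, mul_zero]
    exact integral_nonneg fun τ => T_nonneg τ 0 v
  · have h1 : 1 ≤ n1 v := by
      rw [n1_nat]
      exact_mod_cast h0
    have k0 : (0 : ℝ) < (L + 1 : ℕ) := Nat.cast_pos.2 L.succ_pos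
    have h3 := PRE.far p h2 h hra hM (v := (L + 1) • v) (by
      rw [n1_nsmul]
      have : (L : ℝ) ≤ (L + 1 : ℕ) := Nat.cast_le.2 L.le_succ
      nlinarith)
    have h4 := h3.trans (int_T_nsmul p h2 (L + 1) v)
    rw [n1_nsmul, mul_left_comm] at h4
    exact le_of_mul_le_mul_left h4 k0

end Pool.Agent.Lib.V5
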