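import Pool.Agent.Lib.V5.Blue

/-! Basic kit for general weight laws. -/

namespace Pool.Agent.Lib.V5

open MeasureTheory ProbabilityTheory Filter Topology Function Finset SimpleGraph Pool.Agent.Lib.V3
open scoped NNReal ENNReal

/-! ### weights of lists of edges -/

@[simp] lemma SW_nil (τ : Cfg) : SW τ [] = 0 := rfl
@[simp] lemma SW_cons (τ : Cfg) (e : Sym2 V) (l : List (Sym2 V)) :
    SW τ (e :: l) = τ e + SW τ l := by simp [SW]
lemma SW_append (τ : Cfg) (l l' : List (Sym2 V)) : SW τ (l ++ l') = SW τ l + SW τ l' := by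
  simp [SW]
lemma SW_reverse (τ : Cfg) (l : List (Sym2 V)) : SW τ l.reverse = SW τ l := by
  simp only [SW, List.map_reverse, List.sum_reverse]
lemma SW_map (τ : Cfg) (f : Sym2 V → Sym2 V) (l : List (Sym2 V)) :
    SW τ (l.map f) = SW (fun e => τ (f e)) l := by
  simp only [SW, List.map_map]; rfl
lemma SW_nonneg (τ : Cfg) (l : List (Sym2 V)) : 0 ≤ SW τ l := by
  induction l with
  | nil => simp
  | cons e l ih => rw [SW_cons]; positivity
lemma SW_sublist (τ : Cfg) {l l' : List (Sym2 V)} (h : l.Sublist l') : SW τ l ≤ SW τ l' := by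
  induction h with
  | slnil => simp
  | cons a _ ih => simp only [SW_cons]; linarith [(τ a).coe_nonneg]
  | cons_cons a _ ih => simp only [SW_cons]; linarith
lemma SW_le_SW {τ τ' : Cfg} {l : List (Sym2 V)} (h : ∀ e ∈ l, τ e ≤ τ' e) : SW τ l ≤ SW τ' l := by
  induction l with
  | nil => simp
  | cons a l ih =>
    simp only [SW_cons]
    exact add_le_add (NNReal.coe_le_coe.2 (h a List.mem_cons_self))
      (ih fun e he => h e (List.mem_cons_of_mem _ he))
lemma SW_congr {τ τ' : Cfg} {l : List (Sym2 V)} (h : ∀ e ∈ l, τ e = τ' e) : SW τ l = SW τ' l :=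
  le_antisymm (SW_le_SW fun e he => (h e he).le) (SW_le_SW fun e he => (h e he).ge)
lemma SW_le_mul {τ : Cfg} {l : List (Sym2 V)} {c : ℝ} (h : ∀ e ∈ l, (τ e : ℝ) ≤ c) :
    SW τ l ≤ c * l.length := by
  induction l with
  | nil => simp
  | cons a l ih =>
    have h1 := h a List.mem_cons_self
    have h2 := ih fun e he => h e (List.mem_cons_of_mem _ he)
    simp only [SW_cons, List.length_cons, Nat.cast_add, Nat.cast_one]
    linarith
lemma mul_le_SW {τ : Cfg} {l : List (Sym2 V)} {c : ℝ} (h : ∀ e ∈ l, c ≤ (τ e : ℝ)) :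
    c * l.length ≤ SW τ l := by
  induction l with
  | nil => simp
  | cons a l ih =>
    have h1 := h a List.mem_cons_self
    have h2 := ih fun e he => h e (List.mem_cons_of_mem _ he)
    simp only [SW_cons, List.length_cons, Nat.cast_add, Nat.cast_one]
    linarith
lemma meas_w (e : Sym2 V) : Measurable fun τ : Cfg => (τ e : ℝ) :=
  (measurable_pi_apply e).coe_nnreal_real
lemma meas_SW (l : List (Sym2 V)) : Measurable fun τ => SW τ l := by
  induction l with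
  | nil => simp
  | cons a l ih =>
    simp only [SW_cons]
    exact (meas_w a).add ih

/-! ### passage times along walks in `A` -/

lemma Conn.univ (u v : V) : Conn Set.univ u v := ⟨(exists_walk u v).choose, fun _ _ => trivial⟩
lemma conn_Lo {j : ℤ} {u v : V} (hu : u 0 ≤ j) (hv : v 0 ≤ j) : Conn (Lo j) u v := by
  obtain ⟨q, -, hb⟩ := exists_walk_box u v
  exact ⟨q, edges_mem_Lo q fun z hz => (hb z hz 0).2.trans (max_le hu hv)⟩
lemma conn_Up {j : ℤ} {u v : V} (hu : j ≤ u 0) (hv : j ≤ v 0) : Conn (Up j) u v := by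
  obtain ⟨q, -, hb⟩ := exists_walk_box u v
  exact ⟨q, edges_mem_Up q fun z hz => (le_min hu hv).trans (hb z hz 0).1⟩

lemma T_eq_TA (τ : Cfg) (u v : V) : T τ u v = TA Set.univ τ u v :=
  (Equiv.iInf_comp (g := fun q : G.Walk u v => SW τ q.edges)
    (Equiv.subtypeUnivEquiv fun _ _ _ => Set.mem_univ _)).symm

lemma TA_le_SW {A : Set (Sym2 V)} (τ : Cfg) {u v : V} (q : G.Walk u v)
    (h : ∀ e ∈ q.edges, e ∈ A) : TA A τ u v ≤ SW τ q.edges :=
  ciInf_le (f := fun q : {q : G.Walk u v // ∀ e ∈ q.edges, e ∈ A} => SW τ q.1.edges)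
    ⟨0, by rintro _ ⟨q, rfl⟩; exact SW_nonneg τ _⟩ ⟨q, h⟩
lemma TA_nonneg (A : Set (Sym2 V)) (τ : Cfg) (u v : V) : 0 ≤ TA A τ u v :=
  Real.iInf_nonneg fun _ => SW_nonneg τ _
lemma le_TA {A : Set (Sym2 V)} {u v : V} (hc : Conn A u v) {τ : Cfg} {c : ℝ}
    (h : ∀ q : G.Walk u v, (∀ e ∈ q.edges, e ∈ A) → c ≤ SW τ q.edges) : c ≤ TA A τ u v := by
  have : Nonempty {q : G.Walk u v // ∀ e ∈ q.edges, e ∈ A} := ⟨⟨hc.choose, hc.choose_spec⟩⟩
  exact le_ciInf fun q => h q.1 q.2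
/-- a nearly optimal path inside `A` -/
lemma exists_near_A {A : Set (Sym2 V)} {u v : V} (hc : Conn A u v) (τ : Cfg) {ε : ℝ}
    (hε : 0 < ε) : ∃ q : G.Walk u v, q.IsPath ∧ (∀ e ∈ q.edges, e ∈ A) ∧
      SW τ q.edges ≤ TA A τ u v + ε := by
  by_contra h
  have := le_TA hc (τ := τ) (c := TA A τ u v + ε) fun q hq => by
    by_contra h'
    exact h ⟨q.bypass, q.bypass_isPath, fun e he => hq e (q.edges_bypass_subset_edges he),
      (SW_sublist τ q.edges_bypass_sublist_edges).trans (not_le.1 h').le⟩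
  linarith
lemma TA_anti {A B : Set (Sym2 V)} (hAB : A ⊆ B) {u v : V} (hc : Conn A u v) (τ : Cfg) :
    TA B τ u v ≤ TA A τ u v := le_TA hc fun q hq => TA_le_SW τ q fun e he => hAB (hq e he)
lemma T_le_TA {A : Set (Sym2 V)} {u v : V} (hc : Conn A u v) (τ : Cfg) : T τ u v ≤ TA A τ u v :=
  T_eq_TA τ u v ▸ TA_anti (Set.subset_univ A) hc τ
lemma TA_tri {A : Set (Sym2 V)} {u v w : V} (h1 : Conn A u v) (h2 : Conn A v w) (τ : Cfg) :
    TA A τ u w ≤ TA A τ u v + TA A τ v w := by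
  have : TA A τ u w - TA A τ v w ≤ TA A τ u v := le_TA h1 fun q hq => by
    have : TA A τ u w - SW τ q.edges ≤ TA A τ v w := le_TA h2 fun q' hq' => by
      have := TA_le_SW (A := A) τ (q.append q') fun e he => by
        rw [Walk.edges_append, List.mem_append] at he
        exact he.elim (hq e) (hq' e)
      rw [Walk.edges_append, SW_append] at this
      linarith
    linarith
  linarith
/-- a walk in `A` followed by an optimal one -/
lemma TA_le_SW_add {A : Set (Sym2 V)} {u v w : V} (q : G.Walk u v) (hq : ∀ e ∈ q.edges, e ∈ A)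
    (h2 : Conn A v w) (τ : Cfg) : TA A τ u w ≤ SW τ q.edges + TA A τ v w := by
  linarith [TA_tri ⟨q, hq⟩ h2 τ, TA_le_SW τ q hq]
lemma Conn.symm {A : Set (Sym2 V)} {u v : V} (h : Conn A u v) : Conn A v u :=
  ⟨h.choose.reverse, fun e he => h.choose_spec e (by simpa using he)⟩
lemma TA_comm {A : Set (Sym2 V)} {u v : V} (hc : Conn A u v) (τ : Cfg) :
    TA A τ u v = TA A τ v u := by
  have key : ∀ {u v : V}, Conn A u v → TA A τ v u ≤ TA A τ u v := fun hc =>
    le_TA hc fun q hq => by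
      have := TA_le_SW (A := A) τ q.reverse fun e he => hq e (by simpa using he)
      rwa [Walk.edges_reverse, SW_reverse] at this
  exact le_antisymm (key hc.symm) (key hc)
lemma TA_congr {A : Set (Sym2 V)} {τ τ' : Cfg} (h : ∀ e ∈ A, τ e = τ' e) (u v : V) :
    TA A τ u v = TA A τ' u v :=
  iInf_congr fun q => SW_congr fun e he => h e (q.2 e he)
lemma TA_meas (A : Set (Sym2 V)) (u v : V) : Measurable fun τ => TA A τ u v :=
  Measurable.iInf fun _ => meas_SW _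
lemma A_meas (d : Dat) (j : ℤ) (y : V) : Measurable fun τ => A d j τ y :=
  (TA_meas _ _ _).sub_const _
lemma A_congr (d : Dat) {j : ℤ} {τ τ' : Cfg} (h : ∀ e ∈ Lo j, τ e = τ' e) (y : V) :
    A d j τ y = A d j τ' y := by unfold A; rw [TA_congr h]
lemma TA_map (φ : G →g G) {A B : Set (Sym2 V)} (hAB : ∀ e ∈ A, Sym2.map φ e ∈ B) {u v : V}
    (hc : Conn A u v) (τ : Cfg) :
    TA B τ (φ u) (φ v) ≤ TA A (fun e => τ (Sym2.map φ e)) u v :=
  le_TA hc fun q hq => by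
    have := TA_le_SW (A := B) τ (q.map φ) fun e he => by
      rw [Walk.edges_map, List.mem_map] at he
      obtain ⟨e, he, rfl⟩ := he
      exact hAB e (hq e he)
    rwa [Walk.edges_map, SW_map] at this

/-! ### passage times -/

lemma T_le_SW (τ : Cfg) {u v : V} (q : G.Walk u v) : T τ u v ≤ SW τ q.edges :=
  T_eq_TA τ u v ▸ TA_le_SW τ q fun _ _ => trivial
lemma T_nonneg (τ : Cfg) (u v : V) : 0 ≤ T τ u v := T_eq_TA τ u v ▸ TA_nonneg _ τ u v
lemma le_T {τ : Cfg} {u v : V} {c : ℝ} (h : ∀ q : G.Walk u v, c ≤ SW τ q.edges) : c ≤ T τ u v :=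
  le_ciInf h
/-- a nearly optimal path -/
lemma exists_near (τ : Cfg) (u v : V) {ε : ℝ} (hε : 0 < ε) :
    ∃ q : G.Walk u v, q.IsPath ∧ SW τ q.edges ≤ T τ u v + ε := by
  obtain ⟨q, h1, -, h2⟩ := exists_near_A (Conn.univ u v) τ hε
  exact ⟨q, h1, T_eq_TA τ u v ▸ h2⟩
lemma T_self (τ : Cfg) (u : V) : T τ u u = 0 :=
  le_antisymm (by simpa using T_le_SW τ (Walk.nil : G.Walk u u)) (T_nonneg τ u u)
lemma T_tri (τ : Cfg) (u v w : V) : T τ u w ≤ T τ u v + T τ v w := by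
  simpa only [T_eq_TA] using TA_tri (Conn.univ u v) (Conn.univ v w) τ
lemma T_comm (τ : Cfg) (u v : V) : T τ u v = T τ v u := by
  simpa only [T_eq_TA] using TA_comm (Conn.univ u v) τ
lemma T_mono {τ τ' : Cfg} (h : ∀ e, τ e ≤ τ' e) (u v : V) : T τ u v ≤ T τ' u v :=
  le_T fun q => (T_le_SW τ q).trans (SW_le_SW fun e _ => h e)
lemma T_adj (τ : Cfg) {u v : V} (h : G.Adj u v) : T τ u v ≤ τ s(u, v) := by
  simpa using T_le_SW τ (Walk.cons h Walk.nil)
lemma T_ed (τ : Cfg) (y : V) : T τ y (y + e0) ≤ τ (ed y) := T_adj τ (adj_e0 y)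
lemma T_meas (u v : V) : Measurable fun τ => T τ u v := Measurable.iInf fun _ => meas_SW _

lemma T_map (φ : G →g G) (τ : Cfg) (u v : V) :
    T τ (φ u) (φ v) ≤ T (fun e => τ (Sym2.map φ e)) u v := by
  simpa only [T_eq_TA] using TA_map φ (B := Set.univ) (fun _ _ => trivial) (Conn.univ u v) τ
lemma T_sh (a : V) (τ : Cfg) (u v : V) : T (sh a τ) u v = T τ (u + a) (v + a) := by
  have key : ∀ (a : V) (τ : Cfg) (u v : V), T τ (u + a) (v + a) ≤ T (sh a τ) u v :=
    fun a τ u v => T_map (transl a) τ u v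
  refine le_antisymm ?_ (key a τ u v)
  have h := key (-a) (sh a τ) (u + a) (v + a)
  rw [sh_sh] at h
  simpa using h
lemma T_rf (a : V) (τ : Cfg) (u v : V) : T (rf a τ) u v = T τ (a - u) (a - v) := by
  have key : ∀ (τ : Cfg) (u v : V), T τ (a - u) (a - v) ≤ T (rf a τ) u v :=
    fun τ u v => T_map (refl a) τ u v
  refine le_antisymm ?_ (key τ u v)
  have h := key (rf a τ) (a - u) (a - v)
  rw [rf_rf] at h
  simpa using h
lemma T_rf0 (x : V) (τ : Cfg) : T (rf x τ) 0 x = T τ 0 x := by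
  rw [T_rf, sub_zero, sub_self, T_comm]

lemma TA_sh_Up (a : V) {j : ℤ} (τ : Cfg) {u v : V} (hu : j ≤ u 0) (hv : j ≤ v 0) :
    TA (Up j) (sh a τ) u v = TA (Up (j + a 0)) τ (u + a) (v + a) := by
  have key : ∀ (a : V) (j : ℤ) (τ : Cfg) (u v : V), j ≤ u 0 → j ≤ v 0 →
      TA (Up (j + a 0)) τ (u + a) (v + a) ≤ TA (Up j) (sh a τ) u v := fun a j τ u v hu hv =>
    TA_map (transl a) (fun e he => by
      induction e using Sym2.ind with
      | h x y =>
        show s(x + a, y + a) ∈ Up (j + a 0)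
        simpa [Up] using he) (conn_Up hu hv) τ
  refine le_antisymm ?_ (key a j τ u v hu hv)
  have h := key (-a) (j + a 0) (sh a τ) (u + a) (v + a) (by simpa using hu) (by simpa using hv)
  rw [sh_sh] at h
  simpa using h
lemma TA_rf_le (a : V) (j : ℤ) (τ : Cfg) (u v : V) :
    (u 0 ≤ j → v 0 ≤ j → TA (Up (a 0 - j)) τ (a - u) (a - v) ≤ TA (Lo j) (rf a τ) u v) ∧
    (j ≤ u 0 → j ≤ v 0 → TA (Lo (a 0 - j)) τ (a - u) (a - v) ≤ TA (Up j) (rf a τ) u v) := by
  refine ⟨fun hu hv => TA_map (refl a) (fun e he => ?_) (conn_Lo hu hv) τ,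
    fun hu hv => TA_map (refl a) (fun e he => ?_) (conn_Up hu hv) τ⟩
  · induction e using Sym2.ind with
    | h x y =>
      show s(a - x, a - y) ∈ Up (a 0 - j)
      have h1 := he x (Sym2.mem_mk_left x y)
      have h2 := he y (Sym2.mem_mk_right x y)
      simp only [Up, Set.mem_ofPred_eq, Sym2.mem_iff, forall_eq_or_imp, forall_eq, Pi.sub_apply]
      omega
  · induction e using Sym2.ind with
    | h x y =>
      show s(a - x, a - y) ∈ Lo (a 0 - j)
      have h1 := he x (Sym2.mem_mk_left x y)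
      have h2 := he y (Sym2.mem_mk_right x y)
      simp only [Lo, Set.mem_ofPred_eq, Sym2.mem_iff, forall_eq_or_imp, forall_eq, Pi.sub_apply]
      omega
lemma TA_rf_Lo (a : V) {j : ℤ} (τ : Cfg) {u v : V} (hu : u 0 ≤ j) (hv : v 0 ≤ j) :
    TA (Lo j) (rf a τ) u v = TA (Up (a 0 - j)) τ (a - u) (a - v) := by
  refine le_antisymm ?_ ((TA_rf_le a j τ u v).1 hu hv)
  have h := (TA_rf_le a (a 0 - j) (rf a τ) (a - u) (a - v)).2
    (by simp only [Pi.sub_apply]; omega) (by simp only [Pi.sub_apply]; omega)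
  rw [rf_rf] at h
  simpa using h
lemma TA_rf_Up (a : V) {j : ℤ} (τ : Cfg) {u v : V} (hu : j ≤ u 0) (hv : j ≤ v 0) :
    TA (Up j) (rf a τ) u v = TA (Lo (a 0 - j)) τ (a - u) (a - v) := by
  refine le_antisymm ?_ ((TA_rf_le a j τ u v).2 hu hv)
  have h := (TA_rf_le a (a 0 - j) (rf a τ) (a - u) (a - v)).1
    (by simp only [Pi.sub_apply]; omega) (by simp only [Pi.sub_apply]; omega)
  rw [rf_rf] at h
  simpa using h

/-- off the event `Kes` far sites are not reached fast -/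
lemma T_ge_of_notKes {c : ℝ} (hc : 0 ≤ c) {L : ℕ} {τ : Cfg} (h : τ ∉ Kes c L) {v : V}
    (hv : (L : ℝ) ≤ n1 v) : c * n1 v ≤ T τ 0 v :=
  le_T fun q => by
    have h1 := n1_le_length q.bypass
    rw [sub_zero] at h1
    have h2 : c * q.bypass.length ≤ SW τ q.bypass.edges := not_lt.1 fun h' =>
      h ⟨v, q.bypass, q.bypass_isPath, by exact_mod_cast hv.trans h1, h'⟩
    exact (mul_le_mul_of_nonneg_left h1 hc).trans
      (h2.trans (SW_sublist τ q.edges_bypass_sublist_edges))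

/-! ### moments -/

section mom

variable (p : Par) (h2 : MemLp (fun t : ℝ≥0 => (t : ℝ)) 2 p.F)
include h2

lemma w_memLp (e : Sym2 V) : MemLp (fun τ : Cfg => (τ e : ℝ)) 2 p.P :=
  h2.comp_measurePreserving (measurePreserving_eval_infinitePi (fun _ : Sym2 V => p.F) e)
lemma SW_memLp (l : List (Sym2 V)) : MemLp (fun τ => SW τ l) 2 p.P := by
  induction l with
  | nil => exact memLp_const (0 : ℝ)
  | cons a l ih => exact (w_memLp p h2 a).add ih
lemma T_memLp (u v : V) : MemLp (fun τ => T τ u v) 2 p.P := by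
  obtain ⟨q, -⟩ := exists_walk u v
  refine (SW_memLp p h2 q.edges).of_le (T_meas u v).aestronglyMeasurable (ae_of_all _ fun τ => ?_)
  rw [Real.norm_of_nonneg (T_nonneg τ u v), Real.norm_of_nonneg (SW_nonneg τ _)]
  exact T_le_SW τ q
lemma T_int (u v : V) : Integrable (fun τ => T τ u v) p.P :=
  (T_memLp p h2 u v).integrable one_le_two
lemma int_SW (l : List (Sym2 V)) : ∫ τ, SW τ l ∂p.P = l.length * ∫ t, (t : ℝ) ∂p.F := by
  induction l with
  | nil => simp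
  | cons a l ih =>
    simp only [SW_cons]
    have e : ∫ τ, (τ a : ℝ) ∂p.P = ∫ t, (t : ℝ) ∂p.F := by
      rw [← (measurePreserving_eval_infinitePi (fun _ : Sym2 V => p.F) a).map_eq,
        integral_map (measurable_pi_apply a).aemeasurable
          measurable_coe_nnreal_real.aestronglyMeasurable]
      rfl
    rw [integral_add ((w_memLp p h2 a).integrable one_le_two)
      ((SW_memLp p h2 l).integrable one_le_two), ih, e, List.length_cons]
    push_cast
    ring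

omit h2 in
/-- the law of `T u v` is the law of `T 0 (v - u)` -/
lemma map_T (u v : V) : p.P.map (fun τ => T τ u v) = p.P.map (fun τ => T τ 0 (v - u)) := by
  conv_rhs => rw [← p.map_sh u, Measure.map_map (T_meas _ _) (meas_sh u)]
  congr 1
  ext τ
  simp [T_sh]
omit h2 in
lemma pr_T (u v : V) (B : Set ℝ) :
    p.pr {τ | T τ u v ∈ B} = p.pr {τ | T τ 0 (v - u) ∈ B} := by
  rw [← p.pr_sh u {τ | T τ 0 (v - u) ∈ B}]
  simp [T_sh]
omit h2 in
lemma int_T (u v : V) : ∫ τ, T τ u v ∂p.P = ∫ τ, T τ 0 (v - u) ∂p.P := by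
  have h1 := integral_map (μ := p.P) (T_meas u v).aemeasurable
    (f := fun t : ℝ => t) aestronglyMeasurable_id
  have h3 := integral_map (μ := p.P) (T_meas 0 (v - u)).aemeasurable
    (f := fun t : ℝ => t) aestronglyMeasurable_id
  rw [← h1, ← h3, map_T]
lemma int_T_add (u v : V) :
    ∫ τ, T τ 0 (u + v) ∂p.P ≤ ∫ τ, T τ 0 u ∂p.P + ∫ τ, T τ 0 v ∂p.P := by
  have := integral_mono (T_int p h2 0 (u + v)) ((T_int p h2 0 u).add (T_int p h2 u (u + v)))
    fun τ => T_tri τ 0 u (u + v)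
  rw [integral_add' (T_int p h2 _ _) (T_int p h2 _ _), int_T p u, add_sub_cancel_left] at this
  exact this
lemma int_T_nsmul (k : ℕ) (v : V) : ∫ τ, T τ 0 (k • v) ∂p.P ≤ k * ∫ τ, T τ 0 v ∂p.P := by
  induction k with
  | zero => simp [T_self]
  | succ k ih =>
    rw [succ_nsmul]
    push_cast
    linarith [int_T_add p h2 (k • v) v]

end mom

namespace Sys

variable (p : Sys)

lemma lo_pos : (0 : ℝ) < p.lo := p.r_pos.trans_le p.r_le_lo
lemma hi_pos : (0 : ℝ) < p.hi := p.lo_pos.trans p.lo_lt_hi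
lemma c_pos : 0 < p.c := p.hi_pos.trans_le p.hi_le_c
lemma lo_lt_c : (p.lo : ℝ) < p.c := p.lo_lt_hi.trans_le p.hi_le_c
lemma D_ge : 3 + 2 / p.c * (2 * p.b + 1) ≤ p.D := by
  have := p.c_pos
  have := p.b_pos
  have : 0 ≤ (p.b * (1 + 2 / p.c * (p.b + 1)) + 1) / p.c := by positivity
  unfold D DD
  linarith
lemma three_le_D : 3 ≤ p.D := by
  have := p.c_pos
  have := p.b_pos
  have : 0 ≤ 2 / p.c * (2 * p.b + 1) := by positivity
  linarith [p.D_ge]
lemma D_pos : 0 < p.D := by linarith [p.three_le_D]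
lemma R_pos : 0 < p.R := by
  have := p.c_pos
  have := p.b_pos
  have := p.D_pos
  unfold R
  positivity
lemma eps_pos : 0 < p.eps := by
  have := p.R_pos
  have := p.hi_pos
  exact lt_min one_pos (by positivity)
lemma eps_le_one : p.eps ≤ 1 := min_le_left _ _
lemma sl_pos : 0 < p.sl := by unfold sl; linarith [p.lo_lt_hi]
lemma sl_le : p.sl ≤ p.b := by unfold sl; linarith [p.lo_pos, p.hi_le, p.b_pos]
lemma cS_pos {σ : ℝ} (h : 1 ≤ σ) : 0 < p.cS σ := div_pos (pow_pos p.c1_pos 2) (by positivity)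

lemma T_memLp (u v : V) : MemLp (fun τ => T τ u v) 2 p.P := V5.T_memLp p.toPar p.mem2 u v
lemma T_int (u v : V) : Integrable (fun τ => T τ u v) p.P := V5.T_int p.toPar p.mem2 u v
lemma int_SW_le (l : List (Sym2 V)) : ∫ τ, SW τ l ∂p.P ≤ p.b * l.length := by
  rw [int_SW p.toPar p.mem2, mul_comm]
  exact mul_le_mul_of_nonneg_right p.mean (Nat.cast_nonneg _)
/-- Markov inequality for the weight of a fixed route -/
lemma markov_SW (l : List (Sym2 V)) {t : ℝ} (ht : 0 < t) :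
    p.pr {τ | t ≤ SW τ l} ≤ p.b * l.length / t := by
  rw [le_div_iff₀ ht, mul_comm]
  exact (mul_meas_ge_le_integral_of_nonneg (ae_of_all _ fun τ => SW_nonneg τ l)
    ((SW_memLp p.toPar p.mem2 l).integrable one_le_two) t).trans (p.int_SW_le l)
lemma markov_w (e : Sym2 V) {t : ℝ} (ht : 0 < t) : p.pr {τ | t ≤ (τ e : ℝ)} ≤ p.b / t := by
  simpa using p.markov_SW [e] ht

lemma h_ge (v : V) : p.c * n1 v ≤ p.h v := p.hl v
lemma h_le (v : V) : p.h v ≤ p.b * n1 v := by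
  obtain ⟨q, hq⟩ := exists_walk 0 v
  have := integral_mono (p.T_int 0 v) ((SW_memLp p.toPar p.mem2 q.edges).integrable one_le_two)
    fun τ => T_le_SW τ q
  have h1 := p.int_SW_le q.edges
  rw [Walk.length_edges, hq, sub_zero] at h1
  exact this.trans h1
lemma h_add (u v : V) : p.h (u + v) ≤ p.h u + p.h v := int_T_add p.toPar p.mem2 u v
lemma h_nsmul (k : ℕ) (v : V) : p.h (k • v) ≤ k * p.h v := int_T_nsmul p.toPar p.mem2 k v
lemma h_zero : p.h 0 = 0 := by simp [h, T_self]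
lemma h_lip (u v : V) : p.h u ≤ p.h v + p.b * n1 (u - v) := by
  have := p.h_add v (u - v)
  rw [add_sub_cancel] at this
  linarith [p.h_le (u - v)]
lemma Vr_nonneg (v : V) : 0 ≤ p.Vr v := variance_nonneg _ _

/-- Chebyshev inequality -/
lemma cheb (u v : V) {t : ℝ} (ht : 0 < t) :
    p.pr {τ | t ≤ |T τ u v - p.h (v - u)|} ≤ p.Vr (v - u) / t ^ 2 := by
  have h1 := pr_T p.toPar u v {y : ℝ | t ≤ |y - p.h (v - u)|}
  simp only [Set.mem_ofPred_eq] at h1
  rw [h1]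
  have h2 := meas_ge_le_variance_div_sq (p.T_memLp 0 (v - u)) ht
  exact ENNReal.toReal_le_of_le_ofReal (div_nonneg (p.Vr_nonneg _) (sq_nonneg _)) h2

variable {p}

lemma VarM.mono {σ X Y : ℝ} (h : p.VarM σ X) (hY : Y ≤ X) : p.VarM σ Y :=
  fun v hv => h v (hv.trans hY)
/-- lower tail under the variance bound -/
lemma VarM.low {σ X : ℝ} (hV : p.VarM σ X) (u v : V) (hX : n1 (v - u) ≤ X) {t : ℝ} (ht : 0 < t) :
    p.pr {τ | T τ u v ≤ p.h (v - u) - t} ≤ σ ^ 2 / t ^ 2 := by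
  refine le_trans (p.pr_mono fun τ hτ => ?_)
    ((p.cheb u v ht).trans (div_le_div_of_nonneg_right (hV _ hX) (sq_nonneg t)))
  have : T τ u v ≤ p.h (v - u) - t := hτ
  show t ≤ |T τ u v - p.h (v - u)|
  exact le_abs.2 (Or.inr (by linarith))
/-- upper tail under the variance bound -/
lemma VarM.high {σ X : ℝ} (hV : p.VarM σ X) (u v : V) (hX : n1 (v - u) ≤ X) {t : ℝ} (ht : 0 < t) :
    p.pr {τ | p.h (v - u) + t ≤ T τ u v} ≤ σ ^ 2 / t ^ 2 := by
  refine le_trans (p.pr_mono fun τ hτ => ?_)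
    ((p.cheb u v ht).trans (div_le_div_of_nonneg_right (hV _ hX) (sq_nonneg t)))
  have : p.h (v - u) + t ≤ T τ u v := hτ
  show t ≤ |T τ u v - p.h (v - u)|
  exact le_abs.2 (Or.inl (by linarith))
lemma LowB.anti {d : Dat} {σ a : ℝ} {N n : ℕ} (h : p.LowB d σ a N) (hn : n ≤ N) :
    p.LowB d σ a n := fun m k S j h1 h2 => h m k S j h1 (h2.trans hn)

lemma Good.ε_pos {M : ℕ} {d : Dat} (g : p.Good M d) : 0 < d.ε := g.ε_eq ▸ p.eps_pos
lemma Good.ε_le {M : ℕ} {d : Dat} (g : p.Good M d) : d.ε ≤ 1 := g.ε_eq ▸ p.eps_le_one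

lemma Good.ρ_le {M : ℕ} {d : Dat} (g : p.Good M d) (v : V) (hv : 0 ≤ v 0) :
    d.ρ v ≤ p.b * v 0 + p.hi / 2 * (|(v 1 : ℝ)| + |(v 2 : ℝ)|) := by
  have h0 : (0 : ℝ) ≤ v 0 := by exact_mod_cast hv
  have h1 := mul_le_mul_of_nonneg_right g.ρ0_le h0
  have h2 := mul_le_mul_of_nonneg_right g.l1_le (abs_nonneg (v 1 : ℝ))
  have h3 := mul_le_mul_of_nonneg_right g.l2_le (abs_nonneg (v 2 : ℝ))
  rw [← abs_mul] at h2 h3
  unfold Dat.ρ
  linarith [le_abs_self (d.l1 * v 1), le_abs_self (d.l2 * v 2)]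

lemma Good.abs_ρ {M : ℕ} {d : Dat} (g : p.Good M d) (v : V) : |d.ρ v| ≤ p.b * n1 v := by
  have hr := p.hi_pos
  have hb := p.hi_le
  have h1 := mul_le_mul_of_nonneg_right ((abs_of_nonneg g.ρ0_nonneg).trans_le g.ρ0_le)
    (abs_nonneg (v 0 : ℝ))
  have h2 := mul_le_mul_of_nonneg_right (g.l1_le.trans (by linarith : (p.hi : ℝ) / 2 ≤ p.b))
    (abs_nonneg (v 1 : ℝ))
  have h3 := mul_le_mul_of_nonneg_right (g.l2_le.trans (by linarith : (p.hi : ℝ) / 2 ≤ p.b))
    (abs_nonneg (v 2 : ℝ))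
  rw [← abs_mul] at h1 h2 h3
  unfold Dat.ρ n1
  linarith [abs_add_three (d.ρ0 * v 0) (d.l1 * v 1) (d.l2 * v 2)]

lemma Good.g_ge {M : ℕ} {d : Dat} (g : p.Good M d) (v : V) (hv : 0 ≤ v 0) :
    p.c / 2 * (|(v 1 : ℝ)| + |(v 2 : ℝ)|) - p.b * v 0 ≤ p.g d v := by
  have h1 := g.ρ_le v hv
  have h2 := p.h_ge v
  have h3 := mul_nonneg p.c_pos.le (abs_nonneg (v 0 : ℝ))
  have h4 := mul_le_mul_of_nonneg_right p.hi_le_c
    (add_nonneg (abs_nonneg (v 1 : ℝ)) (abs_nonneg (v 2 : ℝ)))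
  unfold n1 at h2
  unfold Sys.g
  linarith

/-- sites of small excess lie in a cone -/
lemma Good.perp_le {M : ℕ} {d : Dat} (g : p.Good M d) {v : V} (hv : 0 ≤ v 0) {s n : ℝ}
    (h0 : (v 0 : ℝ) ≤ s * n) (hg : p.g d v ≤ n) :
    |(v 1 : ℝ)| + |(v 2 : ℝ)| ≤ 2 / p.c * (s * p.b + 1) * n := by
  have h1 := g.g_ge v hv
  have h2 := mul_le_mul_of_nonneg_left h0 p.b_pos.le
  rw [mul_assoc, div_mul_eq_mul_div, le_div_iff₀ p.c_pos]
  linarith

lemma Good.g_lip {M : ℕ} {d : Dat} (g : p.Good M d) (u v : V) :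
    p.g d (u + v) ≤ p.g d u + 2 * p.b * n1 v := by
  have h1 := p.h_add u v
  have h2 := p.h_le v
  have h3 := (abs_le.1 (g.abs_ρ v)).1
  unfold Sys.g
  rw [d.ρ_add]
  linarith

lemma g_nsmul (d : Dat) (k : ℕ) (v : V) : p.g d (k • v) ≤ k * p.g d v := by
  unfold Sys.g
  rw [d.ρ_nsmul]
  linarith [p.h_nsmul k v]

lemma PP_mono (d : Dat) (σ : ℝ) (n : ℕ) (β β' : ℝ) (h0 : 0 ≤ β) (h : β ≤ β') (hP : p.PP d σ n β) :
    p.PP d σ n β' := by
  have hb : β ^ 2 ≤ β' ^ 2 := pow_le_pow_left₀ h0 h 2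
  obtain ⟨⟨x, hx, hg⟩, S, hS, hc⟩ := hP
  refine ⟨⟨x, hx, hg.trans (mul_le_mul_of_nonneg_right hb (Nat.cast_nonneg _))⟩, S,
    fun v hv => ⟨(hS v hv).1, (hS v hv).2.1, (hS v hv).2.2.trans ?_⟩, hc⟩
  have : 0 ≤ v 0 := by have := (hS v hv).1; omega
  exact mul_le_mul_of_nonneg_right hb (by exact_mod_cast this)

lemma Good.n1_le {M : ℕ} {d : Dat} (g : p.Good M d) {x : V} {n : ℕ} (hx : x 0 = n)
    (hg : p.g d x ≤ n) : n1 x ≤ (1 + 2 / p.c * (p.b + 1)) * n := by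
  have h0 : (x 0 : ℝ) = n := by exact_mod_cast hx
  have := g.perp_le (v := x) (by omega) (s := 1) (n := n) (by linarith) hg
  unfold n1
  rw [h0, Nat.abs_cast]
  linarith

lemma Good.n1_le_D {M : ℕ} {d : Dat} (g : p.Good M d) {x : V} {n : ℕ} (hx : x 0 = n)
    (hg : p.g d x ≤ n) : n1 x ≤ p.D * n := by
  refine (g.n1_le hx hg).trans (mul_le_mul_of_nonneg_right ?_ (Nat.cast_nonneg _))
  have h1 := p.D_ge
  have h2 := mul_le_mul_of_nonneg_left (show p.b + 1 ≤ 2 * p.b + 1 by linarith [p.b_pos])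
    (div_pos two_pos p.c_pos).le
  linarith

/-- a nearly optimal path of controlled length -/
lemma Good.route {M : ℕ} {d : Dat} (g : p.Good M d) {x : V} {n : ℕ} {σ : ℝ} {τ : Cfg}
    (hx : x 0 = n) (hL : p.L ≤ n) (hg : p.g d x ≤ n) (hσ : 10 * σ + p.b ≤ n)
    (hK : τ ∉ Kes p.c p.L) (hT : T τ 0 x ≤ p.h x + 10 * σ) :
    ∃ q : G.Walk 0 x, q.IsPath ∧ (q.length : ℝ) ≤ p.D * n ∧ SW τ q.edges ≤ T τ 0 x + p.sl := by
  obtain ⟨q, hq, hs⟩ := exists_near τ 0 x p.sl_pos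
  refine ⟨q, hq, ?_, hs⟩
  have n0 : (0 : ℝ) ≤ n := Nat.cast_nonneg _
  by_cases hl : p.L ≤ q.length
  · have h1 : p.c * q.length ≤ SW τ q.edges := not_lt.1 fun h => hK ⟨x, q, hq, hl, h⟩
    have h2 := mul_le_mul_of_nonneg_left (g.n1_le hx hg) p.b_pos.le
    have h3 : (q.length : ℝ) ≤ (p.b * (1 + 2 / p.c * (p.b + 1)) + 1) / p.c * n := by
      rw [div_mul_eq_mul_div, le_div_iff₀ p.c_pos]
      linarith [p.h_le x, p.sl_le]
    refine h3.trans (mul_le_mul_of_nonneg_right ?_ n0)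
    have := p.c_pos
    have := p.b_pos
    have : 0 ≤ 2 / p.c * (2 * p.b + 1) := by positivity
    unfold D DD
    linarith
  · have h1 : (q.length : ℝ) ≤ n := by exact_mod_cast (not_le.1 hl).le.trans hL
    nlinarith [p.three_le_D]

end Sys

end Pool.Agent.Lib.V5
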