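import Pool.Agent.Lib.V5.Base
import Pool.Agent.Lib.V3.B_CORE

/-! The core step for general weight laws. -/

namespace Pool.Agent.Lib.V5

open MeasureTheory ProbabilityTheory Filter Topology Function Finset Pool.Agent.Lib.V3
open scoped NNReal ENNReal

namespace CORE5

open Pool.Agent.Lib.V3.CORE (JJ mem_JJ card_JJ_le)

lemma low_ge {p : Sys} {d : Dat} (hε : 0 < d.ε) {n : ℕ} {j : ℤ} {lam : ℝ}
    {τ : Cfg} (h : τ ∉ p.Low d n j lam) {y : V} (hy : y 0 = j) (h1 : n1 y ≤ p.D * n) :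
    -lam ≤ A d j τ y := by
  by_contra hc
  have hc := lt_of_not_ge hc
  have h0 : 0 ≤ d.ε / 36 * d.eta y / n := by
    have := d.eta_nonneg y
    positivity
  exact h ⟨y, hy, h1, by linarith⟩

lemma low_win {p : Sys} {d : Dat} (hε : 0 < d.ε) {n : ℕ} (hn : 0 < n) {j : ℤ} {lam k t : ℝ}
    (ht : 36 * (k + 2 * lam) ≤ d.ε * t) {τ : Cfg} (h : τ ∉ p.Low d n j lam) {y : V}
    (hy : y 0 = j) (h0 : n1 y ≤ p.D * n) (hA : A d j τ y ≤ k + lam) : d.eta y ≤ n * t := by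
  have hn' : (0 : ℝ) < n := by exact_mod_cast hn
  have h1 : d.ε / 36 * d.eta y / n - lam < A d j τ y := by
    by_contra hc
    exact h ⟨y, hy, h0, le_of_not_gt hc⟩
  have h2 : d.ε / 36 * d.eta y / n ≤ d.ε * t / 36 := by linarith
  rw [div_le_iff₀ hn'] at h2
  have h3 : d.ε * d.eta y ≤ d.ε * (n * t) := by linarith
  exact le_of_mul_le_mul_left h3 hε

/-- the lower tail events at one site -/
def Tail (p : Sys) (d : Dat) (s : ℝ) (j : ℕ) (y : V) : Set Cfg :=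
  {τ | A d j τ y < p.g d y - s}

lemma tail_meas (p : Sys) (d : Dat) (s : ℝ) (j : ℕ) (y : V) : MeasurableSet (Tail p d s j y) :=
  measurableSet_lt (A_meas d j y) measurable_const

lemma tail_dep (p : Sys) (d : Dat) (s : ℝ) (j : ℕ) (y : V) : Dep (Lo j) (Tail p d s j y) := by
  intro τ τ' h hτ
  have h1 : A d j τ y < p.g d y - s := hτ
  show A d j τ' y < p.g d y - s
  rwa [← A_congr d h]

lemma tail_pr {p : Sys} {σ X : ℝ} (hV : p.VarM σ X) (d : Dat) {s : ℝ} (hs : 0 < s) (j : ℕ)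
    (y : V) (hy : y 0 = j) (hX : n1 y ≤ X) : p.pr (Tail p d s j y) ≤ σ ^ 2 / s ^ 2 := by
  refine le_trans (p.pr_mono fun τ hτ => ?_) (hV.low 0 y (by rwa [sub_zero]) hs)
  have h1 : A d j τ y < p.g d y - s := hτ
  have h2 := T_le_TA (conn_Lo (j := j) (u := 0) (v := y) (Int.natCast_nonneg j) hy.le) τ
  show T τ 0 y ≤ p.h (y - 0) - s
  rw [sub_zero]
  unfold A Sys.g at h1
  linarith

/-- first use of the martingale bound -/
lemma sum_ev1 (hM : St_MART5) {p : Sys} {σ X : ℝ} (hσ : 0 < σ) (hV : p.VarM σ X) (d : Dat)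
    (n : ℕ) (x : V) (hx : n1 x ≤ X) {t s : ℝ} (ht : 1 ≤ t) (hs : 600 * σ ^ 2 * √t ≤ p.c1 * s)
    (W : ℕ → Finset V) (hW0 : ∀ j, ∀ y ∈ W j, y 0 = j ∧ n1 y ≤ X)
    (hWc : ∀ j, ((W j).card : ℝ) ≤ 9 * (n * t)) (M' : ℝ) :
    ∑ j ∈ JJ n, p.pr (p.Ev x j (W j) (Tail p d s j) M') ≤ n / 100 := by
  have hc := p.c1_pos
  have ht0 : 0 < t := by linarith
  have hst : 0 < √t := Real.sqrt_pos.2 ht0
  have hl : 0 < 600 * σ ^ 2 * √t := by positivity
  have hs0 : 0 < s := (mul_pos_iff_of_pos_left hc).1 (hl.trans_le hs)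
  have hn : (0 : ℝ) ≤ n := Nat.cast_nonneg n
  have h1 := hM p x (JJ n) W (Tail p d s) M' fun j _ y hy =>
    ⟨(hW0 j y hy).1, tail_meas p d s j y, tail_dep p d s j y⟩
  have h2 : ∑ j ∈ JJ n, ∑ y ∈ W j, p.pr (Tail p d s j y) ≤
      n * (9 * (n * t) * (σ ^ 2 / s ^ 2)) := by
    have : ∀ j ∈ JJ n, ∑ y ∈ W j, p.pr (Tail p d s j y) ≤ 9 * (n * t) * (σ ^ 2 / s ^ 2) := by
      intro j _
      have := Finset.sum_le_card_nsmul (W j) (fun y => p.pr (Tail p d s j y)) _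
        fun y hy => tail_pr hV d hs0 j y (hW0 j y hy).1 (hW0 j y hy).2
      rw [nsmul_eq_mul] at this
      exact this.trans (mul_le_mul_of_nonneg_right (hWc j) (by positivity))
    have h3 := Finset.sum_le_card_nsmul (JJ n) _ _ this
    rw [nsmul_eq_mul] at h3
    exact h3.trans (mul_le_mul_of_nonneg_right (card_JJ_le n) (by positivity))
  have h3 : p.Vr x * ∑ j ∈ JJ n, ∑ y ∈ W j, p.pr (Tail p d s j y) ≤
      σ ^ 2 * (n * (9 * (n * t) * (σ ^ 2 / s ^ 2))) :=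
    mul_le_mul (hV x hx) h2 (sum_nonneg fun j _ => sum_nonneg fun y _ => p.pr_nonneg _)
      (by positivity)
  have h4 : (600 * σ ^ 2 * √t) ^ 2 ≤ (p.c1 * s) ^ 2 := pow_le_pow_left₀ hl.le hs 2
  have h5 : (600 * σ ^ 2 * √t) ^ 2 = 360000 * σ ^ 4 * t := by
    rw [mul_pow, Real.sq_sqrt ht0.le]; ring
  have h6 : σ ^ 2 * (n * (9 * (n * t) * (σ ^ 2 / s ^ 2))) ≤ (p.c1 / 2 * (n / 100)) ^ 2 := by
    have e : σ ^ 2 * (n * (9 * (n * t) * (σ ^ 2 / s ^ 2))) =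
        (n : ℝ) ^ 2 / 40000 * (360000 * σ ^ 4 * t) / s ^ 2 := by ring
    rw [e, div_le_iff₀ (by positivity)]
    have e2 : (p.c1 / 2 * (n / 100)) ^ 2 * s ^ 2 = (n : ℝ) ^ 2 / 40000 * (p.c1 * s) ^ 2 := by
      ring
    rw [e2, ← h5]
    exact mul_le_mul_of_nonneg_left h4 (by positivity)
  have h7 := (h1.trans h3).trans h6
  have h8 := (abs_le_of_sq_le_sq' h7 (by positivity : 0 ≤ p.c1 / 2 * (n / 100))).2
  exact le_of_mul_le_mul_left h8 (half_pos hc)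

/-- second use of the martingale bound -/
lemma sum_ev2 (hM : St_MART5) {p : Sys} {σ : ℝ} (hσ : 0 < σ) (n : ℕ) (x : V)
    (hV : p.Vr x ≤ σ ^ 2) (S : ℕ → Finset V) (hS0 : ∀ j, ∀ y ∈ S j, y 0 = j) (M' : ℝ)
    (h : (n : ℝ) / 20 ≤ ∑ j ∈ JJ n, p.pr (p.Ev x j (S j) (fun _ => Set.univ) M')) :
    p.cS σ * n ^ 2 ≤ ∑ j ∈ JJ n, ((S j).card : ℝ) := by
  have hc := p.c1_pos
  have h1 := hM p x (JJ n) S (fun _ _ => Set.univ) M' fun j _ y hy =>
    ⟨hS0 j y hy, MeasurableSet.univ, fun _ _ _ _ => Set.mem_univ _⟩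
  simp only [p.pr_univ, sum_const, nsmul_eq_mul, mul_one] at h1
  have h2 : (p.c1 / 2 * (n / 20)) ^ 2 ≤
      (p.c1 / 2 * ∑ j ∈ JJ n, p.pr (p.Ev x j (S j) (fun _ => Set.univ) M')) ^ 2 :=
    pow_le_pow_left₀ (by positivity) (mul_le_mul_of_nonneg_left h (half_pos hc).le) 2
  have h3 : p.Vr x * ∑ j ∈ JJ n, ((S j).card : ℝ) ≤ σ ^ 2 * ∑ j ∈ JJ n, ((S j).card : ℝ) :=
    mul_le_mul_of_nonneg_right hV (sum_nonneg fun j _ => Nat.cast_nonneg _)
  have h4 := (h2.trans h1).trans h3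
  unfold Sys.cS
  rw [div_mul_eq_mul_div, div_le_iff₀ (by positivity)]
  nlinarith

/-- the bad event of one configuration at one plane -/
def Bad (p : Sys) (d : Dat) (n : ℕ) (x : V) (lam s M' : ℝ) (W S : ℕ → Finset V) (j : ℕ) :
    Set Cfg :=
  p.Low d n j lam ∪ p.Ev x j (W j) (Tail p d s j) M' ∪ p.Ev x j (S j) (fun _ => Set.univ) M'

/-- the global exceptional event -/
def Exc (p : Sys) (σ : ℝ) (n : ℕ) (x : V) : Set Cfg :=
  {τ | p.h (x - 0) + 10 * σ ≤ T τ 0 x} ∪ Light p.hi (DD p.c p.b * n) (n / 100) ∪ Kes p.c p.L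

lemma exc_pr {p : Sys} {σ X : ℝ} (hσ : 0 < σ) (hV : p.VarM σ X) {n : ℕ} (hn : 1 ≤ n) (x : V)
    (hx : n1 x ≤ X) : p.pr (Exc p σ n x) ≤ 3 / 100 := by
  have h1 := hV.high 0 x (by rwa [sub_zero]) (t := 10 * σ) (by positivity)
  have e : σ ^ 2 / (10 * σ) ^ 2 = 1 / 100 := by field_simp; norm_num
  rw [e] at h1
  have h2 := p.rare n hn
  have h3 := p.kes
  have h4 := p.pr_union_le ({τ | p.h (x - 0) + 10 * σ ≤ T τ 0 x} ∪
    Light p.hi (DD p.c p.b * n) (n / 100)) (Kes p.c p.L)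
  have h5 := p.pr_union_le {τ | p.h (x - 0) + 10 * σ ≤ T τ 0 x}
    (Light p.hi (DD p.c p.b * n) (n / 100))
  unfold Exc
  linarith

lemma bad_pr (p : Sys) (d : Dat) (n : ℕ) (x : V) (lam s M' : ℝ) (W S : ℕ → Finset V) (j : ℕ)
    (h : p.pr (p.Low d n j lam) ≤ 1 / 100) :
    p.pr (Bad p d n x lam s M' W S j) ≤ 1 / 100 + p.pr (p.Ev x j (W j) (Tail p d s j) M') +
      p.pr (p.Ev x j (S j) (fun _ => Set.univ) M') := by
  have h1 := p.pr_union_le (p.Low d n j lam ∪ p.Ev x j (W j) (Tail p d s j) M')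
    (p.Ev x j (S j) (fun _ => Set.univ) M')
  have h2 := p.pr_union_le (p.Low d n j lam) (p.Ev x j (W j) (Tail p d s j) M')
  unfold Bad
  linarith

/-- one side of the pointwise argument -/
lemma side {p : Sys} {d : Dat} (hε : 0 < d.ε) {n : ℕ} (hn : 0 < n) {x : V}
    {lam k t s K M' : ℝ} (ht : 36 * (k + 2 * lam) ≤ d.ε * t) {W S : ℕ → Finset V} {j : ℕ}
    (hW : ∀ y : V, y 0 = j → d.eta y ≤ n * t → n1 y ≤ p.D * n → y ∈ W j)
    (hS : ∀ y ∈ W j, p.g d y * (n - 1) ≤ j * K → y ∈ S j)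
    {τ : Cfg} (h : τ ∉ Bad p d n x lam s M' W S j) (hT : T τ 0 x ≤ M') {y : V} (hy : y 0 = j)
    (h0 : n1 y ≤ p.D * n) (hc : p.Cross x j τ y) (hh : p.hi < τ (ed y))
    (hA : A d j τ y ≤ k + lam) :
    p.g d y - s ≤ A d j τ y ∧ j * K < p.g d y * (n - 1) := by
  have h1 : τ ∉ p.Low d n j lam := fun h' => h (Or.inl (Or.inl h'))
  have hw := hW y hy (low_win hε hn ht h1 hy h0 hA) h0
  constructor
  · by_contra hc'
    exact h (Or.inl (Or.inr ⟨hT, y, hw, lt_of_not_ge hc', hc, hh⟩))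
  · by_contra hc'
    exact h (Or.inr ⟨hT, y, hS y hw (le_of_not_gt hc'), Set.mem_univ _, hc, hh⟩)

/-- the pointwise counting inequality -/
lemma point (hD : St_DEC5) {p : Sys} {d : Dat} {M : ℕ} (g : p.Good M d) {σ : ℝ} {n : ℕ}
    (hn : 0 < n) (hL : p.L ≤ n) {x : V} (hx : x 0 = n) {lam t s : ℝ} (hg : p.g d x ≤ n)
    (hk : 10 * σ + p.b ≤ n)
    (ht : 36 * (p.g d x + 10 * σ + 2 * p.b + 2 * lam) ≤ d.ε * t) {W S : ℕ → Finset V}
    (hW : ∀ (j : ℕ) (y : V), y 0 = j → d.eta y ≤ n * t → n1 y ≤ p.D * n → y ∈ W j)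
    (hS : ∀ j : ℕ, ∀ y ∈ W j,
      p.g d y * (n - 1) ≤ j * (p.g d x + 10 * σ + 2 * p.b + 2 * s) → y ∈ S j) (τ : Cfg) :
    ((JJ n).card : ℝ) - 4 * (n / 100) ≤ ∑ j ∈ JJ n,
      (Exc p σ n x ∪ Bad p d n x lam s (p.h x + 10 * σ) W S j ∪
        {τ | rf x τ ∈ Bad p d n x lam s (p.h x + 10 * σ) W S (n - 1 - j)}).indicator
          (fun _ => (1 : ℝ)) τ := by
  classical
  have hn0 : (0 : ℝ) ≤ n := Nat.cast_nonneg n
  by_cases hE : τ ∈ Exc p σ n x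
  · have : ∀ j ∈ JJ n, (Exc p σ n x ∪ Bad p d n x lam s (p.h x + 10 * σ) W S j ∪
        {τ | rf x τ ∈ Bad p d n x lam s (p.h x + 10 * σ) W S (n - 1 - j)}).indicator
          (fun _ => (1 : ℝ)) τ = 1 :=
      fun j _ => by
        rw [Set.indicator_of_mem]
        exact Or.inl (Or.inl hE)
    rw [sum_congr rfl this, sum_const, nsmul_eq_mul, mul_one]
    linarith
  have hT : T τ 0 x ≤ p.h x + 10 * σ := by
    by_contra hc
    refine hE (Or.inl (Or.inl ?_))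
    show p.h (x - 0) + 10 * σ ≤ T τ 0 x
    rw [sub_zero]
    exact (lt_of_not_ge hc).le
  have hT' : T (rf x τ) 0 x ≤ p.h x + 10 * σ := by rwa [T_rf0]
  obtain ⟨q, q1, q2, q3⟩ := g.route hx hL hg hk (fun h => hE (Or.inr h)) hT
  obtain ⟨y, y', B, hB, H⟩ := hD p d M g x n τ (p.D * n) (n / 100) q hx q1 q2 q3
    fun h => hE (Or.inl (Or.inr h))
  have key : ∀ j ∈ JJ n, (1 : ℝ) ≤ (Exc p σ n x ∪ Bad p d n x lam s (p.h x + 10 * σ) W S j ∪
        {τ | rf x τ ∈ Bad p d n x lam s (p.h x + 10 * σ) W S (n - 1 - j)}).indicator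
          (fun _ => (1 : ℝ)) τ + (if j ∈ B then 1 else 0) := by
    intro j hj
    have i0 : 0 ≤ (Exc p σ n x ∪ Bad p d n x lam s (p.h x + 10 * σ) W S j ∪
        {τ | rf x τ ∈ Bad p d n x lam s (p.h x + 10 * σ) W S (n - 1 - j)}).indicator
          (fun _ => (1 : ℝ)) τ :=
      Set.indicator_nonneg (fun _ _ => zero_le_one) _
    by_cases c1 : j ∈ B
    · rw [if_pos c1]
      linarith
    rw [if_neg c1, add_zero, Set.indicator_of_mem]
    by_contra hc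
    have b1 : τ ∉ Bad p d n x lam s (p.h x + 10 * σ) W S j := fun h => hc (Or.inl (Or.inr h))
    have b2 : rf x τ ∉ Bad p d n x lam s (p.h x + 10 * σ) W S (n - 1 - j) :=
      fun h => hc (Or.inr h)
    rw [mem_JJ] at hj
    have hjj : j + (n - 1 - j) + 1 = n := by omega
    obtain ⟨y0, y0', m1, m2, cr, cr', w1, w2, hsum⟩ := H j (n - 1 - j) hjj c1
    have l1 := low_ge g.ε_pos (fun h => b1 (Or.inl (Or.inl h))) y0 m1
    have l2 := low_ge g.ε_pos (fun h => b2 (Or.inl (Or.inl h))) y0' m2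
    have hg : p.g d x = p.h x - d.ρ x := rfl
    obtain ⟨s1, s2⟩ := side g.ε_pos hn ht (hW j) (hS j) b1 hT y0 m1 cr w1 (by linarith)
    obtain ⟨s3, s4⟩ := side g.ε_pos hn ht (hW (n - 1 - j)) (hS (n - 1 - j)) b2 hT' y0' m2 cr' w2
      (by linarith)
    have hc1 : (j : ℝ) + ((n - 1 - j : ℕ) : ℝ) + 1 = n := by exact_mod_cast hjj
    have hn1 : (0 : ℝ) ≤ n - 1 := by
      have : (1 : ℝ) ≤ n := by exact_mod_cast hn
      linarith
    have hle : p.g d (y j) + p.g d (y' j) ≤ p.g d x + 10 * σ + 2 * p.b + 2 * s := by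
      linarith
    have hm := mul_le_mul_of_nonneg_right hle hn1
    have e : (j : ℝ) * (p.g d x + 10 * σ + 2 * p.b + 2 * s) +
        ((n - 1 - j : ℕ) : ℝ) * (p.g d x + 10 * σ + 2 * p.b + 2 * s) =
        (p.g d x + 10 * σ + 2 * p.b + 2 * s) * (n - 1) := by
      rw [← hc1]; ring
    linarith
  have hsum := sum_le_sum key
  rw [sum_const, nsmul_eq_mul, mul_one, sum_add_distrib, sum_boole] at hsum
  have c1 : (((JJ n).filter fun j => j ∈ B).card : ℝ) ≤ B.card := by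
    exact_mod_cast card_le_card fun j hj => (mem_filter.1 hj).2
  linarith

end CORE5

open Pool.Agent.Lib.V3.CORE (JJ mem_JJ card_JJ_ge sum_flip) in
theorem bCORE5 (hW : St_WIN) (hD : St_DEC5) (hM : St_MART5) : St_CORE5 := by
  classical
  intro p d M σ X g hσ hV n x lam t s hn hLn hx _ hg hk hL ht hε hs hX
  have σ0 : 0 < σ := by linarith
  have hn0 : (24 : ℝ) ≤ n := by exact_mod_cast hn
  have hu : (1 : ℝ) ≤ n * t := by nlinarith
  choose W₀ hW1 hW2 using fun j : ℕ => hW d j (n * t) hu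
  let W : ℕ → Finset V := fun j => (W₀ j).filter fun y => n1 y ≤ p.D * n
  let S : ℕ → Finset V := fun j => (W j).filter fun y =>
    p.g d y * (n - 1) ≤ j * (p.g d x + 10 * σ + 2 * p.b + 2 * s)
  have hW0 : ∀ j, ∀ y ∈ W j, y 0 = j ∧ n1 y ≤ X := fun j y hy =>
    ⟨((hW1 j y).1 (mem_filter.1 hy).1).1, (mem_filter.1 hy).2.trans hX⟩
  have hWc : ∀ j, ((W j).card : ℝ) ≤ 9 * (n * t) := fun j =>
    le_trans (by exact_mod_cast card_filter_le _ _) (hW2 j)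
  have hS0 : ∀ j, ∀ y ∈ S j, y 0 = j := fun j y hy => (hW0 j y (mem_filter.1 hy).1).1
  have hxX : n1 x ≤ X := (g.n1_le_D hx hg).trans hX
  have e1 := CORE5.sum_ev1 hM σ0 hV d n x hxX ht hs W hW0 hWc (p.h x + 10 * σ)
  have hp := p.avg (JJ n) (fun _ => 1) (fun j => CORE5.Exc p σ n x ∪
      CORE5.Bad p d n x lam s (p.h x + 10 * σ) W S j ∪
      {τ | rf x τ ∈ CORE5.Bad p d n x lam s (p.h x + 10 * σ) W S (n - 1 - j)}) _
    (fun _ _ => zero_le_one)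
    (CORE5.point hD g (by omega) hLn hx hg hk hε
      (fun j y h0 h1 h2 => mem_filter.2 ⟨(hW1 j y).2 ⟨h0, h1⟩, h2⟩)
      fun j y hy h => mem_filter.2 ⟨hy, h⟩)
  have hb : ∀ j ∈ JJ n, 1 * p.pr (CORE5.Exc p σ n x ∪
      CORE5.Bad p d n x lam s (p.h x + 10 * σ) W S j ∪
      {τ | rf x τ ∈ CORE5.Bad p d n x lam s (p.h x + 10 * σ) W S (n - 1 - j)}) ≤
      3 / 100 + p.pr (CORE5.Bad p d n x lam s (p.h x + 10 * σ) W S j) +
        p.pr (CORE5.Bad p d n x lam s (p.h x + 10 * σ) W S (n - 1 - j)) := by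
    intro j _
    have h1 := p.pr_union_le (CORE5.Exc p σ n x ∪ CORE5.Bad p d n x lam s (p.h x + 10 * σ) W S j)
      {τ | rf x τ ∈ CORE5.Bad p d n x lam s (p.h x + 10 * σ) W S (n - 1 - j)}
    have h2 := p.pr_union_le (CORE5.Exc p σ n x) (CORE5.Bad p d n x lam s (p.h x + 10 * σ) W S j)
    have h3 := p.pr_rf x (CORE5.Bad p d n x lam s (p.h x + 10 * σ) W S (n - 1 - j))
    have h4 := CORE5.exc_pr σ0 hV (by omega : 1 ≤ n) x hxX
    linarith
  have hq := hp.trans (sum_le_sum hb)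
  rw [sum_add_distrib, sum_add_distrib, sum_const, nsmul_eq_mul,
    sum_flip n fun j => p.pr (CORE5.Bad p d n x lam s (p.h x + 10 * σ) W S j)] at hq
  have hr := sum_le_sum fun j (hj : j ∈ JJ n) =>
    CORE5.bad_pr p d n x lam s (p.h x + 10 * σ) W S j (hL j (mem_JJ.1 hj).1)
  rw [sum_add_distrib, sum_add_distrib, sum_const, nsmul_eq_mul] at hr
  have hJ := card_JJ_ge hn
  have e2 := CORE5.sum_ev2 hM σ0 n x (hV x hxX) S hS0 (p.h x + 10 * σ) (by linarith)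
  refine ⟨(JJ n).biUnion S, fun v hv => ?_, ?_⟩
  · obtain ⟨j, hj, hv⟩ := mem_biUnion.1 hv
    have h0 := hS0 j v hv
    have h1 := (mem_filter.1 hv).2
    rw [mem_JJ] at hj
    refine ⟨by omega, by omega, ?_⟩
    rw [h0, Int.cast_natCast]
    exact h1
  · rw [card_biUnion, Nat.cast_sum]
    · exact e2
    · intro i _ j _ hij
      refine disjoint_left.2 fun v h1 h2 => hij ?_
      have := (hS0 i v h1).symm.trans (hS0 j v h2)
      exact_mod_cast this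

end Pool.Agent.Lib.V5
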