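import Pool.Agent.Lib.V5.Defs
import Pool.Agent.Lib.V3Q.Blue

/-! Statements of the blocks for general weight laws. -/

namespace Pool.Agent.Lib.V5

open MeasureTheory ProbabilityTheory Filter Topology Pool.Agent.Lib.V3
open Pool.Agent.Lib.MP_eba68f_pr (lattice passage)
open scoped NNReal ENNReal

def St_KP : Prop :=
  ∃ L : ℕ, ∀ (p : Par) (a : ℝ≥0), p.F.real (Set.Iic a) ≤ 1 / 1000 → p.pr (Many a L) ≤ 1 / 100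

def St_PRE : Prop :=
  ∀ (p : Par) (r a : ℝ≥0) (L : ℕ), MemLp (fun t : ℝ≥0 => (t : ℝ)) 2 p.F → p.F (Set.Iio r) = 0 →
    r < a → p.pr (Many a L) ≤ 1 / 100 →
    p.pr (Kes (r + (a - r : ℝ) / 4) L) ≤ 1 / 100 ∧
      ∀ v : V, (r + (a - r : ℝ) / 4) * n1 v ≤ ∫ τ, T τ 0 v ∂p.P

def St_GEO5 : Prop := ∀ (p : Sys) (M : ℕ), 1 ≤ M → ∃ d : Dat, p.Good M d

def St_HALFA : Prop :=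
  ∀ p : Sys, ∃ C L₁ : ℝ, 0 ≤ C ∧ 1 ≤ L₁ ∧ ∀ (d : Dat) (M : ℕ) (σ : ℝ) (v : V) (L U X : ℝ),
    p.Good M d → 0 ≤ v 0 → v 0 + 1 ≤ M → L₁ ≤ L → p.VarM σ X → n1 v + 2 * U + 1 ≤ X →
    p.pr {τ | ∃ u : V, u 0 = 0 ∧ L ≤ n1 u ∧ n1 u ≤ U ∧
      TA (Up 0) τ u v - d.ρ (v - u) ≤ -(p.c / 4 * n1 u)} ≤ C * σ ^ 2 / L ^ 2

def St_HALF5 : Prop :=
  ∀ p : Sys, ∃ a Γ : ℝ, 0 ≤ a ∧ 0 ≤ Γ ∧ ∀ (d : Dat) (M : ℕ) (σ Y : ℝ), p.Good M d → 1 ≤ σ →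
    p.VarM σ (Γ * Y) → p.Half d σ a M Y

def St_LOW5 : Prop :=
  ∀ (p : Sys) (a₁ : ℝ), 0 ≤ a₁ → ∃ a Γ : ℝ, 0 ≤ a ∧ 0 ≤ Γ ∧
    ∀ (d : Dat) (M : ℕ) (σ : ℝ) (N : ℕ), p.Good M d → 1 ≤ σ → 6 * N ≤ M → p.VarM σ (Γ * N) →
      p.Half d σ a₁ M (Γ * N) → p.LowB d σ a N

def St_SUN : Prop :=
  ∀ (N : ℕ) (Lt B : Finset ℕ) (e : ℕ → ℕ),
    (∀ t ∈ B, t < e t ∧ e t ≤ N ∧ e t - t ≤ 2 * (Lt.filter fun i => t ≤ i ∧ i < e t).card) →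
    B.card ≤ 2 * (Lt.filter fun i => i < N).card

def St_DEC5 : Prop :=
  ∀ (p : Sys) (d : Dat) (M : ℕ), p.Good M d →
    ∀ (x : V) (n : ℕ) (τ : Cfg) (l m : ℝ) (q : G.Walk 0 x), x 0 = n → q.IsPath →
      (q.length : ℝ) ≤ l → SW τ q.edges ≤ T τ 0 x + p.sl → τ ∉ Light p.hi l m →
      ∃ (y y' : ℕ → V) (B : Finset ℕ), (B.card : ℝ) ≤ 4 * m ∧
        ∀ j j' : ℕ, j + j' + 1 = n → j ∉ B →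
          y j 0 = j ∧ y' j 0 = j' ∧ n1 (y j) ≤ l ∧ n1 (y' j) ≤ l ∧
          p.Cross x j τ (y j) ∧ p.Cross x j' (rf x τ) (y' j) ∧
          p.hi < τ (ed (y j)) ∧ p.hi < rf x τ (ed (y' j)) ∧
          A d j τ (y j) + A d j' (rf x τ) (y' j) ≤ T τ 0 x - d.ρ x + 2 * p.b

def St_MART5 : Prop :=
  ∀ (p : Sys) (x : V) (J : Finset ℕ) (W : ℕ → Finset V) (C : ℕ → V → Set Cfg) (M' : ℝ),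
    (∀ j ∈ J, ∀ y ∈ W j, y 0 = j ∧ MeasurableSet (C j y) ∧ Dep (Lo j) (C j y)) →
    (p.c1 / 2 * ∑ j ∈ J, p.pr (p.Ev x j (W j) (C j) M')) ^ 2 ≤
      p.Vr x * ∑ j ∈ J, ∑ y ∈ W j, p.pr (C j y)

def St_CORE5 : Prop :=
  ∀ (p : Sys) (d : Dat) (M : ℕ) (σ X : ℝ), p.Good M d → 1 ≤ σ → p.VarM σ X →
    ∀ (n : ℕ) (x : V) (lam t s : ℝ), 24 ≤ n → p.L ≤ n → x 0 = n → 0 ≤ lam → p.g d x ≤ n →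
      10 * σ + p.b ≤ n → (∀ j : ℕ, j < n → p.pr (p.Low d n j lam) ≤ 1 / 100) → 1 ≤ t →
      36 * (p.g d x + 10 * σ + 2 * p.b + 2 * lam) ≤ d.ε * t → 600 * σ ^ 2 * √t ≤ p.c1 * s →
      p.D * n ≤ X →
      ∃ S : Finset V, (∀ v ∈ S, (n : ℤ) ≤ 3 * v 0 ∧ 3 * v 0 ≤ 2 * n ∧
        p.g d v * (n - 1) ≤ v 0 * (p.g d x + 10 * σ + 2 * p.b + 2 * s)) ∧
        p.cS σ * n ^ 2 ≤ S.card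

def St_STEP5 : Prop :=
  ∀ (p : Sys) (a : ℝ), 0 ≤ a → ∃ B β₀ c Γ : ℝ, 0 ≤ B ∧ 0 < β₀ ∧ 0 ≤ c ∧ 0 ≤ Γ ∧
    ∀ (d : Dat) (M : ℕ) (σ : ℝ) (N : ℕ), p.Good M d → 1 ≤ σ → N ≤ M → p.VarM σ (Γ * N) →
      p.LowB d σ a N → ∀ (n : ℕ) (β : ℝ), c * σ ^ 4 ≤ n → n ≤ N → 0 ≤ β → β ≤ β₀ →
        p.PP d σ n β →
        ∃ n' : ℕ, n ≤ 3 * n' ∧ 3 * n' ≤ 2 * n ∧ p.PP d σ n' (β + B * σ ^ 2 / √n)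

def St_LOW0 : Prop :=
  ∀ p : Sys, ∃ K Γ : ℝ, 0 ≤ K ∧ 0 ≤ Γ ∧ ∀ (σ : ℝ) (n : ℕ) (j : ℤ), 1 ≤ σ → σ ≤ n →
    p.VarM σ (Γ * n) → 0 ≤ j → p.pr (p.Low0 n j (K * √(σ * n))) ≤ 1 / 100

def St_CUT : Prop :=
  ∀ p : Sys, ∃ (C Γ : ℝ) (M₀ : ℕ), 0 ≤ C ∧ 0 ≤ Γ ∧ ∀ (d : Dat) (M : ℕ) (σ : ℝ), p.Good M d →
    1 ≤ σ → M₀ ≤ M → 40 * σ ≤ M → p.VarM σ (Γ * M) →
    ∃ y : V, (M : ℤ) ≤ 24 * y 0 ∧ 7 * y 0 ≤ M ∧ p.g d y ≤ C * √(σ * M)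

def St_START5 : Prop :=
  ∀ p : Sys, ∃ (C Γ : ℝ) (w₀ : ℕ), 0 ≤ C ∧ 0 ≤ Γ ∧ ∀ (d : Dat) (σ : ℝ) (w : ℕ), w₀ ≤ w →
    p.Good (24 * w ^ 4) d → 1 ≤ σ → σ ≤ w ^ 2 → p.VarM σ (Γ * w ^ 4) →
    ∃ n : ℕ, w ^ 4 ≤ n ∧ n ≤ 4 * w ^ 4 ∧ p.PP d σ n (C / √w)

def St_FINAL5 : Prop :=
  ∀ (p : Sys) (a₁ a B : ℝ), 0 ≤ a₁ → 0 ≤ a → ∃ c Γ : ℝ, 0 ≤ c ∧ 0 ≤ Γ ∧
    ∀ (d : Dat) (M : ℕ) (σ : ℝ) (n : ℕ), p.Good M d → 1 ≤ σ → 2 * n ≤ M →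
      p.Half d σ a₁ M (Γ * n) → p.LowB d σ a n → p.PP d σ n (B * σ ^ 2 / √n) →
      (n : ℝ) ≤ Real.exp (c * σ ^ 4)

def St_MAIN5 : Prop :=
  ∀ p : Sys, ∃ c Γ : ℝ, 0 ≤ c ∧ 0 ≤ Γ ∧ ∀ (σ : ℝ) (w : ℕ), 1 ≤ σ → p.VarM σ (Γ * w ^ 4) →
    (w : ℝ) ≤ Real.exp (c * σ ^ 4)

def St_RATE5 : Prop :=
  ∀ p : Sys, ∃ c : ℝ, 0 < c ∧ ∀ᶠ N : ℕ in atTop, ∃ v : V, n1 v ≤ N ∧
    c * √(Real.log N) ≤ p.Vr v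

def St_FIN5 : Prop :=
  ∀ a m : ℝ≥0, 0 < a → ∃ p₀ : ℝ≥0∞, 0 < p₀ ∧
    ∀ (F : Measure ℝ≥0) [IsProbabilityMeasure F] (r : ℝ≥0),
      MemLp (fun t : ℝ≥0 => (t : ℝ)) 2 F → ∫ t, (t : ℝ) ∂F ≤ m → F (Set.Iio a) ≤ 1 / 1000 →
      F (Set.Iio r) = 0 → (∀ s, r < s → 0 < F (Set.Iic s)) → F {r} < p₀ →
      ∃ c : ℝ, 0 < c ∧ ∀ᶠ N : ℕ in atTop, ∃ v : Fin 3 → ℤ, (∀ i, |v i| ≤ N) ∧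
        ENNReal.ofReal (c * √(Real.log N)) ≤ evariance (fun τ => passage τ 0 v)
          (Measure.infinitePi fun _ : (lattice 3).edgeSet => F)

end Pool.Agent.Lib.V5
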