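import Pool.Agent.Lib.V5.Base
import Pool.Agent.Lib.V5.Blue

/-! Block CUT: a site with a small excess in a lower range of planes. -/

namespace Pool.Agent.Lib.V5

open MeasureTheory ProbabilityTheory Finset Pool.Agent.Lib.V3
open scoped NNReal ENNReal

namespace CUT

/-- the exceptional event -/
def Exc (p : Sys) (σ : ℝ) (n : ℕ) (x : V) : Set Cfg :=
  {τ | p.h (x - 0) + 10 * σ ≤ T τ 0 x} ∪ Light p.hi (p.D * n) (n / 100) ∪ Kes p.c p.L

lemma exc_pr (p : Sys) {σ X : ℝ} (hσ : 1 ≤ σ) (hV : p.VarM σ X) {n : ℕ} (hn : 1 ≤ n) {x : V}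
    (hx : n1 x ≤ X) : p.pr (Exc p σ n x) ≤ 3 / 100 := by
  have h1 := hV.high 0 x (t := 10 * σ) (by rwa [sub_zero]) (by linarith)
  have e : σ ^ 2 / (10 * σ) ^ 2 = 1 / 100 := by
    have : σ ≠ 0 := by linarith
    field_simp
    norm_num
  rw [e] at h1
  have h2 : p.pr (Light p.hi (p.D * n) (n / 100)) ≤ 1 / 100 := p.rare n hn
  have h3 := p.kes
  have h4 := p.pr_union_le ({τ | p.h (x - 0) + 10 * σ ≤ T τ 0 x} ∪
    Light p.hi (p.D * n) (n / 100)) (Kes p.c p.L)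
  have h5 := p.pr_union_le {τ | p.h (x - 0) + 10 * σ ≤ T τ 0 x} (Light p.hi (p.D * n) (n / 100))
  unfold Exc
  linarith

lemma low0_ge {p : Sys} (d : Dat) {n : ℕ} {j : ℤ} {s : ℝ} {τ : Cfg} (h : τ ∉ p.Low0 n j s)
    {y : V} (hy : y 0 = j) (hn : n1 y ≤ p.D * n) : p.g d y - s ≤ A d j τ y := by
  have h1 : p.h y - s ≤ TA (Lo j) τ 0 y := not_lt.1 fun hc => h ⟨y, hy, hn, hc⟩
  unfold Sys.g A
  linarith

lemma point (hD : St_DEC5) {p : Sys} {d : Dat} {M : ℕ} (g : p.Good M d) {x : V} {n : ℕ}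
    {σ s : ℝ} (hx : x 0 = n) (hnM : n ≤ M) (hL : p.L ≤ n) (hg : p.g d x ≤ 0)
    (hσ : 10 * σ + p.b ≤ n) (J : Finset ℕ) (hJ : ∀ j ∈ J, j < n)
    (hno : ∀ j ∈ J, ∀ y : V, y 0 = j → 10 * σ + 2 * p.b + 2 * s < p.g d y) (τ : Cfg) :
    (J.card : ℝ) - 4 * (n / 100) ≤ ∑ j ∈ J, (Exc p σ n x ∪ p.Low0 n j s ∪
      {τ | rf x τ ∈ p.Low0 n ((n - 1 - j : ℕ) : ℤ) s}).indicator (fun _ => (1 : ℝ)) τ := by
  classical
  have n0 : (0 : ℝ) ≤ n := Nat.cast_nonneg n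
  by_cases hE : τ ∈ Exc p σ n x
  · rw [sum_congr rfl fun j _ => Set.indicator_of_mem
      (Set.mem_union_left _ (Set.mem_union_left _ hE)) _, sum_const, nsmul_eq_mul]
    linarith
  have hT : T τ 0 x ≤ p.h x + 10 * σ := by
    have : ¬ p.h (x - 0) + 10 * σ ≤ T τ 0 x := fun h => hE (Or.inl (Or.inl h))
    rw [sub_zero] at this
    linarith
  obtain ⟨q, hq, hl, hs⟩ := g.route hx hL (hg.trans n0) hσ (fun h => hE (Or.inr h)) hT
  obtain ⟨y, y', B, hB, H⟩ := hD p d M g x n τ (p.D * n) (n / 100) q hx hq hl hs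
    fun h => hE (Or.inl (Or.inr h))
  have key : ∀ j ∈ J \ B, (Exc p σ n x ∪ p.Low0 n j s ∪
      {τ | rf x τ ∈ p.Low0 n ((n - 1 - j : ℕ) : ℤ) s}).indicator (fun _ => (1 : ℝ)) τ = 1 := by
    intro j hj
    rw [mem_sdiff] at hj
    refine Set.indicator_of_mem ?_ _
    by_contra hc
    have hj1 := hJ j hj.1
    obtain ⟨a1, a2, a3, a4, -, -, -, -, a5⟩ := H j (n - 1 - j) (by omega) hj.2
    have b1 := low0_ge d (fun h => hc (Or.inl (Or.inr h))) a1 a3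
    have b2 := low0_ge d (fun h => hc (Or.inr h)) a2 a4
    have b3 := g.G1 (y' j) (by omega) (by omega)
    have b4 := hno j hj.1 (y j) a1
    unfold Sys.g at hg
    linarith
  have h1 := sum_le_sum_of_subset_of_nonneg (sdiff_subset (s := J) (t := B))
    (f := fun j : ℕ => (Exc p σ n x ∪ p.Low0 n j s ∪
      {τ | rf x τ ∈ p.Low0 n ((n - 1 - j : ℕ) : ℤ) s}).indicator (fun _ => (1 : ℝ)) τ)
    fun j _ _ => Set.indicator_nonneg (fun _ _ => zero_le_one) _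
  rw [sum_congr rfl key, sum_const, nsmul_eq_mul, mul_one] at h1
  have h2 : (J.card : ℝ) ≤ (J \ B).card + B.card := by exact_mod_cast card_le_card_sdiff_add_card
  linarith

end CUT

theorem bCUT (hD : St_DEC5) (hL : St_LOW0) : St_CUT := by
  intro p
  obtain ⟨K, Γ, K0, Γ0, H⟩ := hL p
  obtain ⟨k, hk⟩ := exists_nat_ge (4 * p.b)
  have hb := p.b_pos
  have hD0 := p.D_pos
  refine ⟨10 + 2 * p.b + 2 * K, p.D + Γ, k + 2 * p.L + 400, by linarith, by linarith,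
    fun d M σ g hσ hM h40 hV => ?_⟩
  obtain ⟨x, x1, x2, xg⟩ := g.G3
  obtain ⟨n, hx⟩ : ∃ n : ℕ, x 0 = n := ⟨(x 0).toNat, by omega⟩
  have hnM : n ≤ M := by omega
  have hMn : M < 2 * n := by omega
  have hnM' : (n : ℝ) ≤ M := by exact_mod_cast hnM
  have hMn' : (M : ℝ) < 2 * n := by exact_mod_cast hMn
  have hkM : (k : ℝ) ≤ M := by exact_mod_cast (by omega : k ≤ M)
  have n0 : (0 : ℝ) ≤ n := Nat.cast_nonneg n
  have M0 : (0 : ℝ) ≤ M := Nat.cast_nonneg M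
  by_contra hc
  have r1 : σ ≤ √(σ * M) := Real.le_sqrt_of_sq_le (by nlinarith)
  have r2 : √(σ * n) ≤ √(σ * M) :=
    Real.sqrt_le_sqrt (mul_le_mul_of_nonneg_left hnM' (by linarith))
  have r3 := mul_le_mul_of_nonneg_left r2 K0
  have r4 := mul_le_mul_of_nonneg_left (hσ.trans r1) hb.le
  have hV1 : p.VarM σ (Γ * n) := hV.mono (by nlinarith [mul_le_mul_of_nonneg_left hnM' Γ0])
  have hx1 : n1 x ≤ (p.D + Γ) * M := (g.n1_le_D hx (xg.trans n0)).trans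
    (by nlinarith [mul_le_mul_of_nonneg_left hnM' hD0.le])
  have hp := p.avg (Finset.Icc ((n + 11) / 12) (n / 7)) (fun _ => 1)
    (fun j : ℕ => CUT.Exc p σ n x ∪ p.Low0 n j (K * √(σ * n)) ∪
      {τ | rf x τ ∈ p.Low0 n ((n - 1 - j : ℕ) : ℤ) (K * √(σ * n))}) _ (fun _ _ => zero_le_one)
    (CUT.point hD g hx hnM (by omega) xg (by linarith) _
      (fun j hj => by rw [mem_Icc] at hj; omega)
      fun j hj y hy => by
        rw [mem_Icc] at hj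
        by_contra h
        exact hc ⟨y, by omega, by omega, by linarith [not_lt.1 h]⟩)
  have hq : ∀ j ∈ Finset.Icc ((n + 11) / 12) (n / 7),
      1 * p.pr (CUT.Exc p σ n x ∪ p.Low0 n j (K * √(σ * n)) ∪
        {τ | rf x τ ∈ p.Low0 n ((n - 1 - j : ℕ) : ℤ) (K * √(σ * n))}) ≤ 5 / 100 := by
    intro j _
    have h1 := p.pr_union_le (CUT.Exc p σ n x ∪ p.Low0 n j (K * √(σ * n)))
      {τ | rf x τ ∈ p.Low0 n ((n - 1 - j : ℕ) : ℤ) (K * √(σ * n))}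
    have h2 := p.pr_union_le (CUT.Exc p σ n x) (p.Low0 n j (K * √(σ * n)))
    have h3 := p.pr_rf x (p.Low0 n ((n - 1 - j : ℕ) : ℤ) (K * √(σ * n)))
    have h4 := CUT.exc_pr p hσ hV (by omega : 1 ≤ n) hx1
    have h5 := H σ n j hσ (by linarith) hV1 (Int.natCast_nonneg _)
    have h6 := H σ n ((n - 1 - j : ℕ) : ℤ) hσ (by linarith) hV1 (Int.natCast_nonneg _)
    linarith
  have hr := hp.trans (Finset.sum_le_card_nsmul _ _ _ hq)
  rw [nsmul_eq_mul, Nat.card_Icc] at hr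
  have h1 : n ≤ 20 * (n / 7 + 1 - (n + 11) / 12) := by omega
  have h2 : (n : ℝ) ≤ 20 * ((n / 7 + 1 - (n + 11) / 12 : ℕ) : ℝ) := by exact_mod_cast h1
  have h3 : (200 : ℝ) ≤ n := by exact_mod_cast (by omega : 200 ≤ n)
  linarith

end Pool.Agent.Lib.V5
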