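import Pool.Agent.Lib.V5.Base
import Pool.Agent.Lib.V3.B_DEC

/-! Row DEC5: first and last crossings of the slabs by a nearly optimal path. -/

namespace Pool.Agent.Lib.V5

open Finset SimpleGraph Pool.Agent.Lib.V3
open scoped NNReal

namespace DEC5

lemma SW_range (τ : Cfg) (e : Sym2 V) (M : List (Sym2 V)) :
    SW τ M = ∑ i ∈ range M.length, (τ (M.getD i e) : ℝ) := by
  induction M with
  | nil => simp
  | cons a M ih =>
    rw [SW_cons, List.length_cons, sum_range_succ', ih, add_comm]
    simp only [List.getD_cons_succ, List.getD_cons_zero]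

/-- a light piece has many light positions -/
lemma piece (τ : Cfg) (e : Sym2 V) {a : ℝ≥0} (ha : (0 : ℝ) < a) (A M C : List (Sym2 V))
    (h : SW τ M < a / 2 * M.length) :
    M.length ≤ 2 * (((range (A ++ (M ++ C)).length).filter
      fun i => τ ((A ++ (M ++ C)).getD i e) ≤ a).filter
        fun i => A.length ≤ i ∧ i < A.length + M.length).card := by
  classical
  have h1 : ((range M.length).filter fun i => τ (M.getD i e) ≤ a).card ≤
      (((range (A ++ (M ++ C)).length).filter
        fun i => τ ((A ++ (M ++ C)).getD i e) ≤ a).filter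
          fun i => A.length ≤ i ∧ i < A.length + M.length).card := by
    refine card_le_card_of_injOn (fun i => A.length + i) (fun i hi => ?_)
      fun i _ k _ hik => Nat.add_left_cancel hik
    rw [mem_coe, mem_filter, mem_range] at hi
    rw [mem_coe, mem_filter, mem_filter, mem_range, List.length_append, List.length_append,
      List.getD_append_right _ _ _ _ (Nat.le_add_right _ _), Nat.add_sub_cancel_left,
      List.getD_append _ _ _ _ hi.1]
    exact ⟨⟨Nat.add_lt_add_left (hi.1.trans_le (Nat.le_add_right _ _)) _, hi.2⟩,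
      Nat.le_add_right _ _, Nat.add_lt_add_left hi.1 _⟩
  have h2 := card_filter_add_card_filter_not (s := range M.length) fun i => τ (M.getD i e) ≤ a
  rw [card_range] at h2
  have h3 : (a : ℝ) * ((range M.length).filter fun i => ¬ τ (M.getD i e) ≤ a).card ≤ SW τ M := by
    rw [SW_range τ e M, mul_comm, ← nsmul_eq_mul]
    refine (card_nsmul_le_sum _ (fun i => (τ (M.getD i e) : ℝ)) _ fun i hi => ?_).trans
      (sum_le_sum_of_subset_of_nonneg (filter_subset _ _) fun i _ _ => NNReal.coe_nonneg _)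
    exact NNReal.coe_le_coe.2 (not_le.1 (mem_filter.1 hi).2).le
  have h4 : (2 * ((range M.length).filter fun i => ¬ τ (M.getD i e) ≤ a).card : ℝ) < M.length := by
    refine lt_of_mul_lt_mul_left ?_ ha.le
    linarith
  have h5 : 2 * ((range M.length).filter fun i => ¬ τ (M.getD i e) ≤ a).card < M.length := by
    exact_mod_cast h4
  omega

/-- few positions of a path carry a light edge -/
lemma few {a : ℝ≥0} {l m : ℝ} {τ : Cfg} (h : τ ∉ Light a l m) {v : V} (q : G.Walk 0 v)
    (hq : q.IsPath) (hl : (q.length : ℝ) ≤ l) (e : Sym2 V) :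
    ((((range q.edges.length).filter fun i => τ (q.edges.getD i e) ≤ a).card : ℝ) < m) := by
  classical
  refine not_le.1 fun hm => h ⟨v, q, hl,
    ((range q.edges.length).filter fun i => τ (q.edges.getD i e) ≤ a).image
      fun i => q.edges.getD i e, fun e' he => ?_, ?_⟩
  · obtain ⟨i, hi, rfl⟩ := mem_image.1 he
    rw [mem_filter, mem_range] at hi
    refine ⟨?_, hi.2⟩
    rw [List.getD_eq_getElem _ _ hi.1]
    exact List.getElem_mem _
  · rw [card_image_of_injOn]
    · exact hm
    · intro i hi k hk hik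
      rw [mem_coe, mem_filter, mem_range] at hi hk
      simp only [List.getD_eq_getElem _ _ hi.1, List.getD_eq_getElem _ _ hk.1] at hik
      exact (List.Nodup.getElem_inj_iff hq.isTrail.edges_nodup).1 hik

/-- both crossings, the piece between them, and the three inequalities -/
lemma both (τ : Cfg) (e : Sym2 V) {x : V} (q : G.Walk 0 x) (j : ℤ) (h0 : 0 ≤ j) (h1 : j < x 0) :
    ∃ (y u : V) (A M C : List (Sym2 V)), y 0 = j ∧ u 0 = j ∧ q.edges = A ++ (M ++ C) ∧
      q.edges.getD A.length e = ed y ∧ ed y ∈ q.edges ∧ ed u ∈ q.edges ∧ 0 < M.length ∧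
      n1 y ≤ q.length ∧ n1 (x - (u + e0)) ≤ q.length ∧ n1 (u + e0 - y) ≤ M.length ∧
      TA (Lo j) τ 0 y + τ (ed y) + T τ (y + e0) x ≤ SW τ q.edges ∧
      T τ 0 u + τ (ed u) + TA (Up (j + 1)) τ (u + e0) x ≤ SW τ q.edges ∧
      TA (Lo j) τ 0 y + SW τ M + TA (Up (j + 1)) τ (u + e0) x ≤ SW τ q.edges := by
  obtain ⟨y, q₁, q₂, hy, hs, he⟩ := DEC.first j q h0 h1
  rcases DEC.last j (Walk.cons (adj_e0 y) q₂) h1 with h | ⟨u, r₁, r₂, hu, ht, hr⟩
  · have := h y (Walk.start_mem_support _)
    omega
  have hr' : ed y :: q₂.edges = r₁.edges ++ ed u :: r₂.edges := hr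
  have a1 := TA_le_SW τ q₁ (edges_mem_Lo q₁ hs)
  have a2 := T_le_SW τ q₂
  have a3 := TA_le_SW τ r₂ (edges_mem_Up r₂ ht)
  have a4 := T_le_SW τ r₁
  have a5 := T_le_SW τ q₁
  have a6 := T_tri τ 0 y u
  have e1 : SW τ q.edges = SW τ q₁.edges + (τ (ed y) + SW τ q₂.edges) := by
    rw [he, SW_append, SW_cons]
  have e2 : SW τ q.edges = SW τ q₁.edges + (SW τ r₁.edges + (τ (ed u) + SW τ r₂.edges)) := by
    rw [he, hr', SW_append, SW_append, SW_cons]
  have e3 : SW τ (r₁.edges ++ [ed u]) = SW τ r₁.edges + τ (ed u) := by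
    rw [SW_append, SW_cons, SW_nil, add_zero]
  have e4 : q.length = q₁.length + (r₁.length + (r₂.length + 1)) := by
    have := congrArg List.length he
    rw [hr'] at this
    simpa using this
  have e5 : (q.length : ℝ) = q₁.length + (r₁.length + (r₂.length + 1)) := by exact_mod_cast e4
  have b1 := n1_le_length q₁
  have b2 := n1_le_length r₂
  have b3 := n1_le_length r₁
  have b4 := n1_add_le (u - y) e0
  have c1 : (0 : ℝ) ≤ q₁.length := Nat.cast_nonneg _
  have c2 : (0 : ℝ) ≤ r₁.length := Nat.cast_nonneg _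
  have c3 : (0 : ℝ) ≤ r₂.length := Nat.cast_nonneg _
  rw [sub_zero] at b1
  rw [n1_e0, show u - y + e0 = u + e0 - y by abel] at b4
  refine ⟨y, u, q₁.edges, r₁.edges ++ [ed u], r₂.edges, hy, hu, by simp [he, hr'], ?_,
    by simp [he], by simp [he, hr'], by simp, by linarith, by linarith, ?_, by linarith,
    by linarith, by linarith⟩
  · rw [he, List.getD_append_right _ _ _ _ le_rfl, Nat.sub_self, List.getD_cons_zero]
  · rw [List.length_append, Walk.length_edges]
    push_cast
    simp only [List.length_singleton, Nat.cast_one]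
    linarith

end DEC5

theorem bDEC5 (hS : St_SUN) : St_DEC5 := by
  classical
  intro p d M g x n τ l m q hx hq hl hw hL
  have H : ∀ j : ℕ, ∃ (y u : V) (A M C : List (Sym2 V)), j < n → y 0 = j ∧ u 0 = j ∧
      q.edges = A ++ (M ++ C) ∧
      q.edges.getD A.length (ed 0) = ed y ∧ ed y ∈ q.edges ∧ ed u ∈ q.edges ∧ 0 < M.length ∧
      n1 y ≤ q.length ∧ n1 (x - (u + e0)) ≤ q.length ∧ n1 (u + e0 - y) ≤ M.length ∧
      TA (Lo j) τ 0 y + τ (ed y) + T τ (y + e0) x ≤ SW τ q.edges ∧
      T τ 0 u + τ (ed u) + TA (Up (j + 1)) τ (u + e0) x ≤ SW τ q.edges ∧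
      TA (Lo j) τ 0 y + SW τ M + TA (Up (j + 1)) τ (u + e0) x ≤ SW τ q.edges := by
    intro j
    by_cases hj : j < n
    · obtain ⟨y, u, A, M, C, h⟩ := DEC5.both τ (ed 0) q j (by omega) (by omega)
      exact ⟨y, u, A, M, C, fun _ => h⟩
    · exact ⟨0, 0, [], [], [], fun h => absurd h hj⟩
  choose y u A N C H using H
  have f1 := DEC.few hL q hl n y fun j hj => ⟨(H j hj).1, (H j hj).2.2.2.2.1⟩
  have f2 := DEC.few hL q hl n u fun j hj => ⟨(H j hj).2.1, (H j hj).2.2.2.2.2.1⟩
  have f3 := DEC5.few hL q hq hl (ed 0)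
  set Lt := (range q.edges.length).filter fun i => τ (q.edges.getD i (ed 0)) ≤ p.hi with hLt
  set B₃ := (range n).filter fun j => SW τ (N j) < p.hi / 2 * (N j).length with hB₃
  have f4 : B₃.card ≤ 2 * Lt.card := by
    have K : ∀ t : ℕ, ∃ e : ℕ, t ∈ B₃.image (fun j => (A j).length) → t < e ∧
        e ≤ q.edges.length ∧ e - t ≤ 2 * (Lt.filter fun i => t ≤ i ∧ i < e).card := by
      intro t
      by_cases ht : t ∈ B₃.image fun j => (A j).length
      · obtain ⟨j, hj, rfl⟩ := mem_image.1 ht
        rw [hB₃, mem_filter, mem_range] at hj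
        obtain ⟨-, -, h1, -, -, -, h2, -⟩ := H j hj.1
        have h3 := DEC5.piece τ (ed 0) p.hi_pos (A j) (N j) (C j) hj.2
        rw [← h1] at h3
        refine ⟨(A j).length + (N j).length, fun _ => ⟨by omega, ?_, ?_⟩⟩
        · rw [h1, List.length_append, List.length_append]
          omega
        · rw [Nat.add_sub_cancel_left]
          exact h3
      · exact ⟨0, fun h => absurd h ht⟩
    choose e K using K
    have h1 := hS q.edges.length Lt _ e K
    rw [card_image_of_injOn] at h1
    · exact h1.trans (Nat.mul_le_mul_left 2 (card_le_card (filter_subset _ _)))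
    · intro i hi k hk hik
      rw [hB₃, mem_coe, mem_filter, mem_range] at hi hk
      obtain ⟨a1, -, -, a2, -⟩ := H i hi.1
      obtain ⟨b1, -, -, b2, -⟩ := H k hk.1
      have hik' : (A i).length = (A k).length := hik
      rw [hik', b2] at a2
      rw [← ed_inj a2] at a1
      omega
  refine ⟨y, fun j => x - (u j + e0),
    ((range n).filter fun j => τ (ed (y j)) ≤ p.hi) ∪
      ((range n).filter fun j => τ (ed (u j)) ≤ p.hi) ∪ B₃, ?_, fun j j' h hj => ?_⟩
  · have h1 := (card_union_le (((range n).filter fun j => τ (ed (y j)) ≤ p.hi) ∪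
      ((range n).filter fun j => τ (ed (u j)) ≤ p.hi)) B₃).trans
      (Nat.add_le_add (card_union_le _ _) f4)
    have h2 := (Nat.cast_le (α := ℝ)).2 h1
    push_cast at h2
    linarith
  · have hn : j < n := by omega
    obtain ⟨hy, hu, -, -, -, -, -, a1, a2, a3, a4, a5, a6⟩ := H j hn
    simp only [hB₃, mem_union, mem_filter, mem_range, hn, true_and, not_or, not_le, not_lt] at hj
    obtain ⟨⟨b1, b2⟩, b3⟩ := hj
    have c1 : (x - (u j + e0)) 0 = j' := by
      simp only [Pi.sub_apply, Pi.add_apply, e0_zero]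
      omega
    have c2 : (j : ℤ) + 1 ≤ (u j + e0) 0 := by
      simp only [Pi.add_apply, e0_zero]
      omega
    have c3 : TA (Lo j') (rf x τ) 0 (x - (u j + e0)) = TA (Up (j + 1)) τ (u j + e0) x := by
      rw [TA_rf_Lo x τ (Int.natCast_nonneg j') c1.le, sub_zero, sub_sub_cancel,
        show x 0 - (j' : ℤ) = (j : ℤ) + 1 by omega, TA_comm (conn_Up c2 (by omega))]
    have c4 : rf x τ (ed (x - (u j + e0))) = τ (ed (u j)) := by
      unfold rf
      rw [DEC.map_ed]
    have c5 : (u j + e0 - y j) 0 = 1 := by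
      simp only [Pi.sub_apply, Pi.add_apply, e0_zero]
      omega
    refine ⟨hy, c1, a1.trans hl, a2.trans hl, a4.trans hw, ?_, b1, c4 ▸ b2, ?_⟩
    · unfold Sys.Cross
      rw [c3, c4, T_rf0, T_rf, sub_self, show x - (x - (u j + e0) + e0) = u j by abel,
        T_comm τ _ 0]
      linarith
    · have h2 := g.ρ_le (u j + e0 - y j) (by omega)
      have h3 : |((u j + e0 - y j) 1 : ℝ)| + |((u j + e0 - y j) 2 : ℝ)| ≤ (N j).length := by
        unfold n1 at a3
        linarith [abs_nonneg ((u j + e0 - y j) 0 : ℝ)]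
      have h4 := mul_le_mul_of_nonneg_left h3 (half_pos p.hi_pos).le
      rw [c5, d.ρ_sub] at h2
      unfold V5.A
      rw [c3, d.ρ_sub]
      push_cast at h2
      linarith [p.sl_le]

end Pool.Agent.Lib.V5
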