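import Pool.Agent.Lib.V5.Base

/-! Block HALF5: the passage time inside the upper half space is close to the functional. -/

namespace Pool.Agent.Lib.V5

open MeasureTheory ProbabilityTheory Finset SimpleGraph Pool.Agent.Lib.V3
open scoped NNReal ENNReal

namespace HALF5

/-- cutting a walk at its last passage from the lower to the upper half space -/
theorem split (τ : Cfg) {a v : V} (q : G.Walk a v) (hv : 0 ≤ v 0) :
    (0 ≤ a 0 ∧ TA (Up 0) τ a v ≤ SW τ q.edges) ∨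
      ∃ u : V, u 0 = 0 ∧ T τ a u + TA (Up 0) τ u v ≤ SW τ q.edges := by
  induction q with
  | nil => exact Or.inl ⟨hv, TA_le_SW τ Walk.nil fun e he => by simp at he⟩
  | @cons a c v h q ih =>
    rw [Walk.edges_cons, SW_cons]
    have h1 := T_adj τ h
    rcases ih hv with ⟨hc, h2⟩ | ⟨u, hu, h2⟩
    · by_cases ha : 0 ≤ a 0
      · have h3 := TA_le_SW_add (A := Up 0) (Walk.cons h Walk.nil)
          (edges_mem_Up _ fun z hz => by
            simp only [Walk.support_cons, Walk.support_nil, List.mem_cons, List.not_mem_nil,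
              or_false] at hz
            rcases hz with rfl | rfl
            exacts [ha, hc]) (conn_Up hc hv) τ
        simp only [Walk.edges_cons, Walk.edges_nil, SW_cons, SW_nil, add_zero] at h3
        exact Or.inl ⟨ha, by linarith⟩
      · refine Or.inr ⟨c, ?_, by linarith⟩
        have := adj_iff.1 h
        omega
    · exact Or.inr ⟨u, hu, by linarith [T_tri τ a c u]⟩

theorem last (τ : Cfg) (v : V) (hv : 0 ≤ v 0) :
    ∃ u : V, u 0 = 0 ∧ T τ 0 u + TA (Up 0) τ u v ≤ T τ 0 v + 1 := by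
  obtain ⟨q, -, hq⟩ := exists_near τ 0 v one_pos
  rcases split τ q hv with ⟨-, h⟩ | ⟨u, hu, h⟩
  · exact ⟨0, rfl, by rw [T_self]; linarith⟩
  · exact ⟨u, hu, h.trans hq⟩

/-- the deterministic alternative -/
theorem alt (p : Sys) {M : ℕ} {d : Dat} (g : p.Good M d) (v : V) (hv : 0 ≤ v 0)
    (hg : 0 ≤ p.g d v) (τ : Cfg) {σ L : ℝ} (hσ : 1 ≤ σ) (hL : (p.L : ℝ) ≤ L)
    (hL' : 4 * (p.g d v + 5 * σ) ≤ p.c * L) (hK : τ ∉ Kes p.c p.L)
    (hT : T τ 0 v < p.h v + 4 * σ) :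
    (∃ u : V, u 0 = 0 ∧ n1 u ≤ L ∧ TA (Up 0) τ u v - d.ρ v ≤ p.g d v + 5 * σ) ∨
      ∃ u : V, u 0 = 0 ∧ L ≤ n1 u ∧ n1 u ≤ 2 * (p.b / p.c) * n1 v ∧
        TA (Up 0) τ u v - d.ρ (v - u) ≤ -(p.c / 4 * n1 u) := by
  have hc := p.c_pos
  obtain ⟨u, hu, h1⟩ := last τ v hv
  have h2 := T_nonneg τ 0 u
  by_cases hn : n1 u ≤ L
  · exact Or.inl ⟨u, hu, hn, by unfold Sys.g; linarith⟩
  rw [not_le] at hn
  have h3 := T_ge_of_notKes hc.le hK (v := u) (hL.trans hn.le)
  have h4 := TA_nonneg (Up 0) τ u v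
  have h5 := p.h_le v
  have h6 := mul_le_mul_of_nonneg_left hn.le hc.le
  have h7 := g.ρ_le u hu.ge
  have h8 : n1 u = |(u 1 : ℝ)| + |(u 2 : ℝ)| := by simp [n1, hu]
  have h9 : (u 0 : ℝ) = 0 := by simp [hu]
  rw [← h8, h9] at h7
  have h10 := mul_le_mul_of_nonneg_right p.hi_le_c (n1_nonneg u)
  have h11 := mul_nonneg p.b_pos.le (n1_nonneg v)
  refine Or.inr ⟨u, hu, hn.le, ?_, ?_⟩
  · rw [← mul_div_assoc, div_mul_eq_mul_div, le_div_iff₀ hc]
    linarith
  · rw [d.ρ_sub]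
    unfold Sys.g at hL'
    linarith

/-- a route from below the origin to a site of the plane, off the upper half space -/
theorem route (u : V) (hu : u 0 = 0) : ∃ q : G.Walk (-e0) u, (q.length : ℝ) = n1 u + 1 ∧
    (∀ e ∈ q.edges, e ∈ Up (-1)) ∧ ∀ e ∈ q.edges, e ∉ Up 0 := by
  obtain ⟨q, hq, hb⟩ := exists_walk_box (-e0) (u - e0)
  have hz : ∀ z ∈ q.support, z 0 = -1 := fun z hz => by
    have := hb z hz 0
    simp only [Pi.neg_apply, Pi.sub_apply, e0_zero, hu] at this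
    omega
  have ha : G.Adj (u - e0) u := by simpa using adj_e0 (u - e0)
  have h0 : (u - e0) 0 = -1 := by simp [hu]
  refine ⟨q.concat ha, ?_, ?_, ?_⟩
  · rw [Walk.length_concat, Nat.cast_succ, hq, show u - e0 - -e0 = u by abel]
  · refine edges_mem_Up _ fun z h => ?_
    rw [Walk.support_concat, List.mem_append, List.mem_singleton] at h
    rcases h with h | rfl
    · exact (hz z h).ge
    · omega
  · intro e he hU
    rw [Walk.edges_concat, List.concat_eq_append, List.mem_append, List.mem_singleton] at he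
    rcases he with he | rfl
    · induction e using Sym2.ind with
      | h x y =>
        have h1 := hz x (q.fst_mem_support_of_mem_edges he)
        have h2 := hU x (Sym2.mem_mk_left _ _)
        omega
    · have h2 := hU _ (Sym2.mem_mk_left _ _)
      omega

/-- joining the site below the origin to a good site of the plane through fresh edges -/
theorem join (p : Sys) (v : V) (hv : 0 ≤ v 0) {L s : ℝ} (hL : 0 ≤ L) :
    9 / 10 * p.pr {τ | ∃ u : V, u 0 = 0 ∧ n1 u ≤ L ∧ TA (Up 0) τ u v ≤ s} ≤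
      p.pr {τ | TA (Up (-1)) τ (-e0) v ≤ s + 10 * p.b * (L + 1)} := by
  have hb := p.b_pos
  set E : Set Cfg := {τ | TA (Up (-1)) τ (-e0) v ≤ s + 10 * p.b * (L + 1)} with hE
  have hm : MeasurableSet E := measurableSet_le (TA_meas _ _ _) measurable_const
  rw [← p.int_ind hm]
  refine p.cond (Up 0) (Nice.ind hm)
    (fun τ => Set.indicator_nonneg (fun _ _ => zero_le_one) τ) _ (by norm_num) ?_
  rintro τ ⟨u, hu, hn, hs⟩
  obtain ⟨q, hq, h1, h2⟩ := route u hu
  have e1 : ∀ τ', E.indicator (fun _ => (1 : ℝ)) (spl (Up 0) τ τ') =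
      (spl (Up 0) τ ⁻¹' E).indicator (fun _ => (1 : ℝ)) τ' := fun τ' =>
    (Set.indicator_comp_right (fun τ' => spl (Up 0) τ τ') (g := fun _ => (1 : ℝ))).symm
  simp only [e1]
  rw [p.int_ind (meas_spl_right (Up 0) τ hm)]
  have ht : 0 < 10 * p.b * (L + 1) := by positivity
  have h3 := p.markov_SW q.edges ht
  have h4 : p.b * q.edges.length / (10 * p.b * (L + 1)) ≤ 1 / 10 := by
    rw [Walk.length_edges, hq, div_le_iff₀ ht]
    nlinarith
  have h5 := p.one_le_pr_add (spl (Up 0) τ ⁻¹' E)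
  have h6 := p.pr_mono (A := (spl (Up 0) τ ⁻¹' E)ᶜ)
    (B := {τ' | 10 * p.b * (L + 1) ≤ SW τ' q.edges}) fun τ' hτ' => by
      by_contra h
      have a1 : SW τ' q.edges < 10 * p.b * (L + 1) := not_le.1 h
      have a2 := TA_le_SW_add q h1 (conn_Up (j := -1) (by omega) (by omega) :
        Conn (Up (-1)) u v) (spl (Up 0) τ τ')
      have a3 := TA_anti (Up_anti (by norm_num : (-1 : ℤ) ≤ 0)) (conn_Up hu.ge hv)
        (spl (Up 0) τ τ')
      have a4 : TA (Up 0) (spl (Up 0) τ τ') u v = TA (Up 0) τ u v :=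
        TA_congr (fun e he => spl_mem τ τ' he) u v
      have a5 : SW (spl (Up 0) τ τ') q.edges = SW τ' q.edges :=
        SW_congr fun e he => spl_notMem τ τ' (h2 e he)
      refine hτ' ?_
      show TA (Up (-1)) (spl (Up 0) τ τ') (-e0) v ≤ s + 10 * p.b * (L + 1)
      linarith
  linarith

end HALF5

theorem bHALF5 (hA : St_HALFA) : St_HALF5 := by
  intro p
  obtain ⟨C, L₁, hC, hL₁, hA⟩ := hA p
  have hc := p.c_pos
  have hb := p.b_pos
  have hpL : (0 : ℝ) ≤ p.L := Nat.cast_nonneg _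
  have h20 : 0 < 20 / p.c := by positivity
  obtain ⟨K, hK⟩ : ∃ K : ℝ, K = L₁ + p.L + 20 / p.c + 10 * C := ⟨_, rfl⟩
  have hK1 : 1 ≤ K := by linarith
  refine ⟨(5 + 10 * p.b * (K + 1)) * (1 + 2 * p.b), 1 + 4 * (p.b / p.c), by positivity,
    by positivity, fun d M σ Y g hσ hV v hv hM hY => ?_⟩
  obtain ⟨w, hw⟩ : ∃ w : V, w = v + -e0 := ⟨_, rfl⟩
  have w0 : w 0 = v 0 - 1 := by simp [hw, sub_eq_add_neg]
  have hw0 : 0 ≤ w 0 := by omega
  have hn : n1 w + 1 = n1 v := by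
    have a1 : (1 : ℝ) ≤ v 0 := by exact_mod_cast hv
    have a2 : w 1 = v 1 := by simp [hw]
    have a3 : w 2 = v 2 := by simp [hw]
    unfold n1
    rw [w0, a2, a3, Int.cast_sub, Int.cast_one, abs_of_nonneg (by linarith),
      abs_of_nonneg (by linarith : (0 : ℝ) ≤ v 0)]
    ring
  have hnw := n1_nonneg w
  have hgv := g.G1 v (by omega) hM
  have hgw := g.G1 w hw0 (by omega)
  have hlip : p.g d w ≤ p.g d v + 2 * p.b := by
    have := g.g_lip v (-e0)
    rwa [← hw, n1_neg, n1_e0, mul_one] at this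
  obtain ⟨L, hL⟩ : ∃ L : ℝ, L = K * (p.g d w + σ) := ⟨_, rfl⟩
  have hKL : K ≤ L := hL ▸ le_mul_of_one_le_right (by linarith) (by linarith)
  have hKσ : K * σ ≤ L := hL ▸ mul_le_mul_of_nonneg_left (by linarith) (by linarith)
  have hcL : 4 * (p.g d w + 5 * σ) ≤ p.c * L := by
    have a1 : 20 / p.c * (p.g d w + σ) ≤ L :=
      hL ▸ mul_le_mul_of_nonneg_right (by linarith) (by linarith)
    rw [div_mul_eq_mul_div, div_le_iff₀ hc] at a1
    linarith
  have hq : 0 < p.b / p.c := by positivity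
  have hX : n1 w + 2 * (2 * (p.b / p.c) * n1 w) + 1 ≤ (1 + 4 * (p.b / p.c)) * Y := by
    have := mul_le_mul_of_nonneg_left (show n1 w ≤ Y by linarith) hq.le
    linarith
  have hB := hA d M σ w L (2 * (p.b / p.c) * n1 w) _ g hw0 (by omega) (by linarith) hV hX
  have hB' : C * σ ^ 2 / L ^ 2 ≤ 1 / 10 := by
    have a1 : (K * σ) ^ 2 ≤ L ^ 2 := pow_le_pow_left₀ (by positivity) hKσ 2
    have a2 : 10 * C ≤ K ^ 2 := by nlinarith
    have a3 := mul_le_mul_of_nonneg_right a2 (sq_nonneg σ)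
    rw [div_le_iff₀ (pow_pos (by linarith) 2)]
    rw [mul_pow] at a1
    linarith
  have hH : p.pr {τ | p.h (w - 0) + 4 * σ ≤ T τ 0 w} ≤ 1 / 16 := by
    refine (hV.high 0 w ?_ (by positivity)).trans (le_of_eq ?_)
    · rw [sub_zero]
      have := mul_nonneg hq.le hnw
      linarith
    · field_simp
      norm_num
  have hsub := p.pr_mono
    (A := {τ | ∃ u : V, u 0 = 0 ∧ n1 u ≤ L ∧ TA (Up 0) τ u w ≤ d.ρ w + p.g d w + 5 * σ}ᶜ)
    (B := ({τ | p.h (w - 0) + 4 * σ ≤ T τ 0 w} ∪ Kes p.c p.L) ∪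
      {τ | ∃ u : V, u 0 = 0 ∧ L ≤ n1 u ∧ n1 u ≤ 2 * (p.b / p.c) * n1 w ∧
        TA (Up 0) τ u w - d.ρ (w - u) ≤ -(p.c / 4 * n1 u)})
    fun τ hτ => by
      by_cases h : p.h (w - 0) + 4 * σ ≤ T τ 0 w
      · exact Or.inl (Or.inl h)
      by_cases h' : τ ∈ Kes p.c p.L
      · exact Or.inl (Or.inr h')
      rw [sub_zero, not_le] at h
      rcases HALF5.alt p g w hw0 hgw τ hσ (by linarith) hcL h' h with ⟨u, h1, h2, h3⟩ | h1
      · exact absurd ⟨u, h1, h2, by linarith⟩ hτ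
      · exact Or.inr h1
  have h1 := p.one_le_pr_add
    {τ | ∃ u : V, u 0 = 0 ∧ n1 u ≤ L ∧ TA (Up 0) τ u w ≤ d.ρ w + p.g d w + 5 * σ}
  have h2 := hsub.trans ((p.pr_union_le _ _).trans (add_le_add (p.pr_union_le _ _) le_rfl))
  have h3 := HALF5.join p w hw0 (L := L) (s := d.ρ w + p.g d w + 5 * σ) (by linarith)
  have h4 := p.kes
  rw [← p.pr_sh (-e0)]
  refine le_trans (by linarith) (p.pr_mono
    (A := {τ | TA (Up (-1)) τ (-e0) w ≤ d.ρ w + p.g d w + 5 * σ + 10 * p.b * (L + 1)})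
    fun τ hτ => ?_)
  have a1 : TA (Up (-1)) τ (-e0) w ≤ d.ρ w + p.g d w + 5 * σ + 10 * p.b * (L + 1) := hτ
  have a2 := TA_sh_Up (-e0) (j := 0) τ (u := 0) (v := v) le_rfl (by omega)
  rw [← hw, zero_add, zero_add, show (-e0) 0 = -1 by simp] at a2
  have a3 : d.ρ w ≤ d.ρ v := by
    have := g.ρ0_nonneg
    rw [hw, d.ρ_add]
    simp [Dat.ρ, this]
  have a4 : p.g d w + σ ≤ (1 + 2 * p.b) * (p.g d v + σ) := by nlinarith
  have a5 : 10 * p.b * (L + 1) ≤ 10 * p.b * ((K + 1) * (p.g d w + σ)) :=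
    mul_le_mul_of_nonneg_left (by linarith) (by positivity)
  have a6 := mul_le_mul_of_nonneg_left a4
    (show 0 ≤ 5 + 10 * p.b * (K + 1) by positivity)
  show TA (Up 0) (sh (-e0) τ) 0 v - d.ρ v ≤
    (5 + 10 * p.b * (K + 1)) * (1 + 2 * p.b) * (p.g d v + σ)
  rw [a2]
  linarith

end Pool.Agent.Lib.V5
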