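import Pool.Agent.Lib.V5.Base
import Pool.Agent.Lib.V3.B_HALF

/-! Row HALFA: far sites of the plane through the origin are rarely much ahead of the functional. -/

namespace Pool.Agent.Lib.V5

open MeasureTheory ProbabilityTheory Finset SimpleGraph Pool.Agent.Lib.V3
open scoped NNReal ENNReal

namespace HALFA

/-- grid point of the plane below the origin -/
def gz (M : ℕ) (w : ℤ × ℤ) : V := pt (-1) (M * w.1) (M * w.2)

/-- a short route below the upper half space -/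
theorem route {u z : V} (hu : u 0 = 0) (hz : z 0 = -1) :
    ∃ l : List (Sym2 V), (l.length : ℝ) = n1 (u - z) ∧ (∀ e ∈ l, e ∉ Up 0) ∧
      ∀ τ : Cfg, T τ z u ≤ SW τ l := by
  obtain ⟨q, hq, hb⟩ := exists_walk_box z (u - e0)
  refine ⟨ed (u - e0) :: q.edges, ?_, fun e he => ?_, fun τ => ?_⟩
  · rw [List.length_cons, Walk.length_edges]
    push_cast
    rw [hq]
    simp [n1, hu, hz]
    ring
  · rcases List.mem_cons.1 he with rfl | he
    · intro h
      have := h (u - e0) (Sym2.mem_mk_left _ _)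
      simp [hu] at this
    · intro h
      refine notMem_Lo_of_Up (j := -1) (by simpa using h) (edges_mem_Lo q (fun y hy => ?_) e he)
      have := (hb y hy 0).2
      simpa [hu, hz] using this
  · have h1 := T_tri τ z (u - e0) u
    have h2 := T_ed τ (u - e0)
    rw [sub_add_cancel] at h2
    rw [SW_cons]
    linarith [T_le_SW τ q]

/-- the grid point next to a far site -/
theorem near (D m N : ℕ) (hD : 2 ≤ D) (hm : 0 < m) {u : V} (hu : u 0 = 0)
    (h1 : (D : ℝ) * m ≤ n1 u) (hN : n1 u < N) :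
    ∃ i ∈ range N, ∃ w ∈ Finset.Icc (-(2 * D : ℤ)) (2 * D) ×ˢ Finset.Icc (-(2 * D : ℤ)) (2 * D),
      n1 (u - gz (2 ^ i * m) w) ≤ 1 + 2 * (2 ^ i * m) ∧ (D : ℝ) * (2 ^ i * m) ≤ n1 u := by
  have hD2 : (2 : ℝ) ≤ D := by exact_mod_cast hD
  have hm1 : (1 : ℝ) ≤ m := by exact_mod_cast hm
  have hL : (1 : ℝ) ≤ D * m := by nlinarith
  obtain ⟨i, hi, hi'⟩ := exists_nat_pow_near (x := n1 u / (D * m)) (y := 2)
    ((one_le_div (by linarith)).2 h1) one_lt_two
  rw [le_div_iff₀ (by linarith)] at hi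
  rw [div_lt_iff₀ (by linarith), pow_succ] at hi'
  have hp1 : (1 : ℝ) ≤ 2 ^ i := one_le_pow₀ one_le_two
  have hiN : i < N := by
    have a1 : (i : ℝ) < 2 ^ i := by exact_mod_cast Nat.lt_two_pow_self
    have a2 : (2 : ℝ) ^ i ≤ 2 ^ i * (D * m) := le_mul_of_one_le_right (by linarith) hL
    have : (i : ℝ) < N := by linarith
    exact_mod_cast this
  have hMr : ((2 ^ i * m : ℕ) : ℝ) = 2 ^ i * m := by push_cast; ring
  have hM0 : 0 < 2 ^ i * m := Nat.mul_pos (Nat.two_pow_pos i) hm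
  have hn : n1 u = |(u 1 : ℝ)| + |(u 2 : ℝ)| := by simp [n1, hu]
  have a1 := abs_nonneg (u 1 : ℝ)
  have a2 := abs_nonneg (u 2 : ℝ)
  have e1 : (2 : ℝ) ^ i * 2 * (D * m) = 2 * D * ((2 ^ i * m : ℕ) : ℝ) := by rw [hMr]; ring
  rw [e1] at hi'
  obtain ⟨w1, hw1, k1⟩ := HALF.round (2 ^ i * m) D hM0 (u 1) (by linarith)
  obtain ⟨w2, hw2, k2⟩ := HALF.round (2 ^ i * m) D hM0 (u 2) (by linarith)
  refine ⟨i, mem_range.2 hiN, (w1, w2), mem_product.2 ⟨hw1, hw2⟩, ?_, by linarith⟩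
  rw [← hMr]
  simp only [n1, gz, Pi.sub_apply, pt_zero, pt_one, pt_two, hu, zero_sub, neg_neg, Int.cast_one,
    abs_one, Int.cast_sub, Int.cast_mul, Int.cast_natCast]
  linarith

/-- the lower tail event at a grid point -/
def E (p : Sys) (v z : V) (X t : ℝ) : Set Cfg :=
  {τ | n1 (v - z) ≤ X ∧ T τ z v ≤ p.h (v - z) - t}

theorem E_meas (p : Sys) (v z : V) (X t : ℝ) : MeasurableSet (E p v z X t) :=
  (MeasurableSet.const _).inter (measurableSet_le (T_meas z v) measurable_const)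

theorem E_le {p : Sys} {σ X : ℝ} (hV : p.VarM σ X) (v z : V) {t : ℝ} (ht : 0 < t) :
    p.pr (E p v z X t) ≤ σ ^ 2 / t ^ 2 := by
  by_cases h : n1 (v - z) ≤ X
  · exact (p.pr_mono fun τ hτ => hτ.2).trans (hV.low z v h ht)
  · rw [p.pr_eq_zero fun τ hτ => h hτ.1]
    positivity

/-- given the weights of the upper half space, the grid point is ahead with probability `1 / 2` -/
theorem half {p : Sys} {M : ℕ} {d : Dat} (g : p.Good M d) {u v z : V} (hv : 0 ≤ v 0)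
    (hM : v 0 + 1 ≤ M) (hu : u 0 = 0) (hz : z 0 = -1) {k D X : ℝ} (hk : 1 ≤ k)
    (hD : 72 * p.b ≤ p.c * D) (h1 : n1 (u - z) ≤ 1 + 2 * k) (h2 : D * k ≤ n1 u)
    (hX : n1 (v - z) ≤ X) {τ : Cfg}
    (hτ : TA (Up 0) τ u v - d.ρ (v - u) ≤ -(p.c / 4 * n1 u)) :
    1 / 2 ≤ p.pr {τ' | spl (Up 0) τ τ' ∈ E p v z X (p.c / 8 * (D * k))} := by
  have hb := p.b_pos
  have hc := p.c_pos
  obtain ⟨l, hl, hU, hT⟩ := route hu hz
  have m1 := p.markov_SW l (t := 6 * p.b * k) (by positivity)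
  have m2 : p.b * l.length / (6 * p.b * k) ≤ 1 / 2 := by
    rw [div_le_iff₀ (by positivity), hl]
    nlinarith
  have m3 := p.one_le_pr_add {τ' | 6 * p.b * k ≤ SW τ' l}
  have m4 : p.pr {τ' | 6 * p.b * k ≤ SW τ' l}ᶜ ≤
      p.pr {τ' | spl (Up 0) τ τ' ∈ E p v z X (p.c / 8 * (D * k))} :=
    p.pr_mono fun τ' h' => by
      have a0 : SW τ' l < 6 * p.b * k := not_le.1 h'
      have a1 := hT (spl (Up 0) τ τ')
      rw [SW_congr (τ' := τ') fun e he => spl_notMem τ τ' (hU e he)] at a1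
      have a2 := T_le_TA (conn_Up (j := 0) hu.ge hv) (spl (Up 0) τ τ')
      rw [TA_congr (τ' := τ) fun e he => spl_mem τ τ' he] at a2
      have a3 := T_tri (spl (Up 0) τ τ') z u v
      have a4 := g.G1 (v - z) (by simp only [Pi.sub_apply]; omega)
        (by simp only [Pi.sub_apply]; omega)
      have a5 := (abs_le.1 (g.abs_ρ (u - z))).1
      have a6 : d.ρ (v - z) = d.ρ (v - u) + d.ρ (u - z) := by rw [← d.ρ_add, sub_add_sub_cancel]
      have a7 := mul_le_mul_of_nonneg_left (h1.trans (by linarith : 1 + 2 * k ≤ 3 * k)) hb.le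
      have a8 := mul_le_mul_of_nonneg_left h2 hc.le
      have a9 := mul_le_mul_of_nonneg_right hD (by linarith : 0 ≤ k)
      unfold Sys.g at a4
      exact ⟨hX, by linarith⟩
  linarith

end HALFA

open HALFA in
theorem bHALFA (_hS : St_SUM) : St_HALFA := by
  intro p
  have hb := p.b_pos
  have hc := p.c_pos
  obtain ⟨D, hD0⟩ := exists_nat_ge (72 * p.b / p.c)
  have hD : 72 * p.b ≤ p.c * D := by
    rw [div_le_iff₀ hc] at hD0
    linarith
  have hD2 : (2 : ℝ) ≤ D := by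
    by_contra h
    nlinarith [p.c_le]
  refine ⟨25600 * D ^ 2 / p.c ^ 2, D, by positivity, by linarith,
    fun d M σ v L U X g hv hM hL hV hX => ?_⟩
  have hDp : (0 : ℝ) < D := by linarith
  obtain ⟨m, hm1, hm2, hm3⟩ : ∃ m : ℕ, 0 < m ∧ (D : ℝ) * m ≤ L ∧ L ≤ 2 * (D * m) := by
    have a1 : 1 ≤ L / D := (one_le_div hDp).2 hL
    have a2 := Nat.floor_le (zero_le_one.trans a1)
    have a3 := Nat.lt_floor_add_one (L / D)
    have a4 : 0 < ⌊L / D⌋₊ := Nat.floor_pos.2 a1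
    have a5 : (1 : ℝ) ≤ ⌊L / D⌋₊ := by exact_mod_cast a4
    rw [le_div_iff₀ hDp] at a2
    rw [div_lt_iff₀ hDp] at a3
    exact ⟨_, a4, by linarith, by nlinarith⟩
  have hmr : (1 : ℝ) ≤ m := by exact_mod_cast hm1
  obtain ⟨N, hN⟩ := exists_nat_gt U
  set I := Finset.Icc (-(2 * D : ℤ)) (2 * D) with hI
  have hIc : (I.card : ℝ) ≤ 5 * D := by
    have a1 : (I.card : ℤ) = 4 * D + 1 := by
      rw [hI, Int.card_Icc_of_le _ _ (by omega)]
      ring
    have a2 : (I.card : ℝ) = 4 * D + 1 := by exact_mod_cast a1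
    linarith
  set B : Set Cfg := ⋃ i ∈ range N, ⋃ w ∈ I ×ˢ I,
    E p v (gz (2 ^ i * m) w) X (p.c / 8 * (D * (2 ^ i * m))) with hB
  have hBm : MeasurableSet B :=
    Finset.measurableSet_biUnion _ fun i _ => Finset.measurableSet_biUnion _ fun w _ =>
      E_meas p v _ X _
  have hE2 : ∀ i : ℕ, p.pr (⋃ w ∈ I ×ˢ I,
      E p v (gz (2 ^ i * m) w) X (p.c / 8 * (D * (2 ^ i * m)))) ≤
      1600 * σ ^ 2 / (p.c * m) ^ 2 * (1 / 2) ^ i := by
    intro i
    refine (p.pr_biUnion_le _ _).trans ((sum_le_card_nsmul _ _ _ fun w _ =>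
      E_le hV v _ (by positivity)).trans ?_)
    rw [card_product, nsmul_eq_mul, Nat.cast_mul, ← mul_div_assoc, div_le_iff₀ (by positivity)]
    have hp1 : (1 : ℝ) ≤ 2 ^ i := one_le_pow₀ one_le_two
    have a1 : (I.card : ℝ) * I.card ≤ (5 * D) * (5 * D) :=
      mul_le_mul hIc hIc (Nat.cast_nonneg _) (by positivity)
    have a3 : 1600 * σ ^ 2 / (p.c * m) ^ 2 * (1 / 2 : ℝ) ^ i * (p.c / 8 * (D * (2 ^ i * m))) ^ 2 =
        2 ^ i * (5 * D * (5 * D) * σ ^ 2) := by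
      rw [one_div_pow]
      field_simp
      ring
    rw [a3]
    exact (mul_le_mul_of_nonneg_right a1 (sq_nonneg σ)).trans
      (le_mul_of_one_le_left (by positivity) hp1)
  have hE3 : p.pr B ≤ 1600 * σ ^ 2 / (p.c * m) ^ 2 * 2 := by
    refine (p.pr_biUnion_le _ _).trans ((sum_le_sum fun i _ => hE2 i).trans ?_)
    rw [← mul_sum]
    exact mul_le_mul_of_nonneg_left (sum_geometric_two_le N) (by positivity)
  have key := p.cond (Up 0) (Nice.ind hBm)
    (fun τ => Set.indicator_nonneg (fun _ _ => zero_le_one) τ)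
    {τ | ∃ u : V, u 0 = 0 ∧ L ≤ n1 u ∧ n1 u ≤ U ∧
      TA (Up 0) τ u v - d.ρ (v - u) ≤ -(p.c / 4 * n1 u)} (c := 1 / 2) (by norm_num)
    (by
      rintro τ ⟨u, hu, h1, h2, h3⟩
      obtain ⟨i, hi, w, hw, k1, k2⟩ := near D m N (by exact_mod_cast hD2) hm1 hu (hm2.trans h1)
        (h2.trans_lt hN)
      have hk : (1 : ℝ) ≤ 2 ^ i * m := one_le_mul_of_one_le_of_one_le (one_le_pow₀ one_le_two) hmr
      have hX' : n1 (v - gz (2 ^ i * m) w) ≤ X := by
        have b1 := n1_tri (gz (2 ^ i * m) w) u v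
        have b2 := n1_add_le v (-u)
        rw [n1_neg, ← sub_eq_add_neg] at b2
        have b3 := mul_le_mul_of_nonneg_right hD2 (zero_le_one.trans hk)
        linarith
      refine (half g hv hM hu rfl hk hD k1 k2 hX' h3).trans ?_
      have e : (fun τ' => B.indicator (fun _ => (1 : ℝ)) (spl (Up 0) τ τ')) =
          ((fun τ' => spl (Up 0) τ τ') ⁻¹' B).indicator fun _ => (1 : ℝ) := rfl
      rw [e, p.int_ind (meas_spl_right _ τ hBm)]
      exact p.pr_mono fun τ' h' => Set.mem_biUnion hi (Set.mem_biUnion hw h'))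
  rw [p.int_ind hBm] at key
  have hL0 : 0 < L := by linarith
  have fin : 1600 * σ ^ 2 / (p.c * m) ^ 2 * 4 ≤ 25600 * D ^ 2 / p.c ^ 2 * σ ^ 2 / L ^ 2 := by
    rw [le_div_iff₀ (by positivity)]
    have a1 : L ^ 2 ≤ (2 * (D * m)) ^ 2 := pow_le_pow_left₀ hL0.le hm3 2
    refine (mul_le_mul_of_nonneg_left a1 (by positivity)).trans (le_of_eq ?_)
    field_simp
    ring
  linarith

end Pool.Agent.Lib.V5
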