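import Pool.Agent.Lib.V5.Base

/-! Block LOW0: no site of a plane is reached much faster than its mean passage time. -/

namespace Pool.Agent.Lib.V5

open MeasureTheory ProbabilityTheory Finset SimpleGraph Pool.Agent.Lib.V3
open scoped NNReal ENNReal

namespace LOW0

/-- a route from a site to the next plane, off the lower half space -/
theorem route (y z : V) (hz : z 0 = y 0 + 1) : ∃ q : G.Walk y z,
    (q.length : ℝ) = n1 (z - (y + e0)) + 1 ∧ ∀ e ∈ q.edges, e ∉ Lo (y 0) := by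
  obtain ⟨q, hq, hb⟩ := exists_walk_box (y + e0) z
  refine ⟨Walk.cons (adj_e0 y) q, by rw [Walk.length_cons, Nat.cast_succ, hq], fun e he => ?_⟩
  rw [Walk.edges_cons, List.mem_cons] at he
  rcases he with rfl | he
  · exact ed_notMem_Lo le_rfl
  · refine notMem_Lo_of_Up (edges_mem_Up q (fun x hx => ?_) e he)
    have := (hb x hx 0).1
    simp only [Pi.add_apply, e0_zero, hz] at this
    omega

/-- given the lower half space, a near site of the next plane is reached fast -/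
theorem one (p : Sys) (τ : Cfg) (y z : V) (hy : 0 ≤ y 0) (hz : z 0 = y 0 + 1) {l : ℝ}
    (hl : n1 (z - (y + e0)) + 1 ≤ l) (E : Set Cfg)
    (hE : ∀ τ', T τ' 0 z ≤ TA (Lo (y 0)) τ 0 y + 2 * p.b * l → τ' ∈ E) :
    1 / 2 ≤ p.pr (spl (Lo (y 0)) τ ⁻¹' E) := by
  have hb := p.b_pos
  obtain ⟨q, hq, h2⟩ := route y z hz
  have ht : 0 < 2 * p.b * l := by
    have := n1_nonneg (z - (y + e0))
    have : 0 < l := by linarith
    positivity
  have h3 := p.markov_SW q.edges ht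
  have h4 : p.b * q.edges.length / (2 * p.b * l) ≤ 1 / 2 := by
    rw [Walk.length_edges, hq, div_le_iff₀ ht]
    nlinarith
  have h5 := p.one_le_pr_add (spl (Lo (y 0)) τ ⁻¹' E)
  have h6 := p.pr_mono (A := (spl (Lo (y 0)) τ ⁻¹' E)ᶜ)
    (B := {τ' | 2 * p.b * l ≤ SW τ' q.edges}) fun τ' hτ' => by
      by_contra h
      have a1 : SW τ' q.edges < 2 * p.b * l := not_le.1 h
      have a2 := T_tri (spl (Lo (y 0)) τ τ') 0 y z
      have a3 := T_le_TA (conn_Lo (j := y 0) (u := 0) hy le_rfl) (spl (Lo (y 0)) τ τ')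
      have a4 : TA (Lo (y 0)) (spl (Lo (y 0)) τ τ') 0 y = TA (Lo (y 0)) τ 0 y :=
        TA_congr (fun e he => spl_mem τ τ' he) 0 y
      have a5 : SW (spl (Lo (y 0)) τ τ') q.edges = SW τ' q.edges :=
        SW_congr fun e he => spl_notMem τ τ' (h2 e he)
      have a6 := T_le_SW (spl (Lo (y 0)) τ τ') q
      exact hτ' (hE _ (by linarith))
  linarith

/-- the site `z` is near and is reached fast -/
def Bad (p : Sys) (X t : ℝ) (z : V) : Set Cfg := {τ | n1 z ≤ X ∧ T τ 0 z ≤ p.h z - t}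

theorem bad_meas (p : Sys) (X t : ℝ) (z : V) : MeasurableSet (Bad p X t z) :=
  (MeasurableSet.const _).inter (measurableSet_le (T_meas _ _) measurable_const)

theorem bad_le (p : Sys) {σ X t : ℝ} (hV : p.VarM σ X) (ht : 0 < t) (z : V) :
    p.pr (Bad p X t z) ≤ σ ^ 2 / t ^ 2 := by
  by_cases h : n1 z ≤ X
  · have := hV.low 0 z (by rwa [sub_zero]) ht
    rw [sub_zero] at this
    exact (p.pr_mono fun τ hτ => hτ.2).trans this
  · rw [p.pr_eq_zero fun τ hτ => h hτ.1]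
    positivity

/-- conditioning on `A` for a counting function -/
theorem count {ι : Type} (p : Par) (A : Set (Sym2 V)) (s : Finset ι) (E : ι → Set Cfg)
    (hE : ∀ i, MeasurableSet (E i)) (B : Set Cfg) {c : ℝ} (hc : 0 ≤ c)
    (h : ∀ τ ∈ B, c ≤ ∑ i ∈ s, p.pr (spl A τ ⁻¹' E i)) : c * p.pr B ≤ ∑ i ∈ s, p.pr (E i) := by
  have e0 : ∀ F : ι → Set Cfg, (∀ i, MeasurableSet (F i)) →
      ∫ τ, ∑ i ∈ s, (F i).indicator (fun _ => (1 : ℝ)) τ ∂p.P = ∑ i ∈ s, p.pr (F i) := by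
    intro F hF
    rw [integral_finsetSum _ fun i _ => (Nice.ind (hF i)).int _]
    exact sum_congr rfl fun i _ => p.int_ind (hF i)
  rw [← e0 E hE]
  refine p.cond A (Nice.sum s fun i _ => Nice.ind (hE i))
    (fun τ => sum_nonneg fun i _ => Set.indicator_nonneg (fun _ _ => zero_le_one) τ) B hc
    fun τ hτ => (h τ hτ).trans (le_of_eq ?_)
  rw [← e0 _ fun i => meas_spl_right A τ (hE i)]
  rfl

end LOW0

theorem bLOW0 : St_LOW0 := by
  intro p
  have hb := p.b_pos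
  have hD := p.three_le_D
  refine ⟨15 * (2 * p.D + 7) + 15 * p.b, p.D + 5, by positivity, by positivity,
    fun σ n j hσ hn hV hj => ?_⟩
  have hn1 : (1 : ℝ) ≤ n := hσ.trans hn
  obtain ⟨s, hs⟩ : ∃ s : ℝ, s = √(σ * n) := ⟨_, rfl⟩
  have hs2 : s ^ 2 = σ * n := by rw [hs, Real.sq_sqrt (by positivity)]
  have hs0 : 0 ≤ s := hs ▸ Real.sqrt_nonneg _
  have hs1 : 1 ≤ s := by
    by_contra h
    nlinarith
  have hsn : s ≤ n := by
    by_contra h
    nlinarith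
  rw [← hs]
  obtain ⟨m, hm1, hm2⟩ : ∃ m : ℕ, s ≤ m ∧ (m : ℝ) ≤ 2 * s :=
    ⟨⌈s⌉₊, Nat.le_ceil _, by linarith [Nat.ceil_lt_add_one hs0]⟩
  obtain ⟨N, hN1, hN2⟩ : ∃ N : ℕ, (p.D + 2) * n ≤ N ∧ (N : ℝ) ≤ (p.D + 3) * n :=
    ⟨⌈(p.D + 2) * n⌉₊, Nat.le_ceil _, by
      linarith [Nat.ceil_lt_add_one (a := (p.D + 2) * n) (by positivity)]⟩
  have ht : 0 < 15 * (2 * p.D + 7) * s := by positivity
  obtain ⟨I, hI⟩ : ∃ I : Finset ℤ, I = Finset.Icc (-(N : ℤ)) N := ⟨_, rfl⟩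
  have hIc : (I.card : ℝ) ≤ (2 * p.D + 7) * n := by
    have a1 : (I.card : ℤ) = 2 * N + 1 := by
      rw [hI, Int.card_Icc_of_le _ _ (by omega)]
      ring
    have a2 : (I.card : ℝ) = 2 * N + 1 := by exact_mod_cast a1
    linarith
  have key := LOW0.count p.toPar (Lo j) (I ×ˢ I)
    (fun w => LOW0.Bad p ((p.D + 5) * n) (15 * (2 * p.D + 7) * s) (pt (j + 1) w.1 w.2))
    (fun _ => LOW0.bad_meas _ _ _ _) (p.Low0 n j ((15 * (2 * p.D + 7) + 15 * p.b) * s))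
    (c := s ^ 2 / 2) (by positivity) ?_
  · have a1 := sum_le_card_nsmul (I ×ˢ I) _ _ fun w _ =>
      LOW0.bad_le p hV ht (pt (j + 1) w.1 w.2)
    rw [card_product, nsmul_eq_mul, Nat.cast_mul] at a1
    have a2 : (I.card : ℝ) * I.card ≤ (2 * p.D + 7) * n * ((2 * p.D + 7) * n) :=
      mul_le_mul hIc hIc (Nat.cast_nonneg _) (by positivity)
    have a3 := mul_le_mul_of_nonneg_right a2
      (show 0 ≤ σ ^ 2 / (15 * (2 * p.D + 7) * s) ^ 2 by positivity)
    have a4 : (2 * p.D + 7) * n * ((2 * p.D + 7) * n) * (σ ^ 2 / (15 * (2 * p.D + 7) * s) ^ 2) =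
        (σ * n) ^ 2 / (225 * s ^ 2) := by
      field_simp
      norm_num
    have a5 : (σ * n) ^ 2 / (225 * s ^ 2) = s ^ 2 / 225 := by
      rw [← hs2]
      field_simp
    have a6 : 0 < s ^ 2 := by positivity
    by_contra h
    nlinarith
  rintro τ ⟨y, rfl, hy, hT⟩
  have y0 := abs_nonneg (y 0 : ℝ)
  have y1 := abs_nonneg (y 1 : ℝ)
  have y2 := abs_nonneg (y 2 : ℝ)
  have hmem : ∀ a x : ℤ, |(a : ℝ)| ≤ p.D * n → x ∈ Finset.Ico a (a + m) →
      x ∈ I ∧ |(x : ℝ) - a| ≤ m := by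
    intro a x ha hx
    obtain ⟨b1, b2⟩ := Finset.mem_Ico.1 hx
    have c1 : (a : ℝ) ≤ x := by exact_mod_cast b1
    have c2 : (x : ℝ) < a + m := by exact_mod_cast b2
    obtain ⟨c3, c4⟩ := abs_le.1 ha
    have d1 : -(N : ℝ) ≤ x := by linarith
    have d2 : (x : ℝ) ≤ N := by linarith
    exact ⟨hI ▸ Finset.mem_Icc.2 ⟨by exact_mod_cast d1, by exact_mod_cast d2⟩,
      abs_le.2 ⟨by linarith, by linarith⟩⟩
  have k1 : |(y 1 : ℝ)| ≤ p.D * n := by unfold n1 at hy; linarith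
  have k2 : |(y 2 : ℝ)| ≤ p.D * n := by unfold n1 at hy; linarith
  refine le_trans ?_ (sum_le_sum_of_subset_of_nonneg
    (s := Finset.Ico (y 1) (y 1 + m) ×ˢ Finset.Ico (y 2) (y 2 + m))
    (fun w hw => mem_product.2 ⟨(hmem _ _ k1 (mem_product.1 hw).1).1,
      (hmem _ _ k2 (mem_product.1 hw).2).1⟩) fun _ _ _ => p.pr_nonneg _)
  refine le_trans ?_ (card_nsmul_le_sum _ _ (1 / 2 : ℝ) fun w hw => ?_)
  · rw [card_product, Int.card_Ico, Int.card_Ico, add_sub_cancel_left, add_sub_cancel_left,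
      Int.toNat_natCast, nsmul_eq_mul, Nat.cast_mul]
    nlinarith
  have b1 := (hmem _ _ k1 (mem_product.1 hw).1).2
  have b2 := (hmem _ _ k2 (mem_product.1 hw).2).2
  obtain ⟨z, hz⟩ : ∃ z : V, z = pt (y 0 + 1) w.1 w.2 := ⟨_, rfl⟩
  rw [← hz]
  have b3 : n1 (z - (y + e0)) ≤ 4 * s := by
    have : n1 (z - (y + e0)) = |(w.1 : ℝ) - y 1| + |(w.2 : ℝ) - y 2| := by simp [n1, hz]
    linarith
  have b4 : n1 (z - y) ≤ 5 * s := by
    have := n1_tri y (y + e0) z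
    rw [add_sub_cancel_left, n1_e0] at this
    linarith
  refine LOW0.one p τ y z hj (by simp [hz]) (l := 5 * s) (by linarith) _ fun τ' h => ⟨?_, ?_⟩
  · have := n1_tri 0 y z
    rw [sub_zero, sub_zero] at this
    linarith
  · have c1 := p.h_lip y z
    rw [n1_sub_comm] at c1
    have c2 := mul_le_mul_of_nonneg_left b4 hb.le
    linarith

end Pool.Agent.Lib.V5
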