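import Pool.Agent.Lib.V3.Prob

/-! Spreading a witness over many sites by conditioning on a half space. -/

namespace Pool.Agent.Lib.V5

open MeasureTheory ProbabilityTheory Filter Topology Finset Pool.Agent.Lib.V3
open scoped NNReal ENNReal

namespace SPR

/-- if every configuration of `B` makes many events `Z i` conditionally likely, `B` is rare;
neither `B` nor the witness need be measurable -/
lemma spread (p : Par) {ι : Type} (A : Set (Sym2 V)) (B : Set Cfg) (I : Finset ι) (w : ι → ℝ)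
    (Z : ι → Set Cfg) (hw : ∀ i ∈ I, 0 ≤ w i) (hZ : ∀ i ∈ I, MeasurableSet (Z i)) {c a : ℝ}
    (hc : 0 ≤ c)
    (h : ∀ τ ∈ B, ∃ S : Finset ι, S ⊆ I ∧ (∀ i ∈ S, a ≤ p.pr {τ' | spl A τ τ' ∈ Z i}) ∧
      c ≤ a * ∑ i ∈ S, w i) :
    c * p.pr B ≤ ∑ i ∈ I, w i * p.pr (Z i) := by
  have hn : ∀ i ∈ I, Nice fun τ => w i * (Z i).indicator (fun _ => (1 : ℝ)) τ :=
    fun i hi => (Nice.const _).mul (Nice.ind (hZ i hi))
  have key := p.cond A (Nice.sum I hn) (fun τ => sum_nonneg fun i hi =>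
    mul_nonneg (hw i hi) (Set.indicator_nonneg (fun _ _ => zero_le_one) _)) B hc (by
      intro τ hτ
      obtain ⟨S, hSI, hS, hcS⟩ := h τ hτ
      rw [integral_finsetSum _ fun i hi => ((hn i hi).comp (meas_spl_right A τ)).int _]
      have e : ∀ i ∈ I, ∫ τ', w i * (Z i).indicator (fun _ => (1 : ℝ)) (spl A τ τ') ∂p.P =
          w i * p.pr {τ' | spl A τ τ' ∈ Z i} := by
        intro i hi
        have hm : MeasurableSet {τ' | spl A τ τ' ∈ Z i} := meas_spl_right A τ (hZ i hi)
        rw [integral_const_mul, ← p.int_ind hm]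
        rfl
      rw [sum_congr rfl e]
      refine hcS.trans (le_trans ?_ (sum_le_sum_of_subset_of_nonneg hSI fun i hi _ =>
        mul_nonneg (hw i hi) (p.pr_nonneg _)))
      rw [mul_sum]
      refine sum_le_sum fun i hi => ?_
      rw [mul_comm]
      exact mul_le_mul_of_nonneg_left (hS i hi) (hw i (hSI hi)))
  refine key.trans_eq ?_
  rw [integral_finsetSum _ fun i hi => (hn i hi).int _]
  refine sum_congr rfl fun i hi => ?_
  rw [integral_const_mul, p.int_ind (hZ i hi)]

/-- one event -/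
lemma spread1 (p : Par) (A : Set (Sym2 V)) (B Z : Set Cfg) (hZ : MeasurableSet Z) {a : ℝ}
    (ha : 0 ≤ a) (h : ∀ τ ∈ B, a ≤ p.pr {τ' | spl A τ τ' ∈ Z}) : a * p.pr B ≤ p.pr Z := by
  have := spread p A B ({()} : Finset Unit) (fun _ => 1) (fun _ => Z) (fun _ _ => zero_le_one)
    (fun _ _ => hZ) (a := a) ha fun τ hτ => ⟨{()}, subset_rfl, fun _ _ => h τ hτ, by simp⟩
  simpa using this

end SPR

end Pool.Agent.Lib.V5
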