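import Pool.Agent.Lib.V5.Base
import Pool.Agent.Lib.V5.Blue
import Pool.Agent.Lib.V5.Spr8
import Pool.Agent.Lib.V3.LowK8

/-! A uniform lower tail bound on a whole plane, for general weight laws. -/

namespace Pool.Agent.Lib.V5

open MeasureTheory ProbabilityTheory Filter Topology Function Finset SimpleGraph
  Pool.Agent.Lib.V3
open scoped NNReal ENNReal

namespace LOW5

open LOW (idx eta_three pt_self abs_int)

/-- the passage time to `z` is unusually small -/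
def Bad (p : Sys) (t : ℝ) (z : V) : Set Cfg := {τ | T τ 0 z ≤ p.h z - t}

lemma bad_meas (p : Sys) (t : ℝ) (z : V) : MeasurableSet (Bad p t z) :=
  measurableSet_le (T_meas 0 z) measurable_const

lemma pr_bad (p : Sys) {z : V} {s t : ℝ} (hz : p.Vr z ≤ s) (ht : 0 < t) :
    p.pr (Bad p t z) ≤ s / t ^ 2 := by
  have h0 := p.cheb 0 z ht
  rw [sub_zero] at h0
  refine le_trans (p.pr_mono fun τ hτ => ?_)
    (h0.trans (div_le_div_of_nonneg_right hz (sq_nonneg t)))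
  have h1 : T τ 0 z ≤ p.h z - t := hτ
  show t ≤ |T τ 0 z - p.h z|
  exact le_abs.2 (Or.inr (by linarith))

lemma sum_bad (hS : St_SUM) (p : Sys) (d : Dat) {a l s : ℝ} (ha : 0 < a) (hal : a ≤ l)
    (hs : 0 ≤ s) (n : ℕ) (M : ℤ) (I : Finset (ℤ × ℤ × ℤ)) (hI : I ⊆ idx n M)
    (hV : ∀ t ∈ I, p.Vr (pt t.1 t.2.1 t.2.2) ≤ s) :
    ∑ t ∈ I, 1 * p.pr (Bad p (a * d.eta (pt t.1 t.2.1 t.2.2) + l) (pt t.1 t.2.1 t.2.2)) ≤
      6 * n * (s * (64 / (a * l))) := by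
  have h1 : ∀ t ∈ I,
      1 * p.pr (Bad p (a * d.eta (pt t.1 t.2.1 t.2.2) + l) (pt t.1 t.2.1 t.2.2)) ≤
        s * (1 / (a * (((t.2.1 : ℝ) - t.1 * d.θ1) ^ 2 + ((t.2.2 : ℝ) - t.1 * d.θ2) ^ 2)
          + l) ^ 2) := by
    intro t ht
    rw [one_mul, mul_one_div]
    have hp : 0 < a * d.eta (pt t.1 t.2.1 t.2.2) + l :=
      add_pos_of_nonneg_of_pos (mul_nonneg ha.le (d.eta_nonneg _)) (ha.trans_le hal)
    exact pr_bad p (hV t ht) hp
  refine (sum_le_sum h1).trans ((sum_le_sum_of_subset_of_nonneg hI fun _ _ _ =>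
    mul_nonneg hs (by positivity)).trans ?_)
  unfold idx
  rw [sum_product]
  have h2 : ∀ i ∈ Finset.Icc 1 (6 * (n : ℤ)),
      ∑ m ∈ Finset.Icc (-M) M ×ˢ Finset.Icc (-M) M,
        s * (1 / (a * (((m.1 : ℝ) - i * d.θ1) ^ 2 + ((m.2 : ℝ) - i * d.θ2) ^ 2)
          + l) ^ 2) ≤ s * (64 / (a * l)) := by
    intro i _
    rw [← mul_sum]
    exact mul_le_mul_of_nonneg_left (hS a l _ _ _ ha hal) hs
  refine (sum_le_sum h2).trans_eq ?_
  rw [sum_const, Int.card_Icc, nsmul_eq_mul]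
  have h3 : (6 * (n : ℤ) + 1 - 1).toNat = 6 * n := by omega
  rw [h3]
  push_cast
  ring

/-- the deterministic step: a low site of the plane and a good continuation give a bad site -/
lemma det {p : Sys} {d : Dat} {M : ℕ} (g : p.Good M d) {B L k lam : ℝ} {n : ℕ} {j : ℤ}
    {y v : V} {τ τ' : Cfg} (hl : B + 100 * p.b + k / 6 + p.R ^ 2 + L ≤ lam) (hn : 1 ≤ n)
    (hM : 6 * n ≤ M) (hkn : k ≤ n)
    (hv1 : (n : ℤ) ≤ 2 * v 0) (hv2 : v 0 ≤ 2 * n) (hv3 : p.g d v ≤ k) (hj : 0 ≤ j)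
    (hj3 : j ≤ 3 * n) (hy : y 0 = j) (hyD : n1 y ≤ p.D * n)
    (hA : A d j τ y ≤ d.ε / 36 * d.eta y / n - lam) :
    (|((v + (y + e0)) 1 : ℝ)| ≤ p.R * ((v + (y + e0)) 0 : ℤ) ∧
      |((v + (y + e0)) 2 : ℝ)| ≤ p.R * ((v + (y + e0)) 0 : ℤ)) ∧
    (TA (Up 0) (sh (y + e0) τ') 0 v - d.ρ v ≤ B → (τ' (ed y) : ℝ) ≤ 100 * p.b →
      spl (Lo j) τ τ' ∈
        Bad p (d.ε / (12 * n) * d.eta (v + (y + e0)) + L) (v + (y + e0))) := by
  have hb := p.b_pos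
  have hc := p.c_pos
  have hD := p.D_pos
  have hε : 0 < d.ε := g.ε_eq ▸ p.eps_pos
  have hε1 : d.ε ≤ 1 := g.ε_eq ▸ min_le_left _ _
  have hn' : (1 : ℝ) ≤ n := by exact_mod_cast hn
  have hv1' : (n : ℝ) ≤ 2 * v 0 := by exact_mod_cast hv1
  have hv2' : (v 0 : ℝ) ≤ 2 * n := by exact_mod_cast hv2
  have hy0 : (0 : ℝ) ≤ y 0 := by rw [hy]; exact_mod_cast hj
  have hy3 : (y 0 : ℝ) ≤ 3 * n := by rw [hy]; exact_mod_cast hj3
  have z0 : (v + (y + e0)) 0 = v 0 + (y 0 + 1) := rfl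
  have z0' : (((v + (y + e0)) 0 : ℤ) : ℝ) = v 0 + (y 0 + 1) := by rw [z0]; push_cast; ring
  have z1 : (((v + (y + e0)) 1 : ℤ) : ℝ) = v 1 + y 1 := by simp
  have z2 : (((v + (y + e0)) 2 : ℤ) : ℝ) = v 2 + y 2 := by simp
  have hvb := g.perp_le (n := n) (v := v) (by omega) hv2' (hv3.trans hkn)
  have hE : 0 ≤ 2 / p.c * (2 * p.b + 1) := by positivity
  have hR : p.R = 2 * (p.D + 2 / p.c * (2 * p.b + 1)) := by unfold Sys.R; ring
  generalize 2 / p.c * (2 * p.b + 1) = E at hvb hE hR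
  have cone : ∀ x t : ℝ, x ≤ (p.D + E) * n → (n : ℝ) ≤ 2 * t → x ≤ p.R * t := by
    intro x t h1 h2
    have := mul_le_mul_of_nonneg_left h2 (by linarith : 0 ≤ p.D + E)
    rw [hR]
    linarith
  unfold n1 at hyD
  have m0 := abs_nonneg (y 0 : ℝ)
  have m1 := abs_nonneg (y 1 : ℝ)
  have m2 := abs_nonneg (y 2 : ℝ)
  have m3 := abs_nonneg (v 1 : ℝ)
  have m4 := abs_nonneg (v 2 : ℝ)
  have m5 := abs_add_le (v 1 : ℝ) (y 1)
  have m6 := abs_add_le (v 2 : ℝ) (y 2)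
  have m7 := mul_nonneg hD.le (by linarith : (0 : ℝ) ≤ n)
  have cz1 : |((v + (y + e0)) 1 : ℝ)| ≤ p.R * ((v + (y + e0)) 0 : ℤ) := by
    rw [z1, z0']
    exact cone _ _ (by linarith) (by linarith)
  have cz2 : |((v + (y + e0)) 2 : ℝ)| ≤ p.R * ((v + (y + e0)) 0 : ℤ) := by
    rw [z2, z0']
    exact cone _ _ (by linarith) (by linarith)
  have hz6 : (((v + (y + e0)) 0 : ℤ) : ℝ) ≤ 6 * n := by rw [z0']; linarith
  refine ⟨⟨cz1, cz2⟩, fun hB he => ?_⟩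
  have hzp : 0 < (v + (y + e0)) 0 := by rw [z0]; omega
  have hzM : (v + (y + e0)) 0 ≤ M := by rw [z0]; omega
  have G2z := g.G2 _ hzp hzM cz1 cz2
  have G1z := g.G1 _ hzp.le hzM
  have G2v := g.G2 v (by omega) (by omega) (cone _ _ (by linarith) hv1')
    (cone _ _ (by linarith) hv1')
  have G1v := g.G1 v (by omega) (by omega)
  have hv : d.ε * d.eta v ≤ 2 * n * k :=
    G2v.trans (mul_le_mul hv2' hv3 G1v (by linarith))
  have hz : d.ε * d.eta (v + (y + e0)) ≤ 6 * n * p.g d (v + (y + e0)) :=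
    G2z.trans (mul_le_mul_of_nonneg_right hz6 G1z)
  have hth : d.θ1 ^ 2 + d.θ2 ^ 2 ≤ 2 * p.R ^ 2 := by
    have a1 := pow_le_pow_left₀ (abs_nonneg _) g.θ1_le 2
    have a2 := pow_le_pow_left₀ (abs_nonneg _) g.θ2_le 2
    rw [sq_abs] at a1 a2
    linarith
  have key := LOWK.arith hε hε1 hn' g.ρ0_nonneg hl hA hB (eta_three d y v) hv hth hz
  have e1 : TA (Up 0) (sh (y + e0) τ') 0 v =
      TA (Up (j + 1)) (spl (Lo j) τ τ') (y + e0) (v + (y + e0)) := by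
    have e : (0 : ℤ) + (y + e0) 0 = j + 1 := by rw [← hy]; simp
    rw [TA_sh_Up (y + e0) τ' (j := 0) (u := 0) (v := v) le_rfl (by omega), e, zero_add]
    exact TA_congr (fun e he => (spl_notMem _ _ (notMem_Lo_of_Up he)).symm) _ _
  have e2 : A d j τ y = TA (Lo j) (spl (Lo j) τ τ') 0 y - d.ρ y := by
    unfold A
    rw [TA_congr (fun e he => (spl_mem τ τ' he).symm)]
  have t1 := T_tri (spl (Lo j) τ τ') 0 (y + e0) (v + (y + e0))
  have t2 := T_tri (spl (Lo j) τ τ') 0 y (y + e0)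
  have t3 := T_ed (spl (Lo j) τ τ') y
  rw [spl_notMem τ τ' (ed_notMem_Lo hy.ge)] at t3
  have t4 := T_le_TA (conn_Lo (u := 0) (v := y) hj hy.le) (spl (Lo j) τ τ')
  have y0 : (y + e0) 0 = y 0 + 1 := rfl
  have t5 := T_le_TA (conn_Up (j := j + 1) (u := y + e0) (v := v + (y + e0))
    (by rw [y0]; omega) (by rw [z0]; omega)) (spl (Lo j) τ τ')
  have e3 : d.ρ (v + (y + e0)) = d.ρ v + (d.ρ y + d.ρ0) := by rw [d.ρ_add, d.ρ_add, d.ρ_e0]
  have e4 : p.g d (v + (y + e0)) = p.h (v + (y + e0)) - d.ρ (v + (y + e0)) := rfl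
  show T (spl (Lo j) τ τ') 0 (v + (y + e0)) ≤
    p.h (v + (y + e0)) - (d.ε / (12 * n) * d.eta (v + (y + e0)) + L)
  linarith

/-- one weight is rarely large -/
lemma pr_edge (p : Sys) (e : Sym2 V) : p.pr {τ | 100 * p.b ≤ (τ e : ℝ)} ≤ 1 / 100 := by
  have hb := p.b_pos
  refine (p.markov_w e (t := 100 * p.b) (by positivity)).trans_eq ?_
  field_simp

/-- the lower tail bound with free constants -/
lemma lowK (hS : St_SUM) {p : Sys} {d : Dat} {M : ℕ} (g : p.Good M d) {n : ℕ}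
    {k B L lam s : ℝ} {S : Finset V} {j : ℤ} (hn : 1 ≤ n) (hM : 6 * n ≤ M) (hkn : k ≤ n)
    (hL1 : 1 ≤ L) (hs : 0 ≤ s) (hl : B + 100 * p.b + k / 6 + p.R ^ 2 + L ≤ lam)
    (hSv : ∀ v ∈ S, (n : ℤ) ≤ 2 * v 0 ∧ v 0 ≤ 2 * n ∧ p.g d v ≤ k) (hj : 0 ≤ j) (hj3 : j ≤ 3 * n)
    (hV : ∀ z : V, 1 ≤ z 0 → z 0 ≤ 6 * n → |(z 1 : ℝ)| ≤ p.R * z 0 → |(z 2 : ℝ)| ≤ p.R * z 0 →
      p.Vr z ≤ s)
    (hH : ∀ v ∈ S, 1 / 2 ≤ p.pr {τ | TA (Up 0) τ 0 v - d.ρ v ≤ B}) :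
    (S.card : ℝ) * p.pr (p.Low d n j lam) * (d.ε * L) ≤ 18432 * s * n ^ 2 := by
  classical
  have hε : 0 < d.ε := g.ε_eq ▸ p.eps_pos
  have hε1 : d.ε ≤ 1 := g.ε_eq ▸ min_le_left _ _
  have hn' : (1 : ℝ) ≤ n := by exact_mod_cast hn
  have ha : 0 < d.ε / (12 * n) := by positivity
  have hal : d.ε / (12 * n) ≤ L := by
    refine le_trans ?_ hL1
    rw [div_le_one (by positivity)]
    linarith
  obtain ⟨I, hI⟩ : ∃ I : Finset (ℤ × ℤ × ℤ), ∀ t, t ∈ I ↔ t ∈ idx n ⌈p.R * (6 * n)⌉ ∧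
      |(t.2.1 : ℝ)| ≤ p.R * t.1 ∧ |(t.2.2 : ℝ)| ≤ p.R * t.1 :=
    ⟨(idx n ⌈p.R * (6 * n)⌉).filter fun t => |(t.2.1 : ℝ)| ≤ p.R * t.1 ∧
      |(t.2.2 : ℝ)| ≤ p.R * t.1, fun t => Finset.mem_filter⟩
  have hcond := SPR.spread p.toPar (Lo j) (p.Low d n j lam) I (fun _ => 1)
    (fun t => Bad p (d.ε / (12 * n) * d.eta (pt t.1 t.2.1 t.2.2) + L) (pt t.1 t.2.1 t.2.2))
    (fun _ _ => zero_le_one) (fun _ _ => bad_meas _ _ _) (c := (S.card : ℝ) / 4) (a := 1 / 4)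
    (by positivity) (by
      rintro τ ⟨y, hy, hyD, hA⟩
      have hi : Set.InjOn
          (fun v : V => ((v + (y + e0)) 0, (v + (y + e0)) 1, (v + (y + e0)) 2)) S := by
        intro v _ w _ h
        simp only [Prod.mk.injEq] at h
        exact add_right_cancel (vext h.1 h.2.1 h.2.2)
      refine ⟨S.image fun v : V => ((v + (y + e0)) 0, (v + (y + e0)) 1, (v + (y + e0)) 2),
        fun t ht => ?_, fun t ht => ?_, ?_⟩
      · obtain ⟨v, hv, rfl⟩ := Finset.mem_image.1 ht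
        obtain ⟨h1, h2, h3⟩ := hSv v hv
        have hd := (det g (τ' := τ) hl hn hM hkn h1 h2 h3 hj hj3 hy hyD hA).1
        have z0 : (v + (y + e0)) 0 = v 0 + (y 0 + 1) := rfl
        have hz : 1 ≤ (v + (y + e0)) 0 ∧ (v + (y + e0)) 0 ≤ 6 * (n : ℤ) := by
          rw [z0]
          omega
        have hz6 : (((v + (y + e0)) 0 : ℤ) : ℝ) ≤ 6 * n := by exact_mod_cast hz.2
        have hR6 := mul_le_mul_of_nonneg_left hz6 p.R_pos.le
        exact (hI _).2 ⟨Finset.mem_product.2 ⟨Finset.mem_Icc.2 hz, Finset.mem_product.2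
          ⟨abs_int (hd.1.trans hR6) (Int.le_ceil _),
            abs_int (hd.2.trans hR6) (Int.le_ceil _)⟩⟩, hd⟩
      · obtain ⟨v, hv, rfl⟩ := Finset.mem_image.1 ht
        obtain ⟨h1, h2, h3⟩ := hSv v hv
        simp only [pt_self]
        have a1 := hH v hv
        rw [← p.pr_sh (y + e0)] at a1
        have a2 := pr_edge p (ed y)
        have a3 := p.pr_union_le
          {τ' | spl (Lo j) τ τ' ∈
            Bad p (d.ε / (12 * n) * d.eta (v + (y + e0)) + L) (v + (y + e0))}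
          {τ' | 100 * p.b ≤ (τ' (ed y) : ℝ)}
        have a4 := a1.trans ((p.pr_mono fun τ' hτ' => by
          by_cases he : 100 * p.b ≤ (τ' (ed y) : ℝ)
          · exact Or.inr he
          · exact Or.inl ((det g (τ' := τ') hl hn hM hkn h1 h2 h3 hj hj3 hy hyD hA).2 hτ'
              (not_le.1 he).le)).trans a3)
        linarith
      · rw [sum_const, Finset.card_image_of_injOn hi, nsmul_eq_mul]
        linarith)
  have hup := hcond.trans (sum_bad hS p d ha hal hs n _ I (fun t ht => ((hI t).1 ht).1)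
    fun t ht => by
      obtain ⟨h1, h2, h3⟩ := (hI t).1 ht
      have h4 := Finset.mem_Icc.1 (Finset.mem_product.1 h1).1
      exact hV _ h4.1 h4.2 h2 h3)
  have e : 6 * (n : ℝ) * (s * (64 / (d.ε / (12 * n) * L))) = 4608 * s * n ^ 2 / (d.ε * L) := by
    field_simp
    ring
  have hεL : 0 < d.ε * L := by positivity
  rw [e, le_div_iff₀ hεL] at hup
  linarith

lemma main (hS : St_SUM) (p : Sys) {d : Dat} {M : ℕ} (g : p.Good M d) {a₁ L₀ σ : ℝ}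
    (h0 : 0 ≤ a₁) (hσ1 : 1 ≤ σ) (hL1 : 1 ≤ L₀) (hL2 : 2949120000 ≤ d.ε * p.c1 ^ 2 * L₀) (N : ℕ)
    (hM : 6 * N ≤ M) (hV : p.VarM σ ((6 + 12 * p.R) * N))
    (hH : p.Half d σ a₁ M ((6 + 12 * p.R) * N)) :
    p.LowB d σ (a₁ + 1 + p.R ^ 2 + 100 * p.b + L₀) N := by
  intro n k S j hn hN hk hkn hSv hcard hj hj3
  have hb := p.b_pos
  have hc := p.c_pos
  have hD := p.D_pos
  have hε : 0 < d.ε := g.ε_eq ▸ p.eps_pos
  have hR := p.R_pos
  have hs : 0 < σ := by linarith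
  have hs4 : σ ≤ σ ^ 4 := le_self_pow₀ hσ1 (by norm_num)
  have hs1 : 1 ≤ σ ^ 4 := hσ1.trans hs4
  have hn' : (1 : ℝ) ≤ n := by exact_mod_cast hn
  have hNn : (6 + 12 * p.R) * n ≤ (6 + 12 * p.R) * N :=
    mul_le_mul_of_nonneg_left (by exact_mod_cast hN) (by positivity)
  have hl : a₁ * (k + σ) + 100 * p.b + k / 6 + p.R ^ 2 + L₀ * σ ^ 4 ≤
      (a₁ + 1 + p.R ^ 2 + 100 * p.b + L₀) * (k + σ ^ 4) := by
    have a1 := mul_le_mul_of_nonneg_left hs4 h0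
    have a2 := mul_le_mul_of_nonneg_left hs1 hb.le
    have a3 := mul_le_mul_of_nonneg_left hs1 (sq_nonneg p.R)
    have a4 := mul_nonneg (sq_nonneg p.R) hk
    have a5 := mul_nonneg hb.le hk
    have a6 := mul_nonneg (zero_le_one.trans hL1) hk
    linarith
  have hup := lowK hS g hn (by omega) hkn (one_le_mul_of_one_le_of_one_le hL1 hs1) (sq_nonneg σ)
    hl hSv hj hj3 (fun z h0 h6 h1 h2 => hV z (le_trans (by
      have a0 : (1 : ℝ) ≤ z 0 := by exact_mod_cast h0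
      have a6 : (z 0 : ℝ) ≤ 6 * n := by exact_mod_cast h6
      have a7 := mul_le_mul_of_nonneg_left a6 hR.le
      unfold n1
      rw [abs_of_nonneg (by linarith : (0 : ℝ) ≤ z 0)]
      linarith) hNn)) fun v hv => by
      obtain ⟨h1, h2, h3⟩ := hSv v hv
      have hv1' : (n : ℝ) ≤ 2 * v 0 := by exact_mod_cast h1
      have hv2' : (v 0 : ℝ) ≤ 2 * n := by exact_mod_cast h2
      have hp := g.perp_le (n := n) (v := v) (by omega) hv2' (h3.trans hkn)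
      have hE : 2 / p.c * (2 * p.b + 1) ≤ p.R := by
        have a1 : 0 ≤ 2 / p.c * (2 * p.b + 1) := by positivity
        have a2 : p.R = 2 * (p.D + 2 / p.c * (2 * p.b + 1)) := by unfold Sys.R; ring
        linarith
      have hE2 := mul_le_mul_of_nonneg_right hE (by linarith : (0 : ℝ) ≤ n)
      have hE3 := mul_nonneg hR.le (by linarith : (0 : ℝ) ≤ n)
      have hv : n1 v ≤ (6 + 12 * p.R) * n := by
        unfold n1
        rw [abs_of_nonneg (by linarith : (0 : ℝ) ≤ v 0)]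
        linarith
      refine (hH v (by omega) (by omega) (hv.trans hNn)).trans (p.pr_mono fun τ hτ => ?_)
      have h4 : TA (Up 0) τ 0 v - d.ρ v ≤ a₁ * (p.g d v + σ) := hτ
      exact h4.trans (mul_le_mul_of_nonneg_left (by linarith) h0)
  have hP := p.pr_nonneg (p.Low d n j ((a₁ + 1 + p.R ^ 2 + 100 * p.b + L₀) * (k + σ ^ 4)))
  generalize p.pr (p.Low d n j ((a₁ + 1 + p.R ^ 2 + 100 * p.b + L₀) * (k + σ ^ 4))) = P
    at hup hP ⊢
  have hn2 : 0 < (n : ℝ) ^ 2 := by positivity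
  have hσ : 0 < σ ^ 2 := pow_pos hs 2
  have hL3 : 1843200 * σ ^ 2 ≤ d.ε * p.cS σ * (L₀ * σ ^ 4) := by
    have e : d.ε * p.cS σ * (L₀ * σ ^ 4) = d.ε * p.c1 ^ 2 * L₀ * σ ^ 2 / 1600 := by
      unfold Sys.cS
      field_simp
    rw [e]
    linarith [mul_le_mul_of_nonneg_right hL2 hσ.le]
  have hεL : 0 ≤ d.ε * (L₀ * σ ^ 4) := by positivity
  have a1 := mul_le_mul_of_nonneg_right hcard (mul_nonneg hP hεL)
  have a2 := mul_le_mul_of_nonneg_right hL3 (mul_nonneg hP hn2.le)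
  refine le_of_mul_le_mul_left ?_ (mul_pos hσ hn2)
  linarith

end LOW5

theorem bLOW5 (hS : St_SUM) : St_LOW5 := by
  intro p a₁ h0
  have hb := p.b_pos
  have hε := p.eps_pos
  have hR := p.R_pos
  have hc : 0 < p.eps * p.c1 ^ 2 := mul_pos hε (pow_pos p.c1_pos 2)
  obtain ⟨L₀, hL1, hL2⟩ : ∃ L₀ : ℝ, 1 ≤ L₀ ∧ 2949120000 ≤ p.eps * p.c1 ^ 2 * L₀ := by
    refine ⟨max 1 (2949120000 / (p.eps * p.c1 ^ 2)), le_max_left _ _, ?_⟩
    rw [← div_le_iff₀' hc]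
    exact le_max_right _ _
  exact ⟨a₁ + 1 + p.R ^ 2 + 100 * p.b + L₀, 6 + 12 * p.R, by positivity, by positivity,
    fun d M σ N g hσ hM hV hH => LOW5.main hS p g h0 hσ hL1 (g.ε_eq ▸ hL2) N hM hV hH⟩

end Pool.Agent.Lib.V5
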