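import Pool.Agent.Lib.V5.Base

/-! Blocks MAIN5 and RATE5: assembly of the rate for general weight laws. -/

namespace Pool.Agent.Lib.V5

open MeasureTheory ProbabilityTheory Filter Topology Pool.Agent.Lib.V3
open scoped NNReal ENNReal

theorem bMAIN5 (h1 : St_GEO5) (h2 : St_HALF5) (h3 : St_LOW5) (h4 : St_STEP5) (h5 : St_START5)
    (h6 : St_CHAIN2) (h7 : St_FINAL5) : St_MAIN5 := by
  intro p
  obtain ⟨a₁, Γ₁, a1, g1, hH⟩ := h2 p
  obtain ⟨a, Γ₂, a0, g2, hL⟩ := h3 p a₁ a1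
  obtain ⟨B, β₀, c, Γ₃, B0, β0, c0, g3, hS⟩ := h4 p a a0
  obtain ⟨C, Γ₅, w₀, C0, g5, hT⟩ := h5 p
  obtain ⟨c', Γ₄, c1, g4, hF⟩ := h7 p a₁ a (C + 5 * B) a1 a0
  obtain ⟨K, hK⟩ : ∃ K : ℝ, K = w₀ + c + ((C + 5 * B) / β₀) ^ 2 + 1 := ⟨_, rfl⟩
  have q0 : (0 : ℝ) ≤ w₀ := Nat.cast_nonneg _
  have q1 : 0 ≤ ((C + 5 * B) / β₀) ^ 2 := sq_nonneg _
  have K0 : 0 ≤ K := by rw [hK]; positivity
  refine ⟨K + c' + 2, 4 * (Γ₂ + Γ₃ + Γ₁ * Γ₂ + Γ₁ * Γ₄) + Γ₅, by positivity, by positivity,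
    fun σ w h hV => ?_⟩
  have s4 : 1 ≤ σ ^ 4 := one_le_pow₀ h
  have s2 : 1 ≤ σ ^ 2 := one_le_pow₀ h
  have s1 : σ ≤ σ ^ 4 := le_self_pow₀ h (by norm_num)
  have t1 : 0 ≤ c' * σ ^ 4 := by positivity
  have t2 : 0 ≤ K * σ ^ 4 := by positivity
  by_cases hw : (w : ℝ) ≤ K * σ ^ 4
  · refine hw.trans (le_trans ?_ (Real.add_one_le_exp _))
    linarith
  rw [not_le, hK] at hw
  have u0 : (w₀ : ℝ) * 1 ≤ w₀ * σ ^ 4 := mul_le_mul_of_nonneg_left s4 q0
  have u1 : 0 ≤ c * σ ^ 4 := by positivity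
  have u2 : 0 ≤ ((C + 5 * B) / β₀) ^ 2 * σ ^ 4 := by positivity
  have w0 : w₀ ≤ w := by exact_mod_cast (by linarith : (w₀ : ℝ) ≤ w)
  have w1 : (1 : ℝ) ≤ w := by linarith
  have w1' : 1 ≤ w := by exact_mod_cast w1
  have w2 : σ ≤ (w : ℝ) ^ 2 := le_trans (by linarith) (le_self_pow₀ w1 (by norm_num))
  have ww : w ≤ w ^ 4 := Nat.le_self_pow (by norm_num) w
  obtain ⟨d, g⟩ := h1 p (24 * w ^ 4) (by omega)
  have hN : ((4 * w ^ 4 : ℕ) : ℝ) = 4 * (w : ℝ) ^ 4 := by push_cast; ring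
  have W0 : 0 ≤ (w : ℝ) ^ 4 := by positivity
  have v1 := mul_nonneg g2 W0
  have v2 := mul_nonneg g3 W0
  have v3 := mul_nonneg (mul_nonneg g1 g2) W0
  have v4 := mul_nonneg (mul_nonneg g1 g4) W0
  have v5 := mul_nonneg g5 W0
  have hLow := hL d _ σ (4 * w ^ 4) g h (by omega) (hV.mono (by rw [hN]; linarith))
    (hH d _ σ _ g h (hV.mono (by rw [hN]; linarith)))
  have hStep := hS d _ σ (4 * w ^ 4) g h (by omega) (hV.mono (by rw [hN]; linarith)) hLow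
  obtain ⟨n, n1, n2, hP⟩ := hT d σ w w0 g h w2 (hV.mono (by linarith))
  have r0 : 0 < √(w : ℝ) := Real.sqrt_pos.2 (by linarith)
  have key : ∀ {i k : ℕ}, 1 ≤ k → k ≤ w → k ≤ i →
      C / √(w : ℝ) + 5 * B * σ ^ 2 / √(i : ℝ) ≤ (C + 5 * B) * σ ^ 2 / √(k : ℝ) := by
    intro i k k1 k2 k3
    have k0 : 0 < √(k : ℝ) := Real.sqrt_pos.2 (by exact_mod_cast k1)
    rw [add_mul, add_div]
    exact add_le_add
      (div_le_div₀ (by positivity) (le_mul_of_one_le_right C0 s2) k0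
        (Real.sqrt_le_sqrt (by exact_mod_cast k2)))
      (div_le_div_of_nonneg_left (by positivity) k0 (Real.sqrt_le_sqrt (by exact_mod_cast k3)))
  obtain ⟨m, m1, m2, hm⟩ := h6 (p.PP d σ) (fun n => 5 * B * σ ^ 2 / √(n : ℝ))
    (fun n => B * σ ^ 2 / √(n : ℝ)) (C / √(w : ℝ)) β₀ w (4 * w ^ 4) w1' (by positivity)
    (fun n => by positivity) (fun n => by positivity) (Sys.PP_mono d σ)
    (fun n β hn hn' b0 b1 hP => hStep n β (by
      have : (w : ℝ) ≤ n := by exact_mod_cast hn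
      linarith) hn' b0 b1 hP)
    (fun n n' k1 k2 => by
      have a0 : (1 : ℝ) ≤ n' := by exact_mod_cast k1
      have a1 : 3 * (n' : ℝ) ≤ 2 * n := by exact_mod_cast k2
      have a2 : 0 < √(n' : ℝ) := Real.sqrt_pos.2 (by linarith)
      have a3 : 6 / 5 * √(n' : ℝ) ≤ √(n : ℝ) := by
        refine Real.le_sqrt_of_sq_le ?_
        rw [mul_pow, Real.sq_sqrt (by linarith)]
        linarith
      rw [← add_div, div_le_div_iff₀ (by linarith) a2]
      nlinarith [mul_le_mul_of_nonneg_left a3 (by positivity : 0 ≤ B * σ ^ 2)])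
    (fun n hn => (key w1' le_rfl hn).trans (by
      have a1 : (C + 5 * B) / β₀ * σ ^ 2 ≤ √(w : ℝ) := by
        refine Real.le_sqrt_of_sq_le ?_
        rw [mul_pow, ← pow_mul]
        linarith
      rw [div_mul_eq_mul_div, div_le_iff₀ β0] at a1
      rw [div_le_iff₀ r0]
      linarith))
    n (ww.trans n1) n2
    (Sys.PP_mono d σ n _ _ (by positivity) (le_add_of_nonneg_right (by positivity)) hP)
  have m3 : (m : ℝ) ≤ (w : ℝ) ^ 4 := by exact_mod_cast m2.le.trans ww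
  have fin := hF d _ σ m g h (by omega) (hH d _ σ _ g h (hV.mono (by
      have := mul_le_mul_of_nonneg_left m3 (mul_nonneg g1 g4)
      linarith))) (hLow.anti (by omega))
    (Sys.PP_mono d σ m _ _ (by positivity) (key (by omega) m2.le le_rfl) hm)
  have m4 : (w : ℝ) ≤ 3 * m := by exact_mod_cast m1
  have e3 : (3 : ℝ) ≤ Real.exp ((K + 2) * σ ^ 4) :=
    le_trans (by linarith) (Real.add_one_le_exp _)
  rw [show (K + c' + 2) * σ ^ 4 = (K + 2) * σ ^ 4 + c' * σ ^ 4 by ring, Real.exp_add]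
  exact m4.trans (mul_le_mul e3 fin (Nat.cast_nonneg _) (Real.exp_pos _).le)

theorem bRATE5 (hM : St_MAIN5) : St_RATE5 := by
  intro p
  obtain ⟨c, Γ, c0, g0, H⟩ := hM p
  obtain ⟨k, hk⟩ : ∃ k : ℝ, k = 1 / (8 * (c + 1)) := ⟨_, rfl⟩
  have k0 : 0 < k := by rw [hk]; positivity
  have k1 : k * (8 * (c + 1)) = 1 := by rw [hk]; field_simp
  have k2 : c * k ^ 2 ≤ 1 / 8 := by
    have a1 := mul_nonneg c0 k0.le
    have a2 : c * k * k ≤ c * k * 1 := mul_le_mul_of_nonneg_left (by linarith) a1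
    nlinarith
  refine ⟨k, k0, ?_⟩
  have hl : Tendsto (fun N : ℕ => Real.log N) atTop atTop :=
    Real.tendsto_log_atTop.comp tendsto_natCast_atTop_atTop
  filter_upwards [hl.eventually_ge_atTop ((1 / k) ^ 2), hl.eventually_ge_atTop (32 * Γ),
    eventually_ge_atTop 1] with N N1 N2 N3
  by_contra hne
  push Not at hne
  have L0 : 0 ≤ Real.log N := (sq_nonneg _).trans N1
  have s1 : 1 ≤ k * √(Real.log N) := by
    have := Real.le_sqrt_of_sq_le N1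
    rwa [div_le_iff₀' k0] at this
  have s2 : √(k * √(Real.log N)) ^ 2 = k * √(Real.log N) := Real.sq_sqrt (by linarith)
  have s4 : √(k * √(Real.log N)) ^ 4 = k ^ 2 * Real.log N := by
    rw [show (4 : ℕ) = 2 * 2 from rfl, pow_mul, s2, mul_pow, Real.sq_sqrt L0]
  obtain ⟨y, hy⟩ : ∃ y, y = Real.exp (Real.log N / 8) := ⟨_, rfl⟩
  have y1 : 1 ≤ y := by rw [hy]; exact Real.one_le_exp (by linarith)
  have y4 : 16 * Γ ≤ y ^ 4 := by
    rw [hy, ← Real.exp_nat_mul]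
    refine le_trans ?_ (Real.add_one_le_exp _)
    push_cast
    linarith
  have y8 : y ^ 4 * y ^ 4 = N := by
    rw [hy, ← pow_add, ← Real.exp_nat_mul]
    have : ((4 + 4 : ℕ) : ℝ) * (Real.log N / 8) = Real.log N := by push_cast; ring
    rw [this, Real.exp_log (by exact_mod_cast N3)]
  have w1 : y < (⌊y⌋₊ + 1 : ℕ) := by push_cast; exact Nat.lt_floor_add_one y
  have w2 : ((⌊y⌋₊ + 1 : ℕ) : ℝ) ≤ 2 * y := by
    push_cast
    linarith [Nat.floor_le (by linarith : 0 ≤ y)]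
  have fin := H √(k * √(Real.log N)) (⌊y⌋₊ + 1) (Real.one_le_sqrt.2 s1) fun v hv => by
    rw [s2]
    refine (hne v (hv.trans ?_)).le
    have a1 := mul_le_mul_of_nonneg_left (pow_le_pow_left₀ (Nat.cast_nonneg _) w2 4) g0
    have a2 := mul_le_mul_of_nonneg_right y4 (by positivity : 0 ≤ y ^ 4)
    rw [mul_pow] at a1
    linarith
  have a3 : Real.exp (c * √(k * √(Real.log N)) ^ 4) ≤ y := by
    rw [hy, s4, ← mul_assoc]
    exact Real.exp_le_exp.2 (by linarith [mul_le_mul_of_nonneg_right k2 L0])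
  linarith

end Pool.Agent.Lib.V5
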