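import Pool.Agent.Lib.V5.Base
import Pool.Agent.Lib.V3.B_MART

/-! Row MART5: the martingale bound for the truncated passage time. -/

namespace Pool.Agent.Lib.V5

open MeasureTheory ProbabilityTheory Function Finset Pool.Agent.Lib.V3
open scoped NNReal ENNReal

namespace MART5

/-- truncation does not increase the variance -/
lemma var_min {Ω : Type*} [MeasurableSpace Ω] {P : Measure Ω} [IsProbabilityMeasure P]
    {f : Ω → ℝ} (hm : Measurable f) (h2 : MemLp f 2 P) (M : ℝ) :
    variance (fun ω => min (f ω) M) P ≤ variance f P := by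
  have hg : Measurable fun ω => min (f ω) M := hm.min measurable_const
  have e := variance_sub_const (μ := P) hg.aestronglyMeasurable (min (∫ ω, f ω ∂P) M)
  rw [← e, variance_eq_integral hm.aemeasurable]
  refine (variance_le_expectation_sq (hg.sub_const _).aestronglyMeasurable).trans ?_
  refine integral_mono_of_nonneg (ae_of_all _ fun ω => sq_nonneg _)
    (h2.sub (memLp_const (∫ ω, f ω ∂P))).integrable_sq (ae_of_all _ fun ω => ?_)
  show (min (f ω) M - min (∫ ω, f ω ∂P) M) ^ 2 ≤ (f ω - ∫ ω, f ω ∂P) ^ 2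
  refine sq_le_sq.2 ((abs_min_sub_min_le_max _ _ _ _).trans ?_)
  rw [sub_self, abs_zero]
  exact max_le le_rfl (abs_nonneg _)

lemma meas_E (p : Sys) (x : V) (j : ℤ) (y : V) (M : ℝ) {C : Set Cfg} (hC : MeasurableSet C) :
    MeasurableSet {τ : Cfg | T τ 0 x ≤ M ∧ τ ∈ C ∧ p.Cross x j τ y ∧ p.hi < τ (ed y)} := by
  have h1 : MeasurableSet {τ : Cfg | p.Cross x j τ y} :=
    measurableSet_le (((TA_meas _ _ _).add (meas_w (ed y))).add (T_meas _ _))
      ((T_meas _ _).add_const _)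
  have h0 : Measurable fun τ : Cfg => τ (ed y) := measurable_pi_apply (ed y)
  have h2 : MeasurableSet {τ : Cfg | p.hi < τ (ed y)} := h0 (measurableSet_Ioi (a := p.hi))
  have h3 : MeasurableSet {τ : Cfg | T τ 0 x ≤ M} := measurableSet_le (T_meas _ _) measurable_const
  exact h3.inter (hC.inter (h1.inter h2))

end MART5

open MART5 in
theorem bMART5 : St_MART5 := by
  classical
  intro p x J W C M h
  have hm : Measurable fun τ : Cfg => min (T τ 0 x) M := (T_meas 0 x).min measurable_const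
  have hM : ∀ τ : Cfg, |min (T τ 0 x) M| ≤ |M| := fun τ =>
    abs_le.2 ⟨le_min ((neg_nonpos.2 (abs_nonneg M)).trans (T_nonneg τ 0 x)) (neg_abs_le M),
      (min_le_right _ _).trans (le_abs_self M)⟩
  have lh : p.lo < p.hi := by exact_mod_cast p.lo_lt_hi
  have key := M95.martP p.F (Set.Iic p.lo) measurableSet_Iic p.lo (J.sigma W)
    (fun i => ed i.2) (fun i => C i.1 i.2)
    (fun i => {τ : Cfg | T τ 0 x ≤ M ∧ τ ∈ C i.1 i.2 ∧ p.Cross x i.1 τ i.2 ∧ p.hi < τ (ed i.2)})
    (fun i hi => (h _ (mem_sigma.1 hi).1 _ (mem_sigma.1 hi).2).2.1)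
    (fun i hi => meas_E p x _ _ M (h _ (mem_sigma.1 hi).1 _ (mem_sigma.1 hi).2).2.1)
    (fun i hi => by
      obtain ⟨a, -, c⟩ := h _ (mem_sigma.1 hi).1 _ (mem_sigma.1 hi).2
      exact MART.upd c a.ge)
    (fun i hi k hk hne => by
      obtain ⟨a, -, c⟩ := h _ (mem_sigma.1 hi).1 _ (mem_sigma.1 hi).2
      obtain ⟨a', -, c'⟩ := h _ (mem_sigma.1 hk).1 _ (mem_sigma.1 hk).2
      refine ⟨fun he => hne ?_, ?_⟩
      · have h2 : i.2 = k.2 := ed_inj he
        have h1 : i.1 = k.1 := by rw [h2] at a; omega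
        exact Sigma.ext h1 (heq_of_eq h2)
      · rcases le_total i.1 k.1 with hl | hl
        · exact Or.inl (MART.upd c (by omega))
        · exact Or.inr (MART.upd c' (by omega)))
    (fun τ => min (T τ 0 x) M) hm |M| hM
    (fun i _ τ hτ => min_le_min_right M (T_mono (MART.up τ _ hτ) 0 x))
    (fun i _ τ hτ => min_le_min_right M (T_mono (MART.dn τ _ (not_le.1 hτ).le) 0 x))
    p.sl p.sl_pos.le
    (fun i hi τ ⟨h0, h1, h2, h3⟩ => ⟨h1, not_le.2 (lh.trans h3), by
      have hy := (h _ (mem_sigma.1 hi).1 _ (mem_sigma.1 hi).2).1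
      have hd := MART.dn τ (ed i.2) (lh.trans h3).le
      have a1 := T_mono hd 0 i.2
      have a2 := T_mono hd (i.2 + e0) x
      have a3 := T_ed (update τ (ed i.2) p.lo) i.2
      rw [update_self] at a3
      have a4 := T_tri (update τ (ed i.2) p.lo) 0 i.2 (i.2 + e0)
      have a5 := T_tri (update τ (ed i.2) p.lo) 0 (i.2 + e0) x
      have a6 := T_le_TA (conn_Lo (j := i.1) (u := 0) (v := i.2) (Int.natCast_nonneg _) hy.le) τ
      have a7 : (p.hi : ℝ) ≤ τ (ed i.2) := NNReal.coe_le_coe.2 h3.le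
      have a8 := min_le_left (T (update τ (ed i.2) p.lo) 0 x) M
      unfold Sys.Cross at h2
      have a9 : p.sl = (p.hi - p.lo) / 2 := rfl
      rw [min_eq_left h0]
      linarith⟩)
  rw [sum_sigma, sum_sigma] at key
  have hc : p.c1 / 2 = p.F.real (Set.Iic p.lo) * p.sl := by
    unfold Par.c1 Par.q Sys.sl
    ring
  have c0 : 0 ≤ p.c1 / 2 := (half_pos p.c1_pos).le
  rw [← hc] at key
  refine le_trans (pow_le_pow_left₀
    (mul_nonneg c0 (sum_nonneg fun _ _ => p.pr_nonneg _))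
    (mul_le_mul_of_nonneg_left (sum_le_sum fun j _ => ?_) c0) 2) (key.trans
      (mul_le_mul_of_nonneg_right (var_min (P := p.P) (T_meas 0 x) (p.T_memLp 0 x) M)
        (sum_nonneg fun _ _ => sum_nonneg fun _ _ => p.pr_nonneg _)))
  refine le_trans (p.pr_mono fun τ ⟨h0, y, hy, hτ⟩ => ?_) (p.pr_biUnion_le (W j) _)
  exact Set.mem_biUnion hy ⟨h0, hτ⟩

end Pool.Agent.Lib.V5
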