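import Pool.Agent.Lib.V5.Base
import Pool.Agent.Lib.V5.Blue

/-! Block START5: the initial scale for general weight laws. -/

namespace Pool.Agent.Lib.V5

open Pool.Agent.Lib.V3

namespace START5

theorem cube {p : Sys} {d : Dat} {M : ℕ} (hg : p.Good M d) {σ : ℝ} (hσ : 1 ≤ σ) {C : ℝ}
    (C1 : 1 ≤ C) {w n : ℕ} (w2 : 2 ≤ w)
    (hc : p.c1 ^ 2 ≤ w) (hn : w ^ 4 ≤ n) {x : V} (hx : x 0 = n) (hgx : p.g d x ≤ C / w * n) :
    p.PP d σ n ((C + 12 * p.b) / √w) := by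
  have hb := p.b_pos
  have w2' : (2 : ℝ) ≤ w := by exact_mod_cast w2
  have hn' : (w : ℝ) ^ 4 ≤ n := by exact_mod_cast hn
  have hn0 : (0 : ℝ) ≤ n := Nat.cast_nonneg n
  obtain ⟨t, ht⟩ : ∃ t : ℝ, t = n / w := ⟨_, rfl⟩
  have et : (n : ℝ) = t * w := by rw [ht]; field_simp
  have t3 : (w : ℝ) ^ 3 ≤ t := by
    rw [ht, le_div_iff₀ (by linarith)]
    linarith [pow_succ (w : ℝ) 3]
  have t1 : 1 ≤ t := (one_le_pow₀ (by linarith)).trans t3
  obtain ⟨m, hm1, hm2⟩ : ∃ m : ℕ, t ≤ m ∧ (m : ℝ) ≤ 2 * t :=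
    ⟨⌈t⌉₊, Nat.le_ceil _, by linarith [Nat.ceil_lt_add_one (by linarith : 0 ≤ t)]⟩
  have hmn : m ≤ n := by
    have : (m : ℝ) ≤ n := by nlinarith
    exact_mod_cast this
  have hxr : ((x 0 : ℤ) : ℝ) = n := by rw [hx]; simp
  have e1 : C / w * n = C * t := by rw [ht]; ring
  have e2 : ((C + 12 * p.b) / √(w : ℝ)) ^ 2 * n = (C + 12 * p.b) ^ 2 * t := by
    rw [div_pow, Real.sq_sqrt (by linarith), ht]; ring
  have e3 : (C + 12 * p.b) * t ≤ (C + 12 * p.b) ^ 2 * t :=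
    mul_le_mul_of_nonneg_right (by nlinarith) (by linarith)
  have e4 : 0 ≤ p.b * t := by positivity
  rw [e1] at hgx
  refine ⟨⟨x, hx, by rw [e2]; linarith⟩,
    (Finset.range m ×ˢ Finset.range m ×ˢ Finset.range m).image
      fun t : ℕ × ℕ × ℕ => x + pt t.1 t.2.1 t.2.2, ?_, ?_⟩
  · intro v hv
    obtain ⟨⟨i, j, k⟩, ht, rfl⟩ := Finset.mem_image.1 hv
    simp only [Finset.mem_product, Finset.mem_range] at ht
    obtain ⟨hi, hj, hk⟩ := ht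
    refine ⟨?_, ?_, ?_⟩
    · simp only [Pi.add_apply, pt_zero]
      omega
    · simp only [Pi.add_apply, pt_zero]
      omega
    · have a1 := hg.g_lip x (pt i j k)
      have a2 : n1 (pt i j k) = (i : ℝ) + j + k := by simp [n1]
      have hi' : (i : ℝ) ≤ m := by exact_mod_cast hi.le
      have hj' : (j : ℝ) ≤ m := by exact_mod_cast hj.le
      have hk' : (k : ℝ) ≤ m := by exact_mod_cast hk.le
      have a3 : 2 * p.b * n1 (pt i j k) ≤ 2 * p.b * (6 * t) :=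
        mul_le_mul_of_nonneg_left (by rw [a2]; linarith) (by positivity)
      have a5 : 0 ≤ ((C + 12 * p.b) / √(w : ℝ)) ^ 2 * (i : ℝ) := by positivity
      simp only [Pi.add_apply, pt_zero, Int.cast_add, Int.cast_natCast, hxr]
      linarith
  · rw [Finset.card_image_of_injective]
    · simp only [Finset.card_product, Finset.card_range, Nat.cast_mul]
      have a1 : t ^ 3 ≤ (m : ℝ) ^ 3 := pow_le_pow_left₀ (by linarith) hm1 3
      have a2 : p.cS σ ≤ w := by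
        refine le_trans ?_ hc
        unfold Sys.cS
        exact div_le_self (sq_nonneg _) (by nlinarith)
      have a3 := mul_le_mul_of_nonneg_right a2 (sq_nonneg (n : ℝ))
      have a4 : (w : ℝ) * n ^ 2 = w ^ 3 * t ^ 2 := by rw [et]; ring
      have a5 := mul_le_mul_of_nonneg_right t3 (sq_nonneg t)
      linarith
    · rintro ⟨i, j, k⟩ ⟨i', j', k'⟩ h
      simp only [add_right_inj, vext_iff, pt_zero, pt_one, pt_two, Nat.cast_inj] at h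
      simp [h.1, h.2.1, h.2.2]

end START5

theorem bSTART5 (hC : St_CUT) : St_START5 := by
  intro p
  obtain ⟨C, Γ, M₀, C0, Γ0, H⟩ := hC p
  obtain ⟨k, hk⟩ := exists_nat_ge (p.c1 ^ 2)
  have hb := p.b_pos
  refine ⟨1 + 5 * C + 12 * p.b, 24 * Γ, k + M₀ + 2, by linarith, by linarith,
    fun d σ w hw g hσ hσw hV => ?_⟩
  have hw' : (k : ℝ) ≤ w := by exact_mod_cast (by omega : k ≤ w)
  have w2 : (2 : ℝ) ≤ w := by exact_mod_cast (by omega : 2 ≤ w)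
  have w4 : w ≤ w ^ 4 := Nat.le_self_pow (by norm_num) w
  have eM : ((24 * w ^ 4 : ℕ) : ℝ) = 24 * (w : ℝ) ^ 4 := by push_cast; rfl
  have q2 : (4 : ℝ) ≤ (w : ℝ) ^ 2 := by nlinarith
  have q4 : (w : ℝ) ^ 4 = (w : ℝ) ^ 2 * (w : ℝ) ^ 2 := by ring
  obtain ⟨y, y1, y2, yg⟩ := H d (24 * w ^ 4) σ g hσ (by omega)
    (by rw [eM, q4]; nlinarith) (hV.mono (by rw [eM]; exact le_of_eq (by ring)))
  obtain ⟨W, hW⟩ : ∃ W : ℕ, W = w ^ 4 := ⟨_, rfl⟩
  rw [← hW] at y1 y2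
  obtain ⟨n, hn⟩ : ∃ n : ℕ, y 0 = n := ⟨(y 0).toNat, by omega⟩
  have n1 : w ^ 4 ≤ n := by omega
  refine ⟨n, n1, by omega, START5.cube g hσ (by linarith) (by omega) (by linarith) n1 hn ?_⟩
  have n2 : (w : ℝ) ^ 4 ≤ n := by exact_mod_cast n1
  have a1 : √(σ * ((24 * w ^ 4 : ℕ) : ℝ)) ≤ 5 * (w : ℝ) ^ 3 := by
    refine Real.sqrt_le_iff.2 ⟨by positivity, ?_⟩
    rw [eM]
    have a2 := mul_le_mul_of_nonneg_right hσw (by positivity : (0 : ℝ) ≤ 24 * (w : ℝ) ^ 4)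
    have a3 : (0 : ℝ) ≤ (w : ℝ) ^ 6 := by positivity
    have e1 : (w : ℝ) ^ 2 * (24 * (w : ℝ) ^ 4) = 24 * (w : ℝ) ^ 6 := by ring
    have e2 : (5 * (w : ℝ) ^ 3) ^ 2 = 25 * (w : ℝ) ^ 6 := by ring
    linarith
  refine (yg.trans (mul_le_mul_of_nonneg_left a1 C0)).trans ?_
  rw [div_mul_eq_mul_div, le_div_iff₀ (by linarith)]
  have a4 := mul_le_mul_of_nonneg_left n2 (by linarith : 0 ≤ 5 * C)
  have e3 : C * (5 * (w : ℝ) ^ 3) * w = 5 * C * (w : ℝ) ^ 4 := by ring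
  have n0 : (0 : ℝ) ≤ n := Nat.cast_nonneg n
  linarith

end Pool.Agent.Lib.V5
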