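import Pool.Agent.Lib.V5.Base

/-! Row SUN: counting the starts of intervals that are at least half light. -/

namespace Pool.Agent.Lib.V5

namespace SUN

lemma split (Lt : Finset ℕ) {s u N : ℕ} (h1 : s ≤ u) (h2 : u ≤ N) :
    (Lt.filter fun i => s ≤ i ∧ i < u).card + (Lt.filter fun i => u ≤ i ∧ i < N).card ≤
      (Lt.filter fun i => s ≤ i ∧ i < N).card := by
  have hd : Disjoint (Lt.filter fun i => s ≤ i ∧ i < u) (Lt.filter fun i => u ≤ i ∧ i < N) := by
    rw [Finset.disjoint_left]
    intro i hi hj
    have a := (Finset.mem_filter.1 hi).2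
    have b := (Finset.mem_filter.1 hj).2
    omega
  rw [← Finset.card_union_of_disjoint hd]
  apply Finset.card_le_card
  intro i hi
  rcases Finset.mem_union.1 hi with h | h
  · have a := Finset.mem_filter.1 h
    exact Finset.mem_filter.2 ⟨a.1, a.2.1, by have := a.2.2; omega⟩
  · have a := Finset.mem_filter.1 h
    exact Finset.mem_filter.2 ⟨a.1, by have := a.2.1; omega, a.2.2⟩

lemma tail (N : ℕ) (Lt B : Finset ℕ) (e : ℕ → ℕ)
    (h : ∀ t ∈ B, t < e t ∧ e t ≤ N ∧ e t - t ≤ 2 * (Lt.filter fun i => t ≤ i ∧ i < e t).card) :
    ∀ k s : ℕ, N - s ≤ k →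
      (B.filter fun t => s ≤ t).card ≤ 2 * (Lt.filter fun i => s ≤ i ∧ i < N).card := by
  intro k
  induction k with
  | zero =>
    intro s hs
    have : (B.filter fun t => s ≤ t) = ∅ := by
      rw [Finset.eq_empty_iff_forall_notMem]
      intro t ht
      have a := Finset.mem_filter.1 ht
      have b := h t a.1
      have c := a.2
      omega
    rw [this, Finset.card_empty]
    exact Nat.zero_le _
  | succ k ih =>
    intro s hs
    by_cases hB : s ∈ B
    · obtain ⟨h1, h2, h3⟩ := h s hB
      have h4 := ih (e s) (by omega)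
      have h5 := split Lt h1.le h2
      have h6 : (B.filter fun t => s ≤ t).card ≤
          (Finset.Ico s (e s)).card + (B.filter fun t => e s ≤ t).card := by
        refine le_trans (Finset.card_le_card ?_) (Finset.card_union_le _ _)
        intro t ht
        have a := Finset.mem_filter.1 ht
        by_cases c : t < e s
        · exact Finset.mem_union_left _ (Finset.mem_Ico.2 ⟨a.2, c⟩)
        · exact Finset.mem_union_right _ (Finset.mem_filter.2 ⟨a.1, by omega⟩)
      rw [Nat.card_Ico] at h6
      omega
    · have h4 := ih (s + 1) (by omega)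
      have h5 : (B.filter fun t => s ≤ t).card ≤ (B.filter fun t => s + 1 ≤ t).card := by
        apply Finset.card_le_card
        intro t ht
        have a := Finset.mem_filter.1 ht
        refine Finset.mem_filter.2 ⟨a.1, ?_⟩
        have c := a.2
        have d : t ≠ s := fun g => hB (g ▸ a.1)
        omega
      have h6 : (Lt.filter fun i => s + 1 ≤ i ∧ i < N).card ≤
          (Lt.filter fun i => s ≤ i ∧ i < N).card := by
        apply Finset.card_le_card
        intro i hi
        have a := Finset.mem_filter.1 hi
        exact Finset.mem_filter.2 ⟨a.1, by have := a.2.1; omega, a.2.2⟩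
      omega

end SUN

theorem bSUN : St_SUN := by
  intro N Lt B e h
  have h1 := SUN.tail N Lt B e h N 0 (by omega)
  have h2 : (B.filter fun t => 0 ≤ t) = B := Finset.filter_true_of_mem fun t _ => Nat.zero_le t
  have h3 : (Lt.filter fun i => 0 ≤ i ∧ i < N).card ≤ (Lt.filter fun i => i < N).card := by
    apply Finset.card_le_card
    intro i hi
    have a := Finset.mem_filter.1 hi
    exact Finset.mem_filter.2 ⟨a.1, a.2.2⟩
  rw [h2] at h1
  omega

end Pool.Agent.Lib.V5
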