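import Pool.Agent.Lib.V5.B_KP
import Pool.Agent.Lib.V5.B_PRE
import Pool.Agent.Lib.V5.B_GEO5
import Pool.Agent.Lib.V5.B_SUN
import Pool.Agent.Lib.V5.B_HALFA
import Pool.Agent.Lib.V5.B_HALF5
import Pool.Agent.Lib.V5.B_LOW5
import Pool.Agent.Lib.V5.B_LOW0
import Pool.Agent.Lib.V5.B_DEC5
import Pool.Agent.Lib.V5.B_MART5
import Pool.Agent.Lib.V5.B_CORE5
import Pool.Agent.Lib.V5.B_CUT
import Pool.Agent.Lib.V5.B_START5
import Pool.Agent.Lib.V5.B_STEP5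
import Pool.Agent.Lib.V5.B_MAIN5
import Pool.Agent.Lib.V5.B_FINAL5
import Pool.Agent.Lib.V5.B_OUT5
import Pool.Agent.Lib.V3.B_SUM
import Pool.Agent.Lib.V3.B_WIN
import Pool.Agent.Lib.V3.B_PC
import Pool.Agent.Lib.V3.Fast47
import Pool.Agent.Lib.V3.Sep47
import Pool.Agent.Lib.V3Q.B_HALVE

/-! Assembly for general weight laws. -/

namespace Pool.Agent.Lib.V5

open Pool.Agent.Lib.V3

theorem st_MAIN5 : St_MAIN5 :=
  bMAIN5 bGEO5 (bHALF5 (bHALFA bSUM)) (bLOW5 bSUM) (bSTEP5 (bCORE5 bWIN (bDEC5 bSUN) bMART5))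
    (bSTART5 (bCUT (bDEC5 bSUN) bLOW0)) bCHAIN2
    (bFINAL5 bFAST47 fun z K h0 hK n S hn hS => SEP47.sep z K h0 hK n S hn hS)

theorem st_FIN5 : St_FIN5 := bFIN5 bPC bKP bPRE (bRATE5 st_MAIN5)

end Pool.Agent.Lib.V5
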