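import Pool.Agent.Lib.V5.Base
import Pool.Agent.Lib.V3.B_PC

/-! Row KP: long paths from the origin rarely have half of their edges light. -/

namespace Pool.Agent.Lib.V5

open MeasureTheory ProbabilityTheory Finset SimpleGraph Pool.Agent.Lib.V3
open scoped NNReal ENNReal

namespace KP

/-- one length at a time -/
lemma one (p : Par) (a : ℝ≥0) (ha : p.F.real (Set.Iic a) ≤ 1 / 1000) (l : ℕ) :
    p.pr (Light a l (l / 2)) ≤ (1 / 2) ^ l := by
  classical
  obtain ⟨F, hF, hF'⟩ := PC.fam l 0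
  have hsub : Light a l (l / 2) ⊆
      ⋃ s ∈ F.filter fun s => l ≤ 2 * s.card, {τ : Cfg | ∀ e ∈ s, τ e ∈ Set.Iic a} := by
    rintro τ ⟨v, q, hq, s, hs, hc⟩
    have h1 : q.length ≤ l := by exact_mod_cast hq
    have h2 : l ≤ 2 * s.card := by
      have : (l : ℝ) ≤ 2 * s.card := by linarith
      exact_mod_cast this
    simp only [Set.mem_iUnion]
    exact ⟨s, mem_filter.2 ⟨hF' v q h1 s fun e he => (hs e he).1, h2⟩, fun e he => (hs e he).2⟩
  refine (p.pr_mono hsub).trans ((p.pr_biUnion_le _ _).trans ?_)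
  have h3 : ∀ s ∈ F.filter fun s => l ≤ 2 * s.card,
      p.pr {τ : Cfg | ∀ e ∈ s, τ e ∈ Set.Iic a} ≤ (1 / 26 : ℝ) ^ l := fun s hs => by
    rw [p.pr_all s measurableSet_Iic]
    have h0 : p.F.real (Set.Iic a) ≤ (1 / 26 : ℝ) ^ 2 := ha.trans (by norm_num)
    refine (pow_le_pow_left₀ measureReal_nonneg h0 _).trans ?_
    rw [← pow_mul]
    exact pow_le_pow_of_le_one (by norm_num) (by norm_num) (mem_filter.1 hs).2
  refine (sum_le_card_nsmul _ _ _ h3).trans ?_
  have h4 : ((F.filter fun s => l ≤ 2 * s.card).card : ℝ) ≤ 13 ^ l := by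
    exact_mod_cast (card_filter_le _ _).trans hF
  rw [nsmul_eq_mul]
  refine (mul_le_mul_of_nonneg_right h4 (by positivity)).trans ?_
  rw [← mul_pow]
  norm_num

end KP

theorem bKP : St_KP := by
  refine ⟨8, fun p a ha => ?_⟩
  have hsub : Many a 8 ⊆ ⋃ k : ℕ, Light a ((k + 8 : ℕ) : ℝ) (((k + 8 : ℕ) : ℝ) / 2) := by
    rintro τ ⟨v, q, -, hL, s, hs, hc⟩
    have e : q.length - 8 + 8 = q.length := by omega
    refine Set.mem_iUnion.2 ⟨q.length - 8, ?_⟩
    rw [e]
    exact ⟨v, q, le_rfl, s, hs, hc⟩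
  have hs : HasSum (fun k : ℕ => (1 / 2 : ℝ) ^ (k + 8)) (2 * (1 / 2) ^ 8) := by
    simp only [pow_add]
    exact hasSum_geometric_two.mul_right _
  have h1 : p.P (Many a 8) ≤ ENNReal.ofReal (2 * (1 / 2) ^ 8) := by
    rw [← hs.tsum_eq, ENNReal.ofReal_tsum_of_nonneg (fun _ => by positivity) hs.summable]
    refine (measure_mono hsub).trans ((measure_iUnion_le _).trans
      (ENNReal.tsum_le_tsum fun k => ?_))
    exact (ENNReal.le_ofReal_iff_toReal_le (measure_ne_top _ _) (by positivity)).2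
      (KP.one p a ha (k + 8))
  exact (ENNReal.toReal_le_of_le_ofReal (by positivity) h1).trans (by norm_num)

end Pool.Agent.Lib.V5
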