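import Pool.Agent.Lib.V5.Base
import Pool.Agent.Lib.V3Q.B_STEP2

/-! Row STEP5: one change of scale for general weight laws. -/

namespace Pool.Agent.Lib.V5

open Pool.Agent.Lib.V3

namespace STEP5

theorem core (hC : St_CORE5) (p : Sys) (d : Dat) (σ C A a c : ℝ) (M N : ℕ) (hG : p.Good M d)
    (s1 : 1 ≤ σ) (C0 : 0 ≤ C) (hc : c = 10 + 2 * p.b) (A1 : 1 ≤ A)
    (A2 : 36 * (1 + c + 4 * C) ≤ d.ε * A) (a0 : 0 ≤ a) (a1 : p.c1 * a = 600 * A)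
    (hV : p.VarM σ (p.D * N)) (hL : p.LowB d σ C N) (n : ℕ) (β : ℝ)
    (hn : (c + 24 + p.L) * σ ^ 4 ≤ n) (hN : n ≤ N) (β0 : 0 ≤ β) (β1 : β ≤ 1 / 2)
    (hP : p.PP d σ n β) :
    ∃ n' : ℕ, n ≤ 3 * n' ∧ 3 * n' ≤ 2 * n ∧ p.PP d σ n' (β + (c + 2 * a + 2) * σ ^ 2 / √n) := by
  have b0 := p.b_pos
  have e0 := hG.ε_pos
  have cp : 0 ≤ c := by rw [hc]; positivity
  obtain ⟨s, hs⟩ : ∃ s, s = σ ^ 2 := ⟨_, rfl⟩
  have s4 : σ ^ 4 = s ^ 2 := by rw [hs]; ring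
  have s2 : 1 ≤ s := hs ▸ one_le_pow₀ s1
  have s3 : 1 ≤ s ^ 2 := one_le_pow₀ s2
  have s5 : σ ≤ s ^ 2 := s4 ▸ le_self_pow₀ s1 (by norm_num)
  have hK : 10 * σ + 2 * p.b ≤ c * s ^ 2 := by
    have := mul_le_mul_of_nonneg_left s3 b0.le
    rw [hc]
    linarith
  rw [s4] at hn
  rw [← hs]
  obtain ⟨⟨x, x0, hx⟩, S, hS, cS⟩ := hP
  have q0 : 0 ≤ c * s ^ 2 := by positivity
  have L0 : (0 : ℝ) ≤ p.L := Nat.cast_nonneg _
  have q1 : (p.L : ℝ) * 1 ≤ p.L * s ^ 2 := mul_le_mul_of_nonneg_left s3 L0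
  have n24 : (24 : ℝ) ≤ n := by linarith
  have n24' : 24 ≤ n := by exact_mod_cast n24
  have nL : p.L ≤ n := by exact_mod_cast (by linarith : (p.L : ℝ) ≤ n)
  obtain ⟨r, hr⟩ : ∃ r, r = √(n : ℝ) := ⟨_, rfl⟩
  have r0 : 0 < r := hr ▸ Real.sqrt_pos.2 (by linarith)
  have r2 : r ^ 2 = n := hr ▸ Real.sq_sqrt (by linarith)
  have β2 : β ≤ 1 := by linarith
  have β3 : β ^ 2 ≤ 1 / 2 := (pow_le_of_le_one β0 β2 two_ne_zero).trans β1
  have u2 : (β * r) ^ 2 = β ^ 2 * n := by rw [mul_pow, r2]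
  have u3 : 2 * (β * r) ^ 2 ≤ n := by
    have := mul_le_mul_of_nonneg_right β3 (Nat.cast_nonneg n : (0 : ℝ) ≤ n)
    rw [u2]
    linarith
  have u4 : 0 ≤ (β * r) ^ 2 := by positivity
  have u8 : p.D * n ≤ p.D * N := mul_le_mul_of_nonneg_left (by exact_mod_cast hN) p.D_pos.le
  rw [← u2] at hx
  have u9 := STEP2.win cp C0 (mul_nonneg β0 r0.le) e0 A1 A2 hx (zero_le_one.trans s2) hK
  obtain ⟨W, hW, cW⟩ := hC p d M σ _ hG s1 hV n x (C * (2 * (β * r) ^ 2 + s ^ 2))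
    ((A * (β * r + s)) ^ 2) (a * s * (β * r + s)) n24' nL x0 (by positivity) (by linarith)
    (by linarith)
    (fun j hj => s4 ▸ hL n _ S j (by omega) hN (by positivity) u3
      (fun v hv => ⟨(hS v hv).1, (hS v hv).2.1, (hS v hv).2.2.trans (by
        have h : (v 0 : ℝ) ≤ 2 * n := by exact_mod_cast (hS v hv).2.1
        have := mul_le_mul_of_nonneg_left h (sq_nonneg β)
        linarith)⟩) cS (by omega) (by omega))
    (one_le_pow₀ (one_le_mul_of_one_le_of_one_le A1 (by linarith [mul_nonneg β0 r0.le])))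
    (by linarith)
    (by
      rw [Real.sqrt_sq (by positivity), ← hs, ← mul_assoc p.c1, ← mul_assoc p.c1, a1]
      exact le_of_eq (by ring))
    u8
  have key : ∀ v ∈ W, p.g d v ≤ (β + (c + 2 * a + 2) * s / √(n : ℝ)) ^ 2 * v 0 := fun v hv => by
    obtain ⟨w1, -, w3⟩ := hW v hv
    have v0 : (0 : ℝ) ≤ v 0 := by exact_mod_cast (by omega : 0 ≤ v 0)
    have g := STEP2.gain β0 β2 (by positivity : 0 ≤ (c + 2 * a + 2) * s / r) r0.le (by linarith)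
      (div_mul_cancel₀ _ r0.ne') a0 cp rfl s2 hK
    rw [r2] at g
    have g2 := mul_le_mul_of_nonneg_left
      (show p.g d x + 10 * σ + 2 * p.b + 2 * (a * s * (β * r + s)) ≤
        (β + (c + 2 * a + 2) * s / r) ^ 2 * (n - 1) by linarith) v0
    rw [← hr]
    refine le_of_mul_le_mul_right ?_ (by linarith : (0 : ℝ) < n - 1)
    linarith
  have cp2 : 0 < p.cS σ * (n : ℝ) ^ 2 := mul_pos (p.cS_pos s1) (by positivity)
  obtain ⟨y, hy⟩ : W.Nonempty := Finset.card_pos.1 (by exact_mod_cast cp2.trans_le cW)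
  obtain ⟨y1, y2, -⟩ := hW y hy
  obtain ⟨m, hm⟩ : ∃ m : ℕ, y 0 = m := ⟨(y 0).toNat, by omega⟩
  refine ⟨m, by omega, by omega, ⟨y, hm, ?_⟩, W, fun v hv => ⟨?_, ?_, key v hv⟩, ?_⟩
  · have := key y hy
    rwa [hm, Int.cast_natCast] at this
  · obtain ⟨w1, w2, -⟩ := hW v hv
    omega
  · obtain ⟨w1, w2, -⟩ := hW v hv
    omega
  · have h : (m : ℝ) ≤ n := by exact_mod_cast (by omega : m ≤ n)
    exact (mul_le_mul_of_nonneg_left (pow_le_pow_left₀ (Nat.cast_nonneg m) h 2)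
      (p.cS_pos s1).le).trans cW

end STEP5

theorem bSTEP5 (hC : St_CORE5) : St_STEP5 := by
  intro p C C0
  have b0 := p.b_pos
  have e0 := p.eps_pos
  have c0 := p.c1_pos
  obtain ⟨c, hc⟩ : ∃ c, c = 10 + 2 * p.b := ⟨_, rfl⟩
  have cp : 0 ≤ c := by rw [hc]; positivity
  obtain ⟨A, A1, A2⟩ : ∃ A : ℝ, 1 ≤ A ∧ 36 * (1 + c + 4 * C) ≤ p.eps * A := by
    refine ⟨1 + 36 * (1 + c + 4 * C) / p.eps, le_add_of_nonneg_right (by positivity), ?_⟩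
    rw [mul_add p.eps, mul_div_cancel₀ _ e0.ne']
    linarith
  obtain ⟨a, a0, a1⟩ : ∃ a : ℝ, 0 ≤ a ∧ p.c1 * a = 600 * A :=
    ⟨600 * A / p.c1, by positivity, mul_div_cancel₀ _ c0.ne'⟩
  refine ⟨c + 2 * a + 2, 1 / 2, c + 24 + p.L, p.D, by positivity, by positivity, by positivity,
    p.D_pos.le, fun d M σ N hG h _ hV hL n β hn hN β0 β1 hP => ?_⟩
  exact STEP5.core hC p d σ C A a c M N hG h C0 hc A1 (hG.ε_eq ▸ A2) a0 a1 hV hL n β hn hN β0 β1 hP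

end Pool.Agent.Lib.V5
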