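import Pool.Agent.Lib.V3.Prob

/-! Working definitions: the variance bound in dimension three for general weight laws. -/

namespace Pool.Agent.Lib.V5

open MeasureTheory ProbabilityTheory Filter Topology Pool.Agent.Lib.V3
open scoped NNReal ENNReal

/-- total weight of a list of edges -/
noncomputable def SW (τ : Cfg) (l : List (Sym2 V)) : ℝ := (l.map fun e => (τ e : ℝ)).sum
/-- passage time -/
noncomputable def T (τ : Cfg) (u v : V) : ℝ := ⨅ q : G.Walk u v, SW τ q.edges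
/-- passage time along walks with all edges in `A` -/
noncomputable def TA (A : Set (Sym2 V)) (τ : Cfg) (u v : V) : ℝ :=
  ⨅ q : {q : G.Walk u v // ∀ e ∈ q.edges, e ∈ A}, SW τ q.1.edges
/-- some walk from `u` to `v` has all its edges in `A` -/
def Conn (A : Set (Sym2 V)) (u v : V) : Prop := ∃ q : G.Walk u v, ∀ e ∈ q.edges, e ∈ A
noncomputable def A (d : Dat) (j : ℤ) (τ : Cfg) (y : V) : ℝ := TA (Lo j) τ 0 y - d.ρ y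

/-- some long path from the origin has at least one half of its edges of weight `≤ a` -/
def Many (a : ℝ≥0) (L : ℕ) : Set Cfg :=
  {τ | ∃ (v : V) (q : G.Walk 0 v), q.IsPath ∧ L ≤ q.length ∧
    ∃ s : Finset (Sym2 V), (∀ e ∈ s, e ∈ q.edges ∧ τ e ≤ a) ∧ (q.length : ℝ) / 2 ≤ s.card}
/-- some long path from the origin is fast -/
def Kes (c : ℝ) (L : ℕ) : Set Cfg :=
  {τ | ∃ (v : V) (q : G.Walk 0 v), q.IsPath ∧ L ≤ q.length ∧ SW τ q.edges < c * q.length}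

noncomputable def DD (c b : ℝ) : ℝ :=
  (b * (1 + 2 / c * (b + 1)) + 1) / c + 3 + 2 / c * (2 * b + 1)

/-- a weight law with its levels; `b` bounds the mean, `c` is the speed bound of long paths;
the fields `r` and `σ` of the parent play no part -/
structure Sys extends Par where
  c : ℝ
  L : ℕ
  mem2 : MemLp (fun t : ℝ≥0 => (t : ℝ)) 2 F
  mean : ∫ t, (t : ℝ) ∂F ≤ b
  hi_le_c : (hi : ℝ) ≤ c
  c_le : c ≤ b
  kes : toPar.pr (Kes c L) ≤ 1 / 100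
  hl : ∀ v : V, c * n1 v ≤ ∫ τ, T τ 0 v ∂toPar.P
  rare : ∀ n : ℕ, 1 ≤ n → toPar.pr (Light hi (DD c b * n) (n / 100)) ≤ 1 / 100

namespace Sys

variable (p : Sys)

noncomputable def h (v : V) : ℝ := ∫ τ, T τ 0 v ∂p.P
noncomputable def Vr (v : V) : ℝ := variance (fun τ => T τ 0 v) p.P
noncomputable def D : ℝ := DD p.c p.b
noncomputable def R : ℝ := 2 * p.D + 4 / p.c * (2 * p.b + 1)
noncomputable def eps : ℝ := min 1 (p.hi / (4 * p.R))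
/-- slack allowed to nearly optimal paths -/
noncomputable def sl : ℝ := (p.hi - p.lo) / 2
noncomputable def cS (σ : ℝ) : ℝ := p.c1 ^ 2 / (1600 * σ ^ 2)
noncomputable def g (d : Dat) (v : V) : ℝ := p.h v - d.ρ v

/-- the variance bound up to distance `X` -/
def VarM (σ X : ℝ) : Prop := ∀ v, n1 v ≤ X → p.Vr v ≤ σ ^ 2

structure Good (M : ℕ) (d : Dat) : Prop where
  ρ0_nonneg : 0 ≤ d.ρ0
  ρ0_le : d.ρ0 ≤ p.b
  l1_le : |d.l1| ≤ p.hi / 2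
  l2_le : |d.l2| ≤ p.hi / 2
  ε_eq : d.ε = p.eps
  θ1_le : |d.θ1| ≤ p.R
  θ2_le : |d.θ2| ≤ p.R
  G1 : ∀ z : V, 0 ≤ z 0 → z 0 ≤ M → 0 ≤ p.g d z
  G2 : ∀ z : V, 0 < z 0 → z 0 ≤ M → |(z 1 : ℝ)| ≤ p.R * z 0 → |(z 2 : ℝ)| ≤ p.R * z 0 →
    d.ε * d.eta z ≤ z 0 * p.g d z
  G3 : ∃ x : V, (M : ℤ) < 2 * x 0 ∧ x 0 ≤ M ∧ p.g d x ≤ 0
  G4 : p.c * (1 + |d.θ1| + |d.θ2|) ≤ d.ρ0 + d.l1 * d.θ1 + d.l2 * d.θ2

def Half (d : Dat) (σ a : ℝ) (M : ℕ) (Y : ℝ) : Prop :=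
  ∀ v : V, 1 ≤ v 0 → v 0 ≤ M → n1 v ≤ Y →
    1 / 2 ≤ p.pr {τ | TA (Up 0) τ 0 v - d.ρ v ≤ a * (p.g d v + σ)}

def Low (d : Dat) (n : ℕ) (j : ℤ) (lam : ℝ) : Set Cfg :=
  {τ | ∃ y : V, y 0 = j ∧ n1 y ≤ p.D * n ∧ A d j τ y ≤ d.ε / 36 * d.eta y / n - lam}

def LowB (d : Dat) (σ a : ℝ) (N : ℕ) : Prop :=
  ∀ (n : ℕ) (k : ℝ) (S : Finset V) (j : ℤ), 1 ≤ n → n ≤ N → 0 ≤ k → k ≤ n →
    (∀ v ∈ S, (n : ℤ) ≤ 2 * v 0 ∧ v 0 ≤ 2 * n ∧ p.g d v ≤ k) → p.cS σ * n ^ 2 ≤ S.card →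
    0 ≤ j → j ≤ 3 * n → p.pr (p.Low d n j (a * (k + σ ^ 4))) ≤ 1 / 100

def Low0 (n : ℕ) (j : ℤ) (s : ℝ) : Set Cfg :=
  {τ | ∃ y : V, y 0 = j ∧ n1 y ≤ p.D * n ∧ TA (Lo j) τ 0 y < p.h y - s}

/-- the edge above `y` can serve as first crossing of its slab by a nearly optimal path -/
def Cross (x : V) (j : ℤ) (τ : Cfg) (y : V) : Prop :=
  TA (Lo j) τ 0 y + τ (ed y) + T τ (y + e0) x ≤ T τ 0 x + p.sl

def Ev (x : V) (j : ℤ) (W : Finset V) (C : V → Set Cfg) (M' : ℝ) : Set Cfg :=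
  {τ | T τ 0 x ≤ M' ∧ ∃ y ∈ W, τ ∈ C y ∧ p.Cross x j τ y ∧ p.hi < τ (ed y)}

def PP (d : Dat) (σ : ℝ) (n : ℕ) (β : ℝ) : Prop :=
  (∃ x : V, x 0 = n ∧ p.g d x ≤ β ^ 2 * n) ∧
    ∃ S : Finset V, (∀ v ∈ S, (n : ℤ) ≤ 2 * v 0 ∧ v 0 ≤ 2 * n ∧ p.g d v ≤ β ^ 2 * v 0) ∧
      p.cS σ * n ^ 2 ≤ S.card

end Sys

end Pool.Agent.Lib.V5
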